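import Pool.Agent.H77.TU.Stm
set_option autoImplicit false
namespace Pool.Agent.H77.TU

namespace ABS
open Filter Topology

theorem right_gt {f : ℝ → ℝ} {f' x : ℝ} (h : HasDerivAt f f' x) (hf : 0 < f') :
    ∀ᶠ t in 𝓝[>] x, f x < f t := by
  have h1 := (hasDerivAt_iff_tendsto_slope.1 h).mono_left (nhdsGT_le_nhdsNE x)
  have h2 : ∀ᶠ t in 𝓝[>] x, 0 < slope f x t := h1.eventually (lt_mem_nhds hf)
  filter_upwards [h2, self_mem_nhdsWithin] with t ht hx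
  rw [slope_def_field] at ht
  have hx' : 0 < t - x := sub_pos.2 hx
  have := (div_pos_iff_of_pos_right hx').1 ht
  linarith

theorem main : S_ABS := by
  intro σ Q s1 θ hs1 hθ hQ hσ0 hσs hQ0 hσc hQc H
  set C : Set ℝ := {s | s ∈ Set.Ici (0:ℝ) ∧ (σ 0 ≤ σ s ∧ σ s ≤ s1 ∧ Q s ≤ θ ^ 2 * σ s ^ 2)} with hC
  have hCc : IsClosed C := by
    have c1 : IsClosed {s | s ∈ Set.Ici (0:ℝ) ∧ σ 0 ≤ σ s} := isClosed_Ici.isClosed_le continuousOn_const hσc
    have c2 : IsClosed {s | s ∈ Set.Ici (0:ℝ) ∧ σ s ≤ s1} := isClosed_Ici.isClosed_le hσc continuousOn_const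
    have c3 : IsClosed {s | s ∈ Set.Ici (0:ℝ) ∧ Q s ≤ θ ^ 2 * σ s ^ 2} :=
      isClosed_Ici.isClosed_le hQc (continuousOn_const.mul (hσc.pow 2))
    have : C = {s | s ∈ Set.Ici (0:ℝ) ∧ σ 0 ≤ σ s} ∩ ({s | s ∈ Set.Ici (0:ℝ) ∧ σ s ≤ s1} ∩
        {s | s ∈ Set.Ici (0:ℝ) ∧ Q s ≤ θ ^ 2 * σ s ^ 2}) := by
      ext s; simp only [hC, Set.mem_ofPred_eq, Set.mem_inter_iff]; tauto
    rw [this]
    exact c1.inter (c2.inter c3)
  set A : Set ℝ := {t | 0 ≤ t ∧ ∀ s ∈ Set.Icc 0 t, s ∈ C} with hA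
  have hA0 : (0:ℝ) ∈ A := by
    refine ⟨le_rfl, ?_⟩
    intro s hs
    have : s = 0 := le_antisymm hs.2 hs.1
    subst this
    exact ⟨Set.mem_Ici.2 le_rfl, le_rfl, hσs, hQ0⟩
  have key : ∀ s ∈ C, ∃ σ' Q' : ℝ, HasDerivAt σ σ' s ∧ HasDerivAt Q Q' s ∧
    3 / 2 * σ s ≤ σ' ∧ Q' < 2 * θ ^ 2 * σ s * σ' := by
    intro s hs
    exact H s hs.1 (lt_of_lt_of_le hσ0 hs.2.1) hs.2.2.1 hs.2.2.2
  have hAb : ∀ t ∈ A, t ≤ s1 / (3/2 * σ 0) := by
    intro t ht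
    have hm : MonotoneOn (fun s => σ s - 3/2 * σ 0 * s) (Set.Icc 0 t) := by
      apply monotoneOn_of_deriv_nonneg (convex_Icc 0 t)
      · apply ContinuousOn.sub
        · exact hσc.mono (fun s hs => hs.1)
        · fun_prop
      · intro s hs
        rw [interior_Icc] at hs
        obtain ⟨σ', Q', h1, -, -, -⟩ := key s (ht.2 s ⟨hs.1.le, hs.2.le⟩)
        exact ((h1.sub ((hasDerivAt_id s).const_mul (3/2 * σ 0))).differentiableAt).differentiableWithinAt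
      · intro s hs
        rw [interior_Icc] at hs
        have hsC := ht.2 s ⟨hs.1.le, hs.2.le⟩
        obtain ⟨σ', Q', h1, -, h3, -⟩ := key s hsC
        have h4 : HasDerivAt (fun s => σ s - 3/2 * σ 0 * s) (σ' - 3/2 * σ 0 * 1) s :=
          h1.sub ((hasDerivAt_id s).const_mul (3/2 * σ 0))
        rw [h4.deriv]
        have := hsC.2.1
        linarith
    have h1 := hm (Set.left_mem_Icc.2 ht.1) (Set.right_mem_Icc.2 ht.1) ht.1
    have h2 := (ht.2 t (Set.right_mem_Icc.2 ht.1)).2.2.1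
    simp only [mul_zero, sub_zero] at h1
    rw [le_div_iff₀ (by positivity)]
    linarith
  have hbdd : BddAbove A := ⟨_, hAb⟩
  set T := sSup A with hT
  have hT0 : 0 ≤ T := le_csSup hbdd hA0
  have hAC : A ⊆ C := fun t ht => ht.2 t (Set.right_mem_Icc.2 ht.1)
  have hTC : T ∈ C := by
    have := csSup_mem_closure ⟨0, hA0⟩ hbdd
    exact hCc.closure_subset_iff.2 hAC this
  have hTA : ∀ s ∈ Set.Icc 0 T, s ∈ C := by
    intro s hs
    rcases eq_or_lt_of_le hs.2 with h | h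
    · rw [h]; exact hTC
    · obtain ⟨t, ht, hst⟩ := exists_lt_of_lt_csSup ⟨0, hA0⟩ h
      exact ht.2 s ⟨hs.1, hst.le⟩
  refine ⟨T, hT0, ?_, fun t ht => ⟨lt_of_lt_of_le hσ0 (hTA t ht).2.1, (hTA t ht).2.2.1, (hTA t ht).2.2.2⟩⟩
  by_contra hne
  have hlt : σ T < s1 := lt_of_le_of_ne hTC.2.2.1 hne
  obtain ⟨σ', Q', h1, h2, h3, h4⟩ := key T hTC
  have hσT : 0 < σ T := lt_of_lt_of_le hσ0 hTC.2.1
  have g1 := right_gt h1 (by nlinarith)
  have hF : HasDerivAt (fun t => θ ^ 2 * σ t ^ 2 - Q t) (θ ^ 2 * (((2:ℕ):ℝ) * σ T ^ (2-1) * σ') - Q') T :=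
    ((h1.pow 2).const_mul (θ ^ 2)).sub h2
  have g2 := right_gt hF (by norm_num; nlinarith)
  have g3 : ∀ᶠ t in 𝓝[>] T, σ t < s1 :=
    (h1.continuousAt.eventually (gt_mem_nhds hlt)).filter_mono nhdsWithin_le_nhds
  have g := (g1.and (g2.and g3))
  rw [eventually_nhdsWithin_iff, Metric.eventually_nhds_iff] at g
  obtain ⟨ε, hε, g⟩ := g
  have hmem : T + ε / 2 ∈ A := by
    refine ⟨by positivity, ?_⟩
    intro s hs
    rcases le_or_gt s T with h | h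
    · exact hTA s ⟨hs.1, h⟩
    · have hd : dist s T < ε := by
        rw [Real.dist_eq, abs_of_pos (sub_pos.2 h)]
        linarith [hs.2]
      obtain ⟨a1, a2, a3⟩ := g hd h
      have := hTC.2.1
      have := hTC.2.2.2
      exact ⟨hs.1, by linarith, a3.le, by linarith⟩
  have := le_csSup hbdd hmem
  linarith

end ABS
end Pool.Agent.H77.TU
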