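import Pool.Agent.H77.TU.Stm

/-! TU-BAR: the barrier argument near the relative equilibrium, with an initial error (helper file). -/

set_option autoImplicit false

open Complex

namespace Pool.Agent.H77.TU.BAR

open Pool.Agent.H3.TB Pool.Agent.H3.TB.NearAux

theorem main : S_BAR := by
  intro ε kap m12 m3 a z l c w β h hk100 s E T hs hE hT hT2 u v x y hj ix iy iu iv
  have hk0 := h.k0; have hke := h.ke; have he0 := h.e0; have he1 := h.e1; have bl := h.bl
  set ua := ap s l 1 ((w : ℂ) * gg c) with hua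
  set va := ap s l (I * 1) ((I + l) * ((w : ℂ) * gg c)) with hva
  set wa := ap s l (I * (I * 1)) ((I + l) * ((I + l) * ((w : ℂ) * gg c))) with hwa
  set xa := ap s l ((1 + z - a : ℝ) : ℂ) (gg c) with hxa
  set ya := ap s l (I * ((1 + z - a : ℝ) : ℂ)) ((I + l) * gg c) with hya
  set za := ap s l (I * (I * ((1 + z - a : ℝ) : ℂ))) ((I + l) * ((I + l) * gg c)) with hza
  set F : ℝ → ℂ × ℂ × ℂ × ℂ := fun t => ((205 / 100 : ℂ) * (x t - xa t), y t - ya t,
    ((3 / 2 * kap : ℝ) : ℂ) * (u t - ua t), (kap : ℂ) * (v t - va t)) with hF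
  set F' : ℝ → ℂ × ℂ × ℂ × ℂ := fun t => ((205 / 100 : ℂ) * (y t - ya t), fx m12 m3 a (u t) (x t) - za t,
    ((3 / 2 * kap : ℝ) : ℂ) * (v t - va t), (kap : ℂ) * (fu m12 m3 a (u t) (x t) - wa t)) with hF'
  have hd : ∀ t, HasDerivAt F (F' t) t := by
    intro t
    refine HasDerivAt.prodMk ?_ (HasDerivAt.prodMk ?_ (HasDerivAt.prodMk ?_ ?_))
    · exact ((hj.dx t).sub (ap_deriv s l _ _ t)).const_mul _
    · exact (hj.dy t).sub (ap_deriv s l _ _ t)
    · exact ((hj.du t).sub (ap_deriv s l _ _ t)).const_mul _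
    · exact ((hj.dv t).sub (ap_deriv s l _ _ t)).const_mul _
  have hB : ∀ t, HasDerivAt (fun t => 150 * (s * Real.exp (l * t)) ^ 2 + E * Real.exp (21 / 10 * t))
      (300 * l * (s * Real.exp (l * t)) ^ 2 + 21 / 10 * (E * Real.exp (21 / 10 * t))) t := by
    intro t
    have h2 : HasDerivAt (fun t : ℝ => s * Real.exp (l * t)) (s * (Real.exp (l * t) * (l * 1))) t :=
      (((hasDerivAt_id t).const_mul l).exp).const_mul s
    have h3 : HasDerivAt (fun t : ℝ => E * Real.exp (21 / 10 * t)) (E * (Real.exp (21 / 10 * t) * (21 / 10 * 1))) t :=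
      (((hasDerivAt_id t).const_mul (21 / 10)).exp).const_mul E
    refine (((h2.pow 2).const_mul 150).add h3).congr_deriv ?_
    push_cast
    ring
  have n1 : ∀ X : ℂ, ‖(205 / 100 : ℂ) * X‖ = 205 / 100 * ‖X‖ := by
    intro X
    rw [norm_mul]
    congr 1
    norm_num
  have n3 : ∀ X : ℂ, ‖((3 / 2 * kap : ℝ) : ℂ) * X‖ = 3 / 2 * kap * ‖X‖ := by
    intro X
    rw [norm_mul, Complex.norm_real, Real.norm_eq_abs, abs_of_nonneg (by linarith)]
  have n4 : ∀ X : ℂ, ‖(kap : ℂ) * X‖ = kap * ‖X‖ := by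
    intro X
    rw [norm_mul, Complex.norm_real, Real.norm_eq_abs, abs_of_nonneg (by linarith)]
  have comp : ∀ t B, ‖F t‖ ≤ B → (205 / 100) * ‖x t - xa t‖ ≤ B ∧ ‖y t - ya t‖ ≤ B ∧
      3 / 2 * kap * ‖u t - ua t‖ ≤ B ∧ kap * ‖v t - va t‖ ≤ B := by
    intro t B hb
    rw [hF] at hb
    simp only [Prod.norm_mk, max_le_iff, n1, n3, n4] at hb
    exact hb
  have hF0 : ‖F 0‖ ≤ 150 * (s * Real.exp (l * 0)) ^ 2 + E * Real.exp (21 / 10 * 0) := by
    have e0 : E ≤ 150 * (s * Real.exp (l * 0)) ^ 2 + E * Real.exp (21 / 10 * 0) := by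
      rw [mul_zero (21 / 10 : ℝ), Real.exp_zero, mul_one]
      have : 0 ≤ 150 * (s * Real.exp (l * 0)) ^ 2 := by positivity
      linarith
    rw [hF]
    simp only [Prod.norm_mk, max_le_iff, n1, n3, n4]
    exact ⟨ix.trans e0, iy.trans e0, iu.trans e0, iv.trans e0⟩
  have main := image_norm_le_of_norm_deriv_right_lt_deriv_boundary' (f := F) (f' := F') (a := 0) (b := T)
    (fun t _ => (hd t).continuousAt.continuousWithinAt) (fun t _ => (hd t).hasDerivWithinAt)
    (B := fun t => 150 * (s * Real.exp (l * t)) ^ 2 + E * Real.exp (21 / 10 * t))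
    (B' := fun t => 300 * l * (s * Real.exp (l * t)) ^ 2 + 21 / 10 * (E * Real.exp (21 / 10 * t)))
    hF0
    (fun t _ => (hB t).continuousAt.continuousWithinAt) (fun t _ => (hB t).hasDerivWithinAt)
    (by
      intro t ht hFt
      have hσ0 : 0 < s * Real.exp (l * t) := by positivity
      have hσ1 := hT t ⟨ht.1, ht.2.le⟩
      have hE1 := hT2 t ⟨ht.1, ht.2.le⟩
      have hE0 : 0 ≤ E * Real.exp (21 / 10 * t) := by positivity
      obtain ⟨p1, p2, p3, p4⟩ := comp t _ hFt.le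
      have hwa' : ‖wa t - fu m12 m3 a (ua t) (xa t)‖ ≤ 400 * ε * (s * Real.exp (l * t)) ^ 2 := by
        have r := res_u h hσ0.le hσ1
        rw [norm_sub_rev]
        have e1 : ua t = cexp (I * t) * (1 + ((s * Real.exp (l * t) : ℝ) : ℂ) * ((w : ℂ) * gg c)) := rfl
        have e2 : xa t = cexp (I * t) * (((1 + z - a : ℝ) : ℂ) + ((s * Real.exp (l * t) : ℝ) : ℂ) * gg c) := rfl
        rw [e1, e2, NearAux.fu_rot (norm_expI t)]
        have e3 : wa t = cexp (I * t) * (-(1 + ((s * Real.exp (l * t) : ℝ) : ℂ) * ((w : ℂ) * gg c)) +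
            2 * I * l * ((s * Real.exp (l * t) : ℝ) : ℂ) * ((w : ℂ) * gg c) +
            (l : ℂ) ^ 2 * ((s * Real.exp (l * t) : ℝ) : ℂ) * ((w : ℂ) * gg c)) := by
          rw [hwa, ap]
          linear_combination (cexp (I * t) * (1 + ((s * Real.exp (l * t) : ℝ) : ℂ) * ((w : ℂ) * gg c))) * I_mul_I
        rw [e3, ← mul_sub, norm_mul, norm_expI, one_mul]
        exact r
      have hza' : ‖za t - fx m12 m3 a (ua t) (xa t)‖ ≤ 91 * (s * Real.exp (l * t)) ^ 2 := by
        have r := res_x h hσ0.le hσ1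
        rw [norm_sub_rev]
        have e1 : ua t = cexp (I * t) * (1 + ((s * Real.exp (l * t) : ℝ) : ℂ) * ((w : ℂ) * gg c)) := rfl
        have e2 : xa t = cexp (I * t) * (((1 + z - a : ℝ) : ℂ) + ((s * Real.exp (l * t) : ℝ) : ℂ) * gg c) := rfl
        rw [e1, e2, NearAux.fx_rot (norm_expI t)]
        have e3 : za t = cexp (I * t) * (-(((1 + z - a : ℝ) : ℂ) + ((s * Real.exp (l * t) : ℝ) : ℂ) * gg c) +
            2 * I * l * ((s * Real.exp (l * t) : ℝ) : ℂ) * gg c +
            (l : ℂ) ^ 2 * ((s * Real.exp (l * t) : ℝ) : ℂ) * gg c) := by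
          rw [hza, ap]
          linear_combination (cexp (I * t) * (((1 + z - a : ℝ) : ℂ) + ((s * Real.exp (l * t) : ℝ) : ℂ) * gg c)) * I_mul_I
        rw [e3, ← mul_sub, norm_mul, norm_expI, one_mul]
        exact r
      set σ := s * Real.exp (l * t) with hσ
      set R := E * Real.exp (21 / 10 * t) with hR
      have hs2 : σ ^ 2 ≤ 1 / 10 ^ 18 := by
        calc σ ^ 2 ≤ (1 / 10 ^ 9 : ℝ) ^ 2 := by gcongr
          _ = _ := by norm_num
      have hs2' : 0 < σ ^ 2 := by positivity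
      have q1 : ‖x t - xa t‖ ≤ 100 / 205 * (150 * σ ^ 2 + R) := by
        linarith
      have q3 : kap * ‖u t - ua t‖ ≤ 2 / 3 * (150 * σ ^ 2 + R) := by linarith
      have q3' : ‖u t - ua t‖ ≤ 2 / 300 * (150 * σ ^ 2 + R) := by
        have := norm_nonneg (u t - ua t)
        nlinarith
      have d1 := dist_bounds h hσ0.le hσ1 (u := u t) (x := x t) (by
        refine q1.trans ?_
        norm_num at hs2 hE1 ⊢
        linarith) (by
        refine q3'.trans ?_
        norm_num at hs2 hE1 ⊢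
        linarith)
      have d2 := dist_bounds h hσ0.le hσ1 (u := ua t) (x := xa t) (by
        rw [hxa, sub_self, norm_zero]; norm_num) (by rw [hua, sub_self, norm_zero]; norm_num)
      have L1 := lip_x h d1.2.1 d2.2.1 d1.2.2 d2.2.2
      have L2 := lip_u h d1.1 d2.1 d1.2.1 d2.2.1 d1.2.2 d2.2.2
      have c2 : ‖fx m12 m3 a (u t) (x t) - za t‖ ≤ 2074 / 1000 * (150 * σ ^ 2 + R) + 91 * σ ^ 2 := by
        calc ‖fx m12 m3 a (u t) (x t) - za t‖ = ‖(fx m12 m3 a (u t) (x t) - fx m12 m3 a (ua t) (xa t)) -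
              (za t - fx m12 m3 a (ua t) (xa t))‖ := by congr 1; ring
          _ ≤ _ := norm_sub_le _ _
          _ ≤ _ := by linarith
      have c4 : kap * ‖fu m12 m3 a (u t) (x t) - wa t‖ ≤ 14 / 10 * (150 * σ ^ 2 + R) +
          1 / 10 ^ 6 * (10 * (150 * σ ^ 2 + R) + 400 * σ ^ 2) := by
        have e1 : ‖fu m12 m3 a (u t) (x t) - wa t‖ ≤ (21 / 10 * ‖u t - ua t‖ + ε * (17 * ‖x t - xa t‖ +
            17 * ‖u t - ua t‖)) + 400 * ε * σ ^ 2 := by
          calc ‖fu m12 m3 a (u t) (x t) - wa t‖ = ‖(fu m12 m3 a (u t) (x t) - fu m12 m3 a (ua t) (xa t)) -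
                (wa t - fu m12 m3 a (ua t) (xa t))‖ := by congr 1; ring
            _ ≤ _ := norm_sub_le _ _
            _ ≤ _ := by gcongr
        have e2 : 17 * ‖x t - xa t‖ + 17 * ‖u t - ua t‖ ≤ 10 * (150 * σ ^ 2 + R) := by linarith
        calc kap * ‖fu m12 m3 a (u t) (x t) - wa t‖ ≤ kap * ((21 / 10 * ‖u t - ua t‖ + ε * (10 * (150 * σ ^ 2 + R))) +
              400 * ε * σ ^ 2) := by
                refine mul_le_mul_of_nonneg_left (e1.trans ?_) (by linarith)
                gcongr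
          _ = 21 / 10 * (kap * ‖u t - ua t‖) + (kap * ε) * (10 * (150 * σ ^ 2 + R) + 400 * σ ^ 2) := by ring
          _ ≤ 21 / 10 * (2 / 3 * (150 * σ ^ 2 + R)) + 1 / 10 ^ 6 * (10 * (150 * σ ^ 2 + R) + 400 * σ ^ 2) := by gcongr
          _ = _ := by ring
      have hl2 : 465 * σ ^ 2 ≤ 300 * l * σ ^ 2 := by
        have : 465 ≤ 300 * l := by linarith
        exact mul_le_mul_of_nonneg_right this hs2'.le
      show ‖F' t‖ < 300 * l * σ ^ 2 + 21 / 10 * R
      refine lt_of_lt_of_le ?_ (add_le_add_left hl2 _)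
      rw [hF']
      simp only [Prod.norm_mk, max_lt_iff, n1, n3, n4]
      refine ⟨?_, ?_, ?_, ?_⟩
      · linarith
      · linarith
      · linarith
      · norm_num at c4 ⊢
        linarith)
  intro t ht
  exact comp t _ (main ht)

end Pool.Agent.H77.TU.BAR
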