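import Pool.Agent.H77.TU.Stm
import Pool.Agent.H3.TB.Conf

/-! TU-BASE: the normalized theorem (helper file). -/

set_option autoImplicit false

open Complex

namespace Pool.Agent.H77.TU.BASE

open Pool.Agent.H3.TB

/-- Jacobi coordinates and back -/
lemma conf_jac {m12 m3 a : ℝ} (hM : m12 + m3 ≠ 0) {q : Fin 3 → ℂ}
    (hq : ∑ i, (mass m12 m3 a i : ℂ) * q i = 0) : conf m12 m3 a (jac a q).1 (jac a q).2 = q := by
  have hMc : (m12 : ℂ) + (m3 : ℂ) ≠ 0 := by exact_mod_cast hM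
  rw [Fin.sum_univ_three] at hq
  simp only [mass, Matrix.cons_val_zero, Matrix.cons_val_one, Matrix.cons_val] at hq
  push_cast at hq
  funext i
  fin_cases i
  · simp only [conf, jac, Matrix.cons_val_zero, Fin.zero_eta]
    push_cast
    field_simp
    linear_combination (-1 : ℂ) * hq
  · simp only [conf, jac, Matrix.cons_val_one, Fin.mk_one, Matrix.cons_val_zero]
    push_cast
    field_simp
    linear_combination (-1 : ℂ) * hq
  · simp only [conf, jac, Matrix.cons_val, Fin.reduceFinMk]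
    push_cast
    field_simp
    linear_combination (-1 : ℂ) * hq

/-- the map to phase space -/
noncomputable def G (m12 m3 a : ℝ) (p : ℂ × ℂ × ℂ × ℂ) : Ph :=
  (conf m12 m3 a p.1 p.2.2.1, conf m12 m3 a p.2.1 p.2.2.2)

lemma G_cont (m12 m3 a : ℝ) : Continuous (G m12 m3 a) := by
  have hcont : ∀ f g : ℂ × ℂ × ℂ × ℂ → ℂ, Continuous f → Continuous g →
      Continuous fun s => conf m12 m3 a (f s) (g s) := by
    intro f g hf hg
    refine continuous_pi fun i => ?_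
    fin_cases i
    · exact (continuous_const.mul hg).sub (continuous_const.mul hf)
    · exact (continuous_const.mul hg).add (continuous_const.mul hf)
    · exact continuous_const.mul hg
  exact (hcont _ _ (by fun_prop) (by fun_prop)).prodMk (hcont _ _ (by fun_prop) (by fun_prop))

lemma tube_mono {X r r' : ℝ} {u v x y c : ℂ} (hr : r ≤ r') (h : InTube X r u v x y c) : InTube X r' u v x y c :=
  ⟨h.1, h.2.1.trans hr, h.2.2.1.trans hr, h.2.2.2.1.trans hr, h.2.2.2.2.trans hr⟩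

/-- the positively oriented case -/
theorem pos (hu : S_UNI) {η : ℝ} {m12 m3 a z : ℝ} (h12 : |m12 - 1| ≤ 1 / 10) (h3 : 0 < m3) (h3' : m3 ≤ 1 / 10)
    (haa : |a - 19 / 82| ≤ 1 / 10) (hz : |z - 1 / 2| ≤ 1 / 20)
    (hc : ∀ u v x y : ℝ → ℂ, JSol m12 m3 a u v x y →
      (∀ t, 0 ≤ t → ∃ c, InTube (1 + z - a) η (u t) (v t) (x t) (y t) c) →
      ∀ s, 0 < s → ∃ u' v' x' y' : ℝ → ℂ, JSol m12 m3 a u' v' x' y' ∧
        ‖u' 0 - u 0‖ ≤ s ∧ ‖v' 0 - v 0‖ ≤ s ∧ ‖x' 0 - x 0‖ ≤ s ∧ ‖y' 0 - y 0‖ ≤ s ∧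
        (∀ t, 0 ≤ t → 2 / 5 ≤ ‖u' t‖ ∧ 2 / 5 ≤ ‖x' t + (a : ℂ) * u' t‖ ∧ 2 / 5 ≤ ‖x' t - (1 - (a : ℂ)) * u' t‖) ∧
        ∃ T₀ : ℝ, 0 ≤ T₀ ∧ ∀ t, T₀ ≤ t → (t - T₀) / 10 ≤ ‖x' t‖ ∧ ‖u' t‖ ≤ 2)
    {x : ℝ → Ph} (hx : FSol (mass m12 m3 a) x) {δ : ℝ} (hδη : δ ≤ η) (hδ1 : δ ≤ 1 / 100)
    (ht : ∀ t, 0 ≤ t → ∃ c, InTube (1 + z - a) δ (jac a (x t).1).1 (jac a (x t).2).1 (jac a (x t).1).2
      (jac a (x t).2).2 c) {U : Set Ph} (hU : U ∈ nhds (x 0)) : Esc (mass m12 m3 a) U 2 := by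
  have ha : 0 < a := by have := (abs_le.1 haa).1; linarith
  have ha1 : a < 1 := by have := (abs_le.1 haa).2; linarith
  have h12' : 0 < m12 := by have := (abs_le.1 h12).1; linarith
  have hM : m12 + m3 ≠ 0 := by linarith
  obtain ⟨u, v, w, y, hJ, huv⟩ := hu m12 m3 a z h12 h3 h3' haa hz x hx
    (fun t h => (ht t h).imp fun c hc => tube_mono hδ1 hc)
  have hps := hx.2.1 0 le_rfl
  obtain ⟨e1, e2, e3, e4⟩ := huv 0 le_rfl
  have hG0 : G m12 m3 a (u 0, v 0, w 0, y 0) = x 0 := by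
    unfold G
    rw [e1, e2, e3, e4]
    exact Prod.ext (conf_jac hM hps.2.1) (conf_jac hM hps.2.2)
  have hev : ∀ᶠ p in nhds (u 0, v 0, w 0, y 0), G m12 m3 a p ∈ U :=
    (G_cont m12 m3 a).continuousAt.preimage_mem_nhds (by rw [hG0]; exact hU)
  obtain ⟨r, hr, hrb⟩ := Metric.eventually_nhds_iff.1 hev
  obtain ⟨u', v', w', y', hJ', du, dv, dw, dy, hd, T₀, hT₀, hgrow⟩ := hc u v w y hJ (by
    intro t h
    obtain ⟨f1, f2, f3, f4⟩ := huv t h
    obtain ⟨c, hc⟩ := ht t h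
    exact ⟨c, by rw [f1, f2, f3, f4]; exact tube_mono hδη hc⟩) (r / 2) (by positivity)
  refine ⟨fun t => (conf m12 m3 a (u' t) (w' t), conf m12 m3 a (v' t) (y' t)), ?_,
    of_jsol h12' h3 ha ha1 hJ' hd, ?_⟩
  · refine hrb (y := (u' 0, v' 0, w' 0, y' 0)) ?_
    rw [dist_eq_norm]
    refine lt_of_le_of_lt ?_ (half_lt_self hr)
    show ‖(u' 0 - u 0, v' 0 - v 0, w' 0 - w 0, y' 0 - y 0)‖ ≤ r / 2
    simp only [Prod.norm_mk, max_le_iff]
    exact ⟨du, dv, dw, dy⟩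
  · intro R
    refine ⟨T₀ + 10 * (|R| + 2), fun t ht => ?_⟩
    have hR := abs_nonneg R
    have hR' := le_abs_self R
    obtain ⟨hx1, hu1⟩ := hgrow t (by linarith)
    have hx2 : |R| + 2 ≤ ‖w' t‖ := by linarith
    have hMc : (m12 : ℂ) + (m3 : ℂ) ≠ 0 := by exact_mod_cast hM
    have e10 : conf m12 m3 a (u' t) (w' t) 1 - conf m12 m3 a (u' t) (w' t) 0 = u' t := by
      simp only [conf, Matrix.cons_val_zero, Matrix.cons_val_one]
      ring
    have e20 : conf m12 m3 a (u' t) (w' t) 2 - conf m12 m3 a (u' t) (w' t) 0 = w' t + (a : ℂ) * u' t := by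
      simp only [conf, Matrix.cons_val_zero, Matrix.cons_val]
      push_cast
      field_simp
      ring
    have e21 : conf m12 m3 a (u' t) (w' t) 2 - conf m12 m3 a (u' t) (w' t) 1 = w' t - (1 - (a : ℂ)) * u' t := by
      simp only [conf, Matrix.cons_val_one, Matrix.cons_val]
      push_cast
      field_simp
      ring
    simp only []
    rw [e10, e20, e21]
    have n1 : ‖(a : ℂ) * u' t‖ ≤ 2 := by
      rw [norm_mul, Complex.norm_real, Real.norm_of_nonneg ha.le]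
      nlinarith [norm_nonneg (u' t)]
    have n2 : ‖(1 - (a : ℂ)) * u' t‖ ≤ 2 := by
      rw [norm_mul, show (1 - (a : ℂ)) = ((1 - a : ℝ) : ℂ) by push_cast; ring, Complex.norm_real,
        Real.norm_of_nonneg (by linarith)]
      nlinarith [norm_nonneg (u' t)]
    refine ⟨?_, ?_, hu1⟩
    · have := norm_sub_le (w' t + (a : ℂ) * u' t) ((a : ℂ) * u' t)
      rw [add_sub_cancel_right] at this
      linarith
    · have := norm_add_le (w' t - (1 - (a : ℂ)) * u' t) ((1 - (a : ℂ)) * u' t)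
      rw [sub_add_cancel] at this
      linarith

/-! ### complex conjugation -/

/-- complex conjugation as a real linear map -/
noncomputable def cL : ℂ →L[ℝ] ℂ := (Complex.conjCLE : ℂ →L[ℝ] ℂ)

lemma cL_apply (x : ℂ) : cL x = (starRingEnd ℂ) x := rfl

lemma cL_norm (x : ℂ) : ‖cL x‖ = 1 * ‖x‖ := by rw [cL_apply, RCLike.norm_conj, one_mul]

/-- conjugation on the phase space -/
noncomputable def cj (p : Ph) : Ph := (fun i => cL (p.1 i), fun i => cL (p.2 i))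

lemma cj_cont : Continuous cj := by
  unfold cj
  fun_prop

lemma cj_cj (p : Ph) : cj (cj p) = p := by
  unfold cj
  refine Prod.ext ?_ ?_ <;> funext i <;> simp [cL_apply]

lemma acc_cj (m : Fin 3 → ℝ) (q : Fin 3 → ℂ) (i : Fin 3) : acc m (fun j => cL (q j)) i = cL (acc m q i) := by
  have := Wrap.acc_map (m := m) (m' := m) (D := 1) (κ := 1) one_pos (fun i => by ring) cL cL_norm q i
  rw [this, one_pow, one_smul]

lemma phase_cj {m : Fin 3 → ℝ} {p : Ph} (h : p ∈ phaseSpace m) : cj p ∈ phaseSpace m := by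
  obtain ⟨h1, h2, h3⟩ := h
  have e2 : ∀ (x : ℝ) (y : ℂ), (x : ℂ) * cL y = cL ((x : ℂ) * y) := by
    intro x y
    simp [cL_apply]
  refine ⟨fun a b hab h5 => ?_, ?_, ?_⟩
  · refine h1 a b hab ?_
    have h6 : cL (p.1 a) = cL (p.1 b) := h5
    rw [cL_apply, cL_apply] at h6
    exact (starRingEnd ℂ).injective h6
  · show ∑ i, (m i : ℂ) * cL (p.1 i) = 0
    simp only [e2]
    rw [← map_sum, h2, map_zero]
  · show ∑ i, (m i : ℂ) * cL (p.2 i) = 0
    simp only [e2]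
    rw [← map_sum, h3, map_zero]

lemma deriv_cj {m : Fin 3 → ℝ} {x : ℝ → Ph} {t : ℝ} (h : HasDerivAt x ((x t).2, acc m (x t).1) t) :
    HasDerivAt (fun s => cj (x s)) ((cj (x t)).2, acc m (cj (x t)).1) t := by
  have h6 : HasDerivAt (fun s : ℝ => (x s).1) (x t).2 t := by
    have := (ContinuousLinearMap.fst ℝ (Fin 3 → ℂ) (Fin 3 → ℂ)).hasFDerivAt.comp_hasDerivAt t h
    exact this
  have h7 : HasDerivAt (fun s : ℝ => (x s).2) (acc m (x t).1) t := by
    have := (ContinuousLinearMap.snd ℝ (Fin 3 → ℂ) (Fin 3 → ℂ)).hasFDerivAt.comp_hasDerivAt t h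
    exact this
  rw [hasDerivAt_pi] at h6 h7
  refine HasDerivAt.prodMk ?_ ?_
  · rw [hasDerivAt_pi]
    intro i
    exact cL.hasFDerivAt.comp_hasDerivAt t (h6 i)
  · rw [hasDerivAt_pi]
    intro i
    have h8 := cL.hasFDerivAt.comp_hasDerivAt t (h7 i)
    refine h8.congr_deriv ?_
    exact (acc_cj m (x t).1 i).symm

lemma fsol_cj {m : Fin 3 → ℝ} {x : ℝ → Ph} (h : FSol m x) : FSol m (fun t => cj (x t)) :=
  ⟨cj_cont.comp_continuousOn h.1, fun t ht => phase_cj (h.2.1 t ht), fun t ht => deriv_cj (h.2.2 t ht)⟩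

lemma forward_cj {m : Fin 3 → ℝ} {x : ℝ → Ph} (h : IsForwardSol m x) : IsForwardSol m (fun t => cj (x t)) := by
  obtain ⟨η, hη, h⟩ := h
  exact ⟨η, hη, fun t ht => ⟨phase_cj (h t ht).1, deriv_cj (h t ht).2⟩⟩

lemma jac_cj (a : ℝ) (q : Fin 3 → ℂ) : jac a (fun i => cL (q i)) =
    ((starRingEnd ℂ) (jac a q).1, (starRingEnd ℂ) (jac a q).2) := by
  unfold jac
  simp only [cL_apply, map_sub, map_add, map_mul, Complex.conj_ofReal]

lemma esc_cj {m : Fin 3 → ℝ} {U : Set Ph} {L : ℝ} (h : Esc m (cj ⁻¹' U) L) : Esc m U L := by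
  obtain ⟨y, hy0, hy, hR⟩ := h
  refine ⟨fun t => cj (y t), hy0, forward_cj hy, fun R => ?_⟩
  obtain ⟨t₀, ht₀⟩ := hR R
  have e : ∀ t i j, ‖(cj (y t)).1 i - (cj (y t)).1 j‖ = ‖(y t).1 i - (y t).1 j‖ := by
    intro t i j
    show ‖cL ((y t).1 i) - cL ((y t).1 j)‖ = _
    rw [← map_sub, cL_norm, one_mul]
  refine ⟨t₀, fun t ht => ?_⟩
  rw [e, e, e]
  exact ht₀ t ht

theorem main (hc : S_CHAIN) (hcl : S_CLOSE) (hu : S_UNI) : S_BASE := by
  obtain ⟨η₁, hη₁, hc⟩ := hc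
  obtain ⟨δ, hδ⟩ : ∃ δ : ℝ, δ = min η₁ (1 / 100) := ⟨_, rfl⟩
  have hδ0 : 0 < δ := by rw [hδ]; positivity
  have hδη : δ ≤ η₁ := by rw [hδ]; exact min_le_left _ _
  have hδ1 : δ ≤ 1 / 100 := by rw [hδ]; exact min_le_right _ _
  obtain ⟨η₂, hη₂, hcl⟩ := hcl δ hδ0
  refine ⟨min (min η₁ η₂) (1 / 20), by positivity, fun m12 m3 a z hre h3 h3η hz => ?_⟩
  have h3a : m3 < η₁ := lt_of_lt_of_le h3η ((min_le_left _ _).trans (min_le_left _ _))
  have h3b : m3 < η₂ := lt_of_lt_of_le h3η ((min_le_left _ _).trans (min_le_right _ _))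
  have h3c : m3 < 1 / 20 := lt_of_lt_of_le h3η (min_le_right _ _)
  have hza : |z - 1 / 2| < η₁ := lt_of_lt_of_le hz ((min_le_left _ _).trans (min_le_left _ _))
  have hzb : |z - 1 / 2| < η₂ := lt_of_lt_of_le hz ((min_le_left _ _).trans (min_le_right _ _))
  have hzc : |z - 1 / 2| < 1 / 20 := lt_of_lt_of_le hz (min_le_right _ _)
  obtain ⟨hm12, haa, hc⟩ := hc m12 m3 a z hre h3 h3a hza
  have ha : 0 < a := by have := (abs_le.1 haa).1; linarith
  have ha1 : a < 1 := by have := (abs_le.1 haa).2; linarith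
  have h12 : 0 < m12 := by have := (abs_le.1 hm12).1; linarith
  refine ⟨ha, ha1, h12, fun x hx hd U hU => ?_⟩
  have hle : min (min η₁ η₂) (1 / 20) ≤ η₂ := (min_le_left _ _).trans (min_le_right _ _)
  rcases hcl m12 m3 a z hre h3 h3b hzb x hx (fun t ht =>
    ⟨(hd t ht).1.trans hle, (hd t ht).2.1.trans hle, (hd t ht).2.2.trans hle⟩) with h | h
  · exact pos hu hm12 h3 (by linarith) haa hzc.le hc hx hδη hδ1 h hU
  · refine esc_cj (pos hu hm12 h3 (by linarith) haa hzc.le hc (fsol_cj hx) hδη hδ1 ?_ ?_)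
    · intro t ht
      obtain ⟨c, hc⟩ := h t ht
      refine ⟨c, ?_⟩
      have e1 : jac a (cj (x t)).1 = ((starRingEnd ℂ) (jac a (x t).1).1, (starRingEnd ℂ) (jac a (x t).1).2) :=
        jac_cj a (x t).1
      have e2 : jac a (cj (x t)).2 = ((starRingEnd ℂ) (jac a (x t).2).1, (starRingEnd ℂ) (jac a (x t).2).2) :=
        jac_cj a (x t).2
      rw [e1, e2]
      exact hc
    · exact cj_cont.continuousAt.preimage_mem_nhds (by rw [cj_cj]; exact hU)

end Pool.Agent.H77.TU.BASE
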