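import Pool.Agent.H77.TU.Stm
import Pool.Agent.H3.TB.Chain

/-! TU-CHAIN: near + binary + transit + escape, for solutions near a given solution. -/

set_option autoImplicit false

open Complex

namespace Pool.Agent.H77.TU.CHAIN

open Pool.Agent.H3.TB Pool.Agent.H77.TU

theorem tube_mono {X r r' : ℝ} (h : r ≤ r') {u v x y c : ℂ} (ht : InTube X r u v x y c) :
    InTube X r' u v x y c :=
  ⟨ht.1, ht.2.1.trans h, ht.2.2.1.trans h, ht.2.2.2.1.trans h, ht.2.2.2.2.trans h⟩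

theorem main (hkn : S_ker_norm) (hkl : S_ker_lip) (hnear : S_NEAR) (hbin : S_binary) (htr : S_transit)
    (hesc : S_escape) : S_CHAIN := by
  obtain ⟨δe, hδe, hesc⟩ := hesc
  obtain ⟨δb, hδb⟩ : ∃ δb : ℝ, δb = min δe (1 / 10 ^ 24) := ⟨_, rfl⟩
  have hδb0 : 0 < δb := by rw [hδb]; exact lt_min hδe (by norm_num)
  have hδb1 : δb ≤ 1 / 10 ^ 24 := by rw [hδb]; exact min_le_right _ _
  have hδb2 : δb ≤ δe := by rw [hδb]; exact min_le_left _ _
  obtain ⟨ηb, hηb, hbin⟩ := hbin 20 δb (by norm_num) hδb0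
  obtain ⟨δ, hδ⟩ : ∃ δ : ℝ, δ = min δb ηb := ⟨_, rfl⟩
  have hδ0 : 0 < δ := by rw [hδ]; exact lt_min hδb0 hηb
  have hδ1 : δ ≤ δb := by rw [hδ]; exact min_le_left _ _
  have hδ2 : δ ≤ ηb := by rw [hδ]; exact min_le_right _ _
  obtain ⟨η₁, hη₁, hnear⟩ := hnear δ hδ0
  refine ⟨min η₁ δ, lt_min hη₁ hδ0, fun m12 m3 a z hre h3 h3η hz => ?_⟩
  have h3η1 : m3 < η₁ := lt_of_lt_of_le h3η (min_le_left _ _)
  have h3δ : m3 < δ := lt_of_lt_of_le h3η (min_le_right _ _)
  have hzη : |z - 1 / 2| < η₁ := lt_of_lt_of_le hz (min_le_left _ _)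
  obtain ⟨h12, ha, hs⟩ := hnear m12 m3 a z hre h3 h3η1 hzη
  have hsm : δ ≤ 1 / 10 := hδ1.trans (hδb1.trans (by norm_num))
  refine ⟨h12.trans hsm, ha.trans hsm, fun u₁ v₁ x₁ y₁ hJ₁ htube s hs0 => ?_⟩
  obtain ⟨u, v, x, y, hJ, hu0, hv0, hx0, hy0, T, hT, hd1, cc, hcc, hu, hv, hx, hy⟩ :=
    hs u₁ v₁ x₁ y₁ hJ₁ (fun t ht => by
      obtain ⟨c, hc⟩ := htube t ht
      exact ⟨c, tube_mono (min_le_left _ _) hc⟩) s hs0
  refine ⟨u, v, x, y, hJ, hu0, hv0, hx0, hy0, ?_⟩
  -- rotate and shift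
  obtain ⟨c, hcdef⟩ : ∃ c : ℂ, c = (starRingEnd ℂ) cc := ⟨_, rfl⟩
  have hc : ‖c‖ = 1 := by rw [hcdef, RCLike.norm_conj, hcc]
  have hce : c * cc = 1 := by
    rw [hcdef, Complex.conj_mul', hcc]
    norm_num
  have hJ' := hJ.move T hc
  have hm : ∀ p q : ℂ, ‖c * p - q‖ = ‖p - cc * q‖ := by
    intro p q
    rw [show c * p - q = c * (p - cc * q) by
      rw [mul_sub, ← mul_assoc c, hce, one_mul], norm_mul, hc, one_mul]
  have h3a : |m3| ≤ δ := by rw [abs_of_pos h3]; exact h3δ.le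
  have u0 : ‖(fun t => c * u (t + T)) 0 - 1‖ ≤ ηb := by
    simp only [zero_add]
    rw [hm, mul_one]
    exact hu.trans hδ2
  have v0 : ‖(fun t => c * v (t + T)) 0 - I‖ ≤ ηb := by
    simp only [zero_add]
    rw [hm, mul_comm cc]
    exact hv.trans hδ2
  have hb := hbin m12 m3 a (h12.trans hδ2) (h3a.trans hδ2) _ _ _ _ hJ' u0 v0
  -- transit
  obtain ⟨hd2, E, hE, hE1, hE2⟩ := htr (fun t => c * x (t + T)) (fun t => c * y (t + T))
    (fun t => fx m12 m3 a (c * u (t + T)) (c * x (t + T)) +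
      (63 / 82 * ker (1/4) (c * x (t + T) + 19 / 82 * cexp (I * t)) +
        19 / 82 * ker (1/4) (c * x (t + T) - 63 / 82 * cexp (I * t))))
    (fun t _ => hJ'.dx t) (fun t _ => by
      refine (hJ'.dy t).congr_deriv ?_
      ring)
    (fun t ht => th_bound hkn hkl hδb1 (h12.trans hδ1) (h3a.trans hδ1) (ha.trans hδ1) (norm_exp_I t) (hb t ht).1)
    (by
      simp only [zero_add]
      rw [hm]
      exact hx)
    (by
      simp only [zero_add]
      rw [hm]
      exact hy)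
  -- escape
  have hJ2 := hJ'.move 20 (c := 1) (by simp)
  have hb20 := hb 20 ⟨by norm_num, le_refl _⟩
  have hesc2 := hesc m12 m3 a (h12.trans (hδ1.trans hδb2)) h3 (h3δ.le.trans (hδ1.trans hδb2))
    (ha.trans (hδ1.trans hδb2)) _ _ _ _ hJ2 (cexp (I * (20 : ℝ))) E (norm_exp_I 20) hE
    (by
      simp only [zero_add, one_mul]
      exact hb20.1.trans hδb2)
    (by
      simp only [zero_add, one_mul]
      exact hb20.2.trans hδb2)
    (by
      simp only [zero_add, one_mul]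
      exact hE1)
    (by
      simp only [zero_add, one_mul]
      exact hE2)
  have k1 : ∀ t, ‖c * x t + (a : ℂ) * (c * u t)‖ = ‖x t + (a : ℂ) * u t‖ := by
    intro t
    rw [show c * x t + (a : ℂ) * (c * u t) = c * (x t + (a : ℂ) * u t) by ring, norm_mul, hc, one_mul]
  have k2 : ∀ t, ‖c * x t - (1 - (a : ℂ)) * (c * u t)‖ = ‖x t - (1 - (a : ℂ)) * u t‖ := by
    intro t
    rw [show c * x t - (1 - (a : ℂ)) * (c * u t) = c * (x t - (1 - (a : ℂ)) * u t) by ring, norm_mul, hc, one_mul]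
  have k3 : ∀ p, ‖c * p‖ = ‖p‖ := by
    intro p
    rw [norm_mul, hc, one_mul]
  obtain ⟨a1, a2⟩ := abs_le.1 ha
  have hδs : δ ≤ 1 / 10 ^ 24 := hδ1.trans hδb1
  have hδt : δ ≤ 1 / 1000 := hδs.trans (by norm_num)
  have hδbt : δb ≤ 1 / 1000 := hδb1.trans (by norm_num)
  constructor
  · intro t ht
    by_cases h1 : t ≤ T
    · exact hd1 t ⟨ht, h1⟩
    by_cases h2 : t ≤ T + 20
    · -- the transit part
      have htr' : t - T ∈ Set.Icc (0 : ℝ) 20 := ⟨by linarith, by linarith⟩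
      obtain ⟨w1, w2⟩ := hd2 (t - T) htr'
      have w3 := (hb (t - T) htr').1
      simp only [sub_add_cancel] at w1 w2 w3
      obtain ⟨e, hedef⟩ : ∃ e : ℂ, e = cexp (I * ((t - T : ℝ) : ℂ)) := ⟨_, rfl⟩
      have he : ‖e‖ = 1 := by rw [hedef]; exact norm_exp_I _
      rw [← hedef] at w1 w2 w3
      refine ⟨?_, ?_, ?_⟩
      · rw [← k3]
        have := norm_sub_norm_le e (c * u t)
        rw [norm_sub_rev, he] at this
        linarith
      · rw [← k1]
        have e1 : (c * x t + 19 / 82 * e) - (c * x t + (a : ℂ) * (c * u t)) =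
            -((a : ℂ) * (c * u t - e) + ((a - 19 / 82 : ℝ) : ℂ) * e) := by push_cast; ring
        have n1 : ‖(c * x t + 19 / 82 * e) - (c * x t + (a : ℂ) * (c * u t))‖ ≤ δb + δ := by
          rw [e1, norm_neg]
          refine (norm_add_le _ _).trans ?_
          rw [norm_mul, norm_mul, he, Complex.norm_real, Complex.norm_real, Real.norm_eq_abs, Real.norm_eq_abs]
          have : |a| ≤ 1 := abs_le.2 ⟨by linarith, by linarith⟩
          nlinarith [abs_nonneg a, norm_nonneg (c * u t - e)]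
        have := norm_sub_norm_le (c * x t + 19 / 82 * e) (c * x t + (a : ℂ) * (c * u t))
        linarith
      · rw [← k2]
        have e1 : (c * x t - 63 / 82 * e) - (c * x t - (1 - (a : ℂ)) * (c * u t)) =
            ((1 - a : ℝ) : ℂ) * (c * u t - e) + ((19 / 82 - a : ℝ) : ℂ) * e := by push_cast; ring
        have n1 : ‖(c * x t - 63 / 82 * e) - (c * x t - (1 - (a : ℂ)) * (c * u t))‖ ≤ δb + δ := by
          rw [e1]
          refine (norm_add_le _ _).trans ?_
          rw [norm_mul, norm_mul, he, Complex.norm_real, Complex.norm_real, Real.norm_eq_abs, Real.norm_eq_abs]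
          have h1 : |1 - a| ≤ 1 := abs_le.2 ⟨by linarith, by linarith⟩
          have h2 : |19 / 82 - a| ≤ δ := by rw [abs_sub_comm]; exact ha
          nlinarith [abs_nonneg (1 - a), norm_nonneg (c * u t - e)]
        have := norm_sub_norm_le (c * x t - 63 / 82 * e) (c * x t - (1 - (a : ℂ)) * (c * u t))
        linarith
    · -- the escape part
      have h3 := hesc2 (t - T - 20) (by linarith)
      simp only [one_mul, sub_add_cancel] at h3
      rw [k1, k2, k3] at h3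
      exact ⟨h3.1, h3.2.1, h3.2.2.1⟩
  · refine ⟨T + 20, by linarith, fun t ht => ?_⟩
    have h3 := hesc2 (t - T - 20) (by linarith)
    simp only [one_mul, sub_add_cancel] at h3
    rw [k1, k2, k3, k3] at h3
    exact ⟨by linarith [h3.2.2.2.1], h3.2.2.2.2⟩

end Pool.Agent.H77.TU.CHAIN
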