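import Pool.Agent.H77.TU.Stm

/-! # TU-CLOSE: nearly constant mutual distances for all times => state in the tube (helper92) -/

set_option autoImplicit false

open Complex Set

namespace Pool.Agent.H77.TU.CLOSE

open Pool.Agent.H3.TB Pool.Agent.H3.TB.NearAux

/-! ### Calculus -/

/-- second order Taylor estimate -/
theorem taylor {E : Type*} [NormedAddCommGroup E] [NormedSpace ℝ E] {p p' p'' : ℝ → E} {t0 B : ℝ}
    {A : E} (hp : ∀ t ∈ Icc t0 (t0 + 1), HasDerivAt p (p' t) t)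
    (hp' : ∀ t ∈ Icc t0 (t0 + 1), HasDerivAt p' (p'' t) t)
    (hB : ∀ t ∈ Icc t0 (t0 + 1), ‖p'' t - A‖ ≤ B) {h : ℝ} (h0 : 0 ≤ h) (h1 : h ≤ 1) :
    ‖p (t0 + h) - p t0 - h • p' t0 - (h ^ 2 / 2) • A‖ ≤ B * h ^ 2 := by
  have hB0 : 0 ≤ B := (norm_nonneg _).trans (hB t0 ⟨le_rfl, by linarith⟩)
  have e1 : ∀ t ∈ Icc t0 (t0 + 1), ‖p' t - p' t0 - (t - t0) • A‖ ≤ B * (t - t0) := by
    have h2 := norm_image_sub_le_of_norm_deriv_le_segment' (f := fun t => p' t - (t - t0) • A)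
      (f' := fun t => p'' t - A) (a := t0) (b := t0 + 1) (C := B) (fun t ht => by
        have h3 : HasDerivAt (fun t : ℝ => (t - t0) • A) ((1 : ℝ) • A) t :=
          ((hasDerivAt_id t).sub_const t0).smul_const A
        rw [one_smul] at h3
        exact ((hp' t ht).sub h3).hasDerivWithinAt)
      (fun t ht => hB t ⟨ht.1, ht.2.le⟩)
    intro t ht
    have h4 := h2 t ht
    simp only [sub_self, zero_smul, sub_zero] at h4
    rw [show p' t - p' t0 - (t - t0) • A = p' t - (t - t0) • A - p' t0 by abel]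
    exact h4
  have h2 := norm_image_sub_le_of_norm_deriv_le_segment'
    (f := fun t => p t - (t - t0) • p' t0 - ((t - t0) ^ 2 / 2) • A)
    (f' := fun t => p' t - p' t0 - (t - t0) • A) (a := t0) (b := t0 + h) (C := B * h)
    (fun t ht => by
      have h3 : HasDerivAt (fun t : ℝ => (t - t0) • p' t0) ((1 : ℝ) • p' t0) t :=
        ((hasDerivAt_id t).sub_const t0).smul_const (p' t0)
      have h4 : HasDerivAt (fun t : ℝ => ((t - t0) ^ 2 / 2) • A) ((t - t0) • A) t := by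
        have h5 : HasDerivAt (fun t : ℝ => (t - t0) ^ 2 / 2) (t - t0) t := by
          refine ((((hasDerivAt_id t).sub_const t0).pow 2).div_const 2).congr_deriv ?_
          simp
        exact h5.smul_const A
      rw [one_smul] at h3
      exact (((hp t ⟨ht.1, by linarith [ht.2]⟩).sub h3).sub h4).hasDerivWithinAt)
    (fun t ht => (e1 t ⟨ht.1, by linarith [ht.2]⟩).trans
      (mul_le_mul_of_nonneg_left (by linarith [ht.2]) hB0)) (t0 + h) ⟨by linarith, le_rfl⟩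
  simp only [sub_self, zero_smul, sub_zero, add_sub_cancel_left, ne_eq, OfNat.ofNat_ne_zero,
    not_false_eq_true, zero_pow, zero_div] at h2
  rw [show p (t0 + h) - p t0 - h • p' t0 - (h ^ 2 / 2) • A =
    p (t0 + h) - h • p' t0 - (h ^ 2 / 2) • A - p t0 by abel]
  refine h2.trans (le_of_eq ?_)
  ring

/-- the analytic core -/
theorem core (u v w y u2 w2 : ℝ → ℂ) (X η ε : ℝ) (hX0 : 0 ≤ X) (hX : X ≤ 2) (hη : 0 ≤ η)
    (hηε : η ≤ ε) (hε : ε ≤ 1 / 10 ^ 6)
    (du : ∀ t, 0 < t → HasDerivAt u (v t) t) (dv : ∀ t, 0 < t → HasDerivAt v (u2 t) t)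
    (dw : ∀ t, 0 < t → HasDerivAt w (y t) t) (dy : ∀ t, 0 < t → HasDerivAt y (w2 t) t)
    (cu : ContinuousOn u (Ici 0)) (cv : ContinuousOn v (Ici 0)) (cy : ContinuousOn y (Ici 0))
    (hu : ∀ t, 0 ≤ t → |‖u t‖ - 1| ≤ η) (hw : ∀ t, 0 ≤ t → ‖w t - X * u t‖ ≤ ε)
    (hu2 : ∀ t, 0 < t → ‖u2 t + u t‖ ≤ 400 * ε) (hw2 : ∀ t, 0 < t → ‖w2 t + X * u t‖ ≤ 400 * ε) :
    (∀ t, 0 ≤ t → ‖y t - X * v t‖ ≤ 1300 * ε) ∧
    ((∀ t, 0 ≤ t → ‖v t - I * u t‖ ≤ 70000 * ε) ∨ (∀ t, 0 ≤ t → ‖v t + I * u t‖ ≤ 70000 * ε)) := by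
  have hε0 : 0 ≤ ε := hη.trans hηε
  -- from `t > 0` to `t ≥ 0`
  have clos : ∀ (g : ℝ → ℂ) (K : ℝ), ContinuousOn g (Ici 0) → (∀ t, 0 < t → ‖g t‖ ≤ K) →
      ∀ t, 0 ≤ t → ‖g t‖ ≤ K := by
    intro g K hg hK t ht
    have h1 : ContinuousWithinAt (fun t => ‖g t‖) (Ioi 0) t :=
      ((hg t ht).mono Ioi_subset_Ici_self).norm
    have h2 : t ∈ closure (Ioi (0 : ℝ)) := by rw [closure_Ioi]; exact ht
    have h3 : (nhdsWithin t (Ioi 0)).NeBot := mem_closure_iff_nhdsWithin_neBot.1 h2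
    exact le_of_tendsto h1 (eventually_nhdsWithin_of_forall fun s hs => hK s hs)
  have un : ∀ t, 0 ≤ t → 1 - ε ≤ ‖u t‖ ∧ ‖u t‖ ≤ 1 + ε := by
    intro t ht
    have := abs_le.1 (hu t ht)
    constructor <;> linarith [this.1, this.2]
  obtain ⟨f, hf⟩ : ∃ f : ℝ → ℝ, f = fun t => ‖u t‖ ^ 2 := ⟨_, rfl⟩
  obtain ⟨f', hf'⟩ : ∃ f' : ℝ → ℝ, f' = fun t => 2 * inner ℝ (u t) (v t) := ⟨_, rfl⟩
  obtain ⟨f'', hf''⟩ : ∃ f'' : ℝ → ℝ, f'' = fun t => 2 * (inner ℝ (u t) (u2 t) + inner ℝ (v t) (v t)) :=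
    ⟨_, rfl⟩
  obtain ⟨g, hg⟩ : ∃ g : ℝ → ℝ, g = fun t => ‖v t‖ ^ 2 := ⟨_, rfl⟩
  have df : ∀ t, 0 < t → HasDerivAt f (f' t) t := by
    intro t ht
    rw [hf, hf']
    exact (du t ht).norm_sq
  have df' : ∀ t, 0 < t → HasDerivAt f' (f'' t) t := by
    intro t ht
    rw [hf', hf'']
    exact ((du t ht).inner ℝ (dv t ht)).const_mul 2
  have dg : ∀ t, 0 < t → HasDerivAt g (2 * inner ℝ (v t) (u2 t)) t := by
    intro t ht
    rw [hg]
    exact (dv t ht).norm_sq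
  have fb : ∀ t, 0 ≤ t → |f t - 1| ≤ 3 * ε := by
    intro t ht
    have := un t ht
    rw [hf]
    simp only
    rw [abs_le]
    constructor <;> nlinarith [this.1, this.2, norm_nonneg (u t)]
  -- bound for the velocity
  have vb : ∀ t, 0 < t → ‖v t‖ ≤ 5 := by
    intro t ht
    have h1 := taylor (p := u) (p' := v) (p'' := u2) (t0 := t) (B := 2) (A := 0)
      (fun s hs => du s (by linarith [hs.1])) (fun s hs => dv s (by linarith [hs.1]))
      (fun s hs => by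
        have hs0 : 0 < s := by linarith [hs.1]
        rw [sub_zero]
        have h2 := hu2 s hs0
        have h3 := un s hs0.le
        have h4 : ‖u2 s‖ ≤ ‖u2 s + u s‖ + ‖u s‖ := by
          have := norm_sub_le (u2 s + u s) (u s)
          rwa [add_sub_cancel_right] at this
        linarith [h3.2]) (h := 1) zero_le_one le_rfl
    rw [one_smul, smul_zero, sub_zero] at h1
    have h2 := un t ht.le
    have h3 := un (t + 1) (by linarith)
    have h4 : ‖v t‖ ≤ ‖u (t + 1) - u t - v t‖ + (‖u (t + 1)‖ + ‖u t‖) := by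
      have e : v t = (u (t + 1) - u t) - (u (t + 1) - u t - v t) := by ring
      calc ‖v t‖ = ‖(u (t + 1) - u t) - (u (t + 1) - u t - v t)‖ := by rw [← e]
        _ ≤ ‖u (t + 1) - u t‖ + ‖u (t + 1) - u t - v t‖ := norm_sub_le _ _
        _ ≤ (‖u (t + 1)‖ + ‖u t‖) + ‖u (t + 1) - u t - v t‖ := by
            gcongr
            exact norm_sub_le _ _
        _ = _ := by ring
    linarith [h2.2, h3.2]
  -- the energy
  have eg : ∀ t, 0 < t → ∀ s ∈ Icc t (t + 1), |g s - g t| ≤ 4010 * ε := by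
    intro t ht s hs
    have h1 := norm_image_sub_le_of_norm_deriv_le_segment' (f := fun s => f s + g s)
      (f' := fun s => f' s + 2 * inner ℝ (v s) (u2 s)) (a := t) (b := t + 1) (C := 4000 * ε)
      (fun r hr => ((df r (by linarith [hr.1])).add (dg r (by linarith [hr.1]))).hasDerivWithinAt)
      (fun r hr => by
        have hr0 : 0 < r := by linarith [hr.1]
        have e1 : f' r + 2 * inner ℝ (v r) (u2 r) = 2 * inner ℝ (v r) (u2 r + u r) := by
          rw [hf']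
          simp only
          rw [inner_add_right, real_inner_comm (v r) (u r)]
          ring
        rw [e1, Real.norm_eq_abs, abs_mul, abs_two]
        have h2 := abs_real_inner_le_norm (v r) (u2 r + u r)
        have h3 := vb r hr0
        have h4 := hu2 r hr0
        have h5 : ‖v r‖ * ‖u2 r + u r‖ ≤ 5 * (400 * ε) := by gcongr
        linarith) s hs
    rw [Real.norm_eq_abs] at h1
    have h2 := fb s (by linarith [hs.1])
    have h3 := fb t ht.le
    have h4 : 4000 * ε * (s - t) ≤ 4000 * ε := by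
      have : s - t ≤ 1 := by linarith [hs.2]
      nlinarith
    rw [abs_le] at h1 h2 h3 ⊢
    constructor <;> linarith [h1.1, h1.2, h2.1, h2.2, h3.1, h3.2]
  have key : ∀ t, 0 < t → |g t - 1| ≤ 27500 * ε ∧ |f' t| ≤ 36700 * ε := by
    intro t ht
    have hB : ∀ s ∈ Icc t (t + 1), ‖f'' s - 2 * (g t - 1)‖ ≤ 9100 * ε := by
      intro s hs
      have hs0 : 0 < s := by linarith [hs.1]
      have e1 : f'' s - 2 * (g t - 1) = 2 * inner ℝ (u s) (u2 s + u s) - 2 * (f s - 1) +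
          2 * (g s - g t) := by
        rw [hf'', hg, hf]
        simp only
        rw [inner_add_right, real_inner_self_eq_norm_sq, real_inner_self_eq_norm_sq]
        ring
      rw [e1, Real.norm_eq_abs]
      have h1 := abs_real_inner_le_norm (u s) (u2 s + u s)
      have h2 : ‖u s‖ * ‖u2 s + u s‖ ≤ (1 + 1 / 10 ^ 6) * (400 * ε) := by
        have := (un s hs0.le).2
        have h3 := hu2 s hs0
        gcongr
        linarith
      have h3 := fb s hs0.le
      have h4 := eg t ht s hs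
      rw [abs_le] at h1 h3 h4 ⊢
      constructor <;> linarith [h1.1, h1.2, h3.1, h3.2, h4.1, h4.2]
    have T1 := taylor (p := f) (p' := f') (p'' := f'') (t0 := t)
      (fun s hs => df s (by linarith [hs.1])) (fun s hs => df' s (by linarith [hs.1])) hB
      (h := 1) zero_le_one le_rfl
    have T2 := taylor (p := f) (p' := f') (p'' := f'') (t0 := t)
      (fun s hs => df s (by linarith [hs.1])) (fun s hs => df' s (by linarith [hs.1])) hB
      (h := 1 / 2) (by norm_num) (by norm_num)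
    rw [Real.norm_eq_abs] at T1 T2
    simp only [smul_eq_mul] at T1 T2
    have h1 := fb t ht.le
    have h2 := fb (t + 1) (by linarith)
    have h3 := fb (t + 1 / 2) (by linarith)
    rw [abs_le] at T1 T2 h1 h2 h3
    constructor
    · rw [abs_le]
      constructor <;> linarith [T1.1, T1.2, T2.1, T2.2, h1.1, h1.2, h2.1, h2.2, h3.1, h3.2]
    · rw [abs_le]
      constructor <;> linarith [T1.1, T1.2, T2.1, T2.2, h1.1, h1.2, h2.1, h2.2, h3.1, h3.2]
  -- the angular momentum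
  obtain ⟨j, hj⟩ : ∃ j : ℝ → ℝ, j = fun t => ((starRingEnd ℂ) (u t) * v t).im := ⟨_, rfl⟩
  have hre : ∀ t, ((starRingEnd ℂ) (u t) * v t).re = f' t / 2 := by
    intro t
    rw [hf']
    simp only
    rw [Complex.inner, mul_comm (v t)]
    ring
  have jb : ∀ t, 0 < t → |j t ^ 2 - 1| ≤ 46500 * ε := by
    intro t ht
    obtain ⟨k1, k2⟩ := key t ht
    have h1 := fb t ht.le
    have e1 : (f' t / 2) ^ 2 + j t ^ 2 = f t * g t := by
      rw [← hre, hj, hf, hg]
      simp only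
      rw [← mul_pow, ← norm_conj (u t), ← norm_mul, ← Complex.normSq_eq_norm_sq,
        Complex.normSq_apply]
      ring
    have h2 : (f' t / 2) ^ 2 ≤ 18400 * ε := by
      have h3 : |f' t / 2| ≤ 18350 * ε := by
        rw [abs_div, abs_two]
        linarith
      rw [← sq_abs]
      have h4 : 18350 * ε ≤ 1 := by linarith
      nlinarith [abs_nonneg (f' t / 2)]
    have h3 := vb t ht
    have hg25 : 0 ≤ g t := by rw [hg]; positivity
    have hg2 : g t ≤ 2 := by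
      rw [abs_le] at k1
      linarith [k1.2]
    have h4 : 0 ≤ (f' t / 2) ^ 2 := sq_nonneg _
    rw [abs_le] at h1 k1 ⊢
    constructor <;> nlinarith [h1.1, h1.2, k1.1, k1.2]
  have jne : ∀ t, 0 < t → j t ≠ 0 := by
    intro t ht h0
    have := jb t ht
    rw [h0] at this
    norm_num at this
    linarith
  have jc : ContinuousOn j (Ioi 0) := by
    rw [hj]
    have h1 : ContinuousOn u (Ioi 0) := cu.mono Ioi_subset_Ici_self
    have h2 : ContinuousOn v (Ioi 0) := cv.mono Ioi_subset_Ici_self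
    exact Complex.continuous_im.comp_continuousOn
      ((Complex.continuous_conj.comp_continuousOn h1).mul h2)
  have sign : (∀ t, 0 < t → 0 < j t) ∨ (∀ t, 0 < t → j t < 0) := by
    by_cases h : ∀ t, 0 < t → 0 < j t
    · exact Or.inl h
    · right
      push Not at h
      obtain ⟨t1, ht1, hj1⟩ := h
      intro t ht
      by_contra hcon
      push Not at hcon
      have hsub : uIcc t1 t ⊆ Ioi 0 := by
        intro s hs
        rw [mem_uIcc] at hs
        rw [mem_Ioi]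
        rcases hs with hs | hs <;> linarith [hs.1]
      obtain ⟨s, hs, hs0⟩ := intermediate_value_uIcc (jc.mono hsub)
        (show (0 : ℝ) ∈ uIcc (j t1) (j t) from mem_uIcc.2 (Or.inl ⟨hj1, hcon⟩))
      exact jne s (hsub hs) hs0
  refine ⟨?_, ?_⟩
  · -- the third body
    refine clos (fun t => y t - X * v t) _ (cy.sub (continuousOn_const.mul cv)) fun t ht => ?_
    have h1 := taylor (p := fun t => w t - X * u t) (p' := fun t => y t - X * v t)
      (p'' := fun t => w2 t - X * u2 t) (t0 := t) (B := 1200 * ε) (A := 0)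
      (fun s hs => (dw s (by linarith [hs.1])).sub ((du s (by linarith [hs.1])).const_mul _))
      (fun s hs => (dy s (by linarith [hs.1])).sub ((dv s (by linarith [hs.1])).const_mul _))
      (fun s hs => by
        have hs0 : 0 < s := by linarith [hs.1]
        have e1 : w2 s - X * u2 s - 0 = (w2 s + X * u s) - X * (u2 s + u s) := by ring
        rw [e1]
        refine (norm_sub_le _ _).trans ?_
        rw [norm_mul, Complex.norm_real, Real.norm_of_nonneg hX0]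
        have h2 := hu2 s hs0
        have h3 := hw2 s hs0
        have h4 : X * ‖u2 s + u s‖ ≤ 2 * (400 * ε) := by gcongr
        linarith) (h := 1) zero_le_one le_rfl
    simp only [one_smul, smul_zero, sub_zero] at h1
    have h2 := hw t ht.le
    have h3 := hw (t + 1) (by linarith)
    have e : y t - X * v t = ((w (t + 1) - X * u (t + 1)) - (w t - X * u t)) -
      (w (t + 1) - X * u (t + 1) - (w t - X * u t) - (y t - X * v t)) := by ring
    show ‖y t - X * v t‖ ≤ 1300 * ε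
    rw [e]
    refine (norm_sub_le _ _).trans ?_
    have h4 := norm_sub_le (w (t + 1) - X * u (t + 1)) (w t - X * u t)
    linarith
  · rcases sign with hs | hs
    · left
      refine clos (fun t => v t - I * u t) _ (cv.sub (continuousOn_const.mul cu)) fun t ht => ?_
      obtain ⟨k1, k2⟩ := key t ht
      have h1 := jb t ht
      have h2 := hs t ht
      have h3 : |j t - 1| ≤ 46500 * ε := by
        have e : j t ^ 2 - 1 = (j t - 1) * (j t + 1) := by ring
        rw [e, abs_mul, abs_of_pos (by linarith : 0 < j t + 1)] at h1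
        nlinarith [abs_nonneg (j t - 1)]
      have h4 : ‖(starRingEnd ℂ) (u t) * v t - I‖ ≤ 64900 * ε := by
        refine (Complex.norm_le_abs_re_add_abs_im _).trans ?_
        rw [Complex.sub_re, Complex.sub_im, I_re, I_im, sub_zero, hre]
        have : |((starRingEnd ℂ) (u t) * v t).im - 1| ≤ 46500 * ε := by
          rw [hj] at h3; exact h3
        rw [abs_div, abs_two]
        linarith
      have hff : ((f t : ℝ) : ℂ) = u t * (starRingEnd ℂ) (u t) := by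
        rw [hf, mul_conj, Complex.normSq_eq_norm_sq]
      have e : v t - I * u t = u t * ((starRingEnd ℂ) (u t) * v t - I) -
          ((f t - 1 : ℝ) : ℂ) * v t := by
        push_cast
        rw [hff]
        ring
      show ‖v t - I * u t‖ ≤ 70000 * ε
      rw [e]
      refine (norm_sub_le _ _).trans ?_
      rw [norm_mul, norm_mul, Complex.norm_real, Real.norm_eq_abs]
      have h5 := fb t ht.le
      have h6 := vb t ht
      have h7 := (un t ht.le).2
      have h8 : ‖u t‖ * ‖(starRingEnd ℂ) (u t) * v t - I‖ ≤ (1 + 1 / 10 ^ 6) * (64900 * ε) := by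
        gcongr
        linarith
      have h9 : |f t - 1| * ‖v t‖ ≤ (3 * ε) * 5 := by gcongr
      linarith
    · right
      refine clos (fun t => v t + I * u t) _ (cv.add (continuousOn_const.mul cu)) fun t ht => ?_
      obtain ⟨k1, k2⟩ := key t ht
      have h1 := jb t ht
      have h2 := hs t ht
      have h3 : |j t + 1| ≤ 46500 * ε := by
        have e : j t ^ 2 - 1 = (j t + 1) * (j t - 1) := by ring
        rw [e, abs_mul, abs_of_neg (by linarith : j t - 1 < 0)] at h1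
        nlinarith [abs_nonneg (j t + 1)]
      have h4 : ‖(starRingEnd ℂ) (u t) * v t + I‖ ≤ 64900 * ε := by
        refine (Complex.norm_le_abs_re_add_abs_im _).trans ?_
        rw [Complex.add_re, Complex.add_im, I_re, I_im, add_zero, hre]
        have : |((starRingEnd ℂ) (u t) * v t).im + 1| ≤ 46500 * ε := by
          rw [hj] at h3; exact h3
        rw [abs_div, abs_two]
        linarith
      have hff : ((f t : ℝ) : ℂ) = u t * (starRingEnd ℂ) (u t) := by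
        rw [hf, mul_conj, Complex.normSq_eq_norm_sq]
      have e : v t + I * u t = u t * ((starRingEnd ℂ) (u t) * v t + I) -
          ((f t - 1 : ℝ) : ℂ) * v t := by
        push_cast
        rw [hff]
        ring
      show ‖v t + I * u t‖ ≤ 70000 * ε
      rw [e]
      refine (norm_sub_le _ _).trans ?_
      rw [norm_mul, norm_mul, Complex.norm_real, Real.norm_eq_abs]
      have h5 := fb t ht.le
      have h6 := vb t ht
      have h7 := (un t ht.le).2
      have h8 : ‖u t‖ * ‖(starRingEnd ℂ) (u t) * v t + I‖ ≤ (1 + 1 / 10 ^ 6) * (64900 * ε) := by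
        gcongr
        linarith
      have h9 : |f t - 1| * ‖v t‖ ≤ (3 * ε) * 5 := by gcongr
      linarith

/-! ### Geometry -/

theorem params {m12 m3 a z : ℝ} (h : IsRE m12 m3 a z) (h3 : 0 < m3) (h3' : m3 ≤ 1 / 100)
    (hz : |z - 1 / 2| ≤ 1 / 100) : 1 ≤ m12 ∧ m12 ≤ 21 / 20 ∧ 0 < a ∧ a < 1 := by
  obtain ⟨hz0, hm, hb⟩ := h
  rw [abs_le] at hz
  have z1 : 49 / 100 ≤ z := by linarith [hz.1]
  have z2 : z ≤ 51 / 100 := by linarith [hz.2]
  obtain ⟨P, hP⟩ : ∃ P : ℝ, P = 1 / z ^ 2 := ⟨_, rfl⟩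
  obtain ⟨Q, hQ⟩ : ∃ Q : ℝ, Q = 1 / (1 + z) ^ 2 := ⟨_, rfl⟩
  have P1 : P ≤ 42 / 10 := by
    rw [hP, div_le_iff₀ (by positivity)]
    nlinarith
  have P2 : 38 / 10 ≤ P := by
    rw [hP, le_div_iff₀ (by positivity)]
    nlinarith
  have Q0 : 0 < Q := by rw [hQ]; positivity
  have Q1 : Q ≤ 46 / 100 := by
    rw [hQ, div_le_iff₀ (by positivity)]
    nlinarith
  rw [← hP, ← hQ] at hm
  have hb' : 1 + z - a = (m12 + m3) * ((1 - a) * Q + a * P) := by
    rw [hb, hP, hQ]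
    ring
  have h1 : 1 ≤ m12 := by
    rw [hm]
    have : 0 ≤ m3 * (P - Q) := mul_nonneg h3.le (by linarith)
    linarith
  have h2 : m12 ≤ 21 / 20 := by
    rw [hm]
    have : m3 * (P - Q) ≤ 1 / 100 * (42 / 10) := by
      have h4 : P - Q ≤ 42 / 10 := by linarith
      have h5 : 0 ≤ P - Q := by linarith
      gcongr
    linarith
  obtain ⟨M, hM⟩ : ∃ M : ℝ, M = m12 + m3 := ⟨_, rfl⟩
  rw [← hM] at hb'
  have M1 : 1 ≤ M := by rw [hM]; linarith
  have M2 : M ≤ 107 / 100 := by rw [hM]; linarith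
  obtain ⟨R, hR⟩ : ∃ R : ℝ, R = M * (P - Q) := ⟨_, rfl⟩
  have R1 : 3 ≤ R := by
    rw [hR]
    nlinarith
  have hMQ : M * Q ≤ 6 / 10 := by nlinarith
  have hMQ0 : 0 ≤ M * Q := by positivity
  have hb2 : a * (1 + R) = 1 + z - M * Q := by
    rw [hR]
    linear_combination (-1 : ℝ) * hb'
  refine ⟨h1, h2, ?_, ?_⟩
  · by_contra hcon
    push Not at hcon
    nlinarith
  · by_contra hcon
    push Not at hcon
    nlinarith

theorem nk_lip {x y : ℂ} (hx : 2 / 5 ≤ ‖x‖) (hy : 2 / 5 ≤ ‖y‖) :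
    ‖nk x - nk y‖ ≤ 32 * ‖x - y‖ := by
  have := ker_lip_loc (ε := 2 / 5) (ρ := 2 / 5) (by norm_num) le_rfl hx hy
  rw [ker_eq_nk hx, ker_eq_nk hy] at this
  refine this.trans ?_
  have h0 := norm_nonneg (x - y)
  norm_num
  linarith

theorem geo {u s : ℂ} {z η : ℝ} (hz0 : 0 ≤ z) (hz1 : z ≤ 1) (hη : 0 ≤ η) (hη1 : η ≤ 1 / 100)
    (h1 : |‖u‖ - 1| ≤ η) (h2 : |‖s‖ - z| ≤ η) (h3 : |‖u + s‖ - (1 + z)| ≤ η) :
    ‖s - z * u‖ ^ 2 ≤ 16 * η := by
  have e : ‖s - z * u‖ ^ 2 = (1 + z) * ‖s‖ ^ 2 + (z ^ 2 + z) * ‖u‖ ^ 2 - z * ‖u + s‖ ^ 2 := by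
    simp only [← Complex.normSq_eq_norm_sq, Complex.normSq_apply, Complex.sub_re, Complex.sub_im,
      Complex.add_re, Complex.add_im, Complex.mul_re, Complex.mul_im, Complex.ofReal_re,
      Complex.ofReal_im]
    ring
  rw [e]
  rw [abs_le] at h1 h2 h3
  have n1 := norm_nonneg u
  have n2 := norm_nonneg s
  have b1 : ‖u‖ ^ 2 ≤ 1 + 201 / 100 * η := by nlinarith
  have b2 : ‖s‖ ^ 2 ≤ z ^ 2 + 201 / 100 * η := by nlinarith
  have b3 : (1 + z) ^ 2 - 4 * η ≤ ‖u + s‖ ^ 2 := by nlinarith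
  have c1 : (z ^ 2 + z) * ‖u‖ ^ 2 ≤ (z ^ 2 + z) * (1 + 201 / 100 * η) := by gcongr
  have c2 : (1 + z) * ‖s‖ ^ 2 ≤ (1 + z) * (z ^ 2 + 201 / 100 * η) := by gcongr
  have c3 : z * ((1 + z) ^ 2 - 4 * η) ≤ z * ‖u + s‖ ^ 2 := by gcongr
  have c4 : (z ^ 2 + z) * η ≤ 2 * η := by
    have : z ^ 2 + z ≤ 2 := by nlinarith
    gcongr
  have c5 : (1 + z) * η ≤ 2 * η := by
    have : 1 + z ≤ 2 := by linarith
    gcongr
  have c6 : z * η ≤ 1 * η := by gcongr
  nlinarith

theorem exists_dir {u : ℂ} {η : ℝ} (hη1 : η ≤ 1 / 100) (h1 : |‖u‖ - 1| ≤ η) :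
    ∃ c : ℂ, ‖c‖ = 1 ∧ ‖u - c‖ ≤ η := by
  have h2 := abs_le.1 h1
  have hu : 0 < ‖u‖ := by linarith [h2.1]
  refine ⟨u / (‖u‖ : ℂ), ?_, ?_⟩
  · rw [norm_div, Complex.norm_real, Real.norm_of_nonneg hu.le, div_self hu.ne']
  · have e : u - u / (‖u‖ : ℂ) = ((‖u‖ - 1 : ℝ) : ℂ) * (u / (‖u‖ : ℂ)) := by
      have : (‖u‖ : ℂ) ≠ 0 := by exact_mod_cast hu.ne'
      push_cast
      field_simp
    rw [e, norm_mul, Complex.norm_real, Real.norm_eq_abs, norm_div, Complex.norm_real,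
      Real.norm_of_nonneg hu.le, div_self hu.ne', mul_one]
    exact h1

theorem accel {u s : ℂ} {m12 m3 a z η ε : ℝ} (h : IsRE m12 m3 a z) (h3 : 0 < m3)
    (h3' : m3 ≤ 1 / 100) (hz : |z - 1 / 2| ≤ 1 / 100) (hη : 0 ≤ η) (hη1 : η ≤ 1 / 100)
    (hηε : η ≤ ε) (h1 : |‖u‖ - 1| ≤ η) (h2 : |‖s‖ - z| ≤ η) (h4 : |‖u + s‖ - (1 + z)| ≤ η)
    (hs : ‖s - z * u‖ ≤ ε) :
    ‖(-(m12 : ℂ) * nk u + (m3 : ℂ) * (nk s - nk (u + s))) + u‖ ≤ 400 * ε ∧
    ‖(-((m12 : ℂ) + (m3 : ℂ)) * ((1 - (a : ℂ)) * nk (u + s) + (a : ℂ) * nk s)) +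
      ((1 + z - a : ℝ) : ℂ) * u‖ ≤ 400 * ε := by
  obtain ⟨p1, p2, p3, p4⟩ := params h h3 h3' hz
  obtain ⟨hz0, hm, hb⟩ := h
  have hz' := abs_le.1 hz
  have hu := abs_le.1 h1
  have hs' := abs_le.1 h2
  have hus := abs_le.1 h4
  obtain ⟨c, hc, huc⟩ := exists_dir hη1 h1
  have hε0 : 0 ≤ ε := hη.trans hηε
  have k1 : nk c = c := by
    have := nk_smul (r := 1) one_pos hc
    simpa using this
  have k2 : nk ((z : ℂ) * c) = ((1 / z ^ 2 : ℝ) : ℂ) * c := nk_smul hz0 hc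
  have k3 : nk (((1 + z : ℝ) : ℂ) * c) = ((1 / (1 + z) ^ 2 : ℝ) : ℂ) * c := nk_smul (by linarith) hc
  have n2 : ‖(z : ℂ) * c‖ = z := by
    rw [norm_mul, hc, mul_one, Complex.norm_real, Real.norm_of_nonneg hz0.le]
  have n3 : ‖((1 + z : ℝ) : ℂ) * c‖ = 1 + z := by
    rw [norm_mul, hc, mul_one, Complex.norm_real, Real.norm_of_nonneg (by linarith)]
  have b1 : ‖nk u - c‖ ≤ 32 * η := by
    rw [← k1]
    refine (nk_lip (by linarith [hu.1]) (by rw [hc]; norm_num)).trans ?_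
    gcongr
  have s1 : ‖s - (z : ℂ) * c‖ ≤ 2 * ε := by
    have e : s - (z : ℂ) * c = (s - z * u) + (z : ℂ) * (u - c) := by ring
    rw [e]
    refine (norm_add_le _ _).trans ?_
    rw [norm_mul, Complex.norm_real, Real.norm_of_nonneg hz0.le]
    have : z * ‖u - c‖ ≤ 1 * η := by
      gcongr
      linarith [hz'.2]
    linarith
  have s2 : ‖u + s - ((1 + z : ℝ) : ℂ) * c‖ ≤ 3 * ε := by
    have e : u + s - ((1 + z : ℝ) : ℂ) * c = (u - c) + (s - (z : ℂ) * c) := by push_cast; ring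
    rw [e]
    refine (norm_add_le _ _).trans ?_
    linarith
  have b2 : ‖nk s - ((1 / z ^ 2 : ℝ) : ℂ) * c‖ ≤ 64 * ε := by
    rw [← k2]
    refine (nk_lip (by linarith [hs'.1, hz'.1]) (by rw [n2]; linarith [hz'.1])).trans ?_
    linarith
  have b3 : ‖nk (u + s) - ((1 / (1 + z) ^ 2 : ℝ) : ℂ) * c‖ ≤ 96 * ε := by
    rw [← k3]
    refine (nk_lip (by linarith [hus.1, hz'.1]) (by rw [n3]; linarith [hz'.1])).trans ?_
    linarith
  obtain ⟨d1, hd1⟩ : ∃ d1 : ℂ, d1 = nk u - c := ⟨_, rfl⟩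
  obtain ⟨d2, hd2⟩ : ∃ d2 : ℂ, d2 = nk s - ((1 / z ^ 2 : ℝ) : ℂ) * c := ⟨_, rfl⟩
  obtain ⟨d3, hd3⟩ : ∃ d3 : ℂ, d3 = nk (u + s) - ((1 / (1 + z) ^ 2 : ℝ) : ℂ) * c := ⟨_, rfl⟩
  rw [← hd1] at b1
  rw [← hd2] at b2
  rw [← hd3] at b3
  have hmc : (m12 : ℂ) = 1 + (m3 : ℂ) * (((1 / z ^ 2 : ℝ) : ℂ) - ((1 / (1 + z) ^ 2 : ℝ) : ℂ)) := by
    rw [← Complex.ofReal_sub, ← Complex.ofReal_mul]
    exact_mod_cast hm
  have hbc : ((1 + z - a : ℝ) : ℂ) = ((m12 : ℂ) + (m3 : ℂ)) *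
      ((1 - (a : ℂ)) * ((1 / (1 + z) ^ 2 : ℝ) : ℂ) + (a : ℂ) * ((1 / z ^ 2 : ℝ) : ℂ)) := by
    rw [hb]
    push_cast
    ring
  constructor
  · have e : (-(m12 : ℂ) * nk u + (m3 : ℂ) * (nk s - nk (u + s))) + u =
        -((m12 : ℂ) * d1) + (m3 : ℂ) * (d2 - d3) + (u - c) := by
      rw [hd1, hd2, hd3]
      linear_combination (-c) * hmc
    rw [e]
    refine (norm_add_le _ _).trans ?_
    have q1 : ‖-((m12 : ℂ) * d1) + (m3 : ℂ) * (d2 - d3)‖ ≤
        21 / 20 * (32 * η) + 1 / 100 * (64 * ε + 96 * ε) := by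
      refine (norm_add_le _ _).trans ?_
      rw [norm_neg, norm_mul, norm_mul, Complex.norm_real, Complex.norm_real,
        Real.norm_of_nonneg (by linarith : (0 : ℝ) ≤ m12), Real.norm_of_nonneg h3.le]
      have q2 : ‖d2 - d3‖ ≤ 64 * ε + 96 * ε := (norm_sub_le _ _).trans (by linarith)
      gcongr
    linarith
  · have e : (-((m12 : ℂ) + (m3 : ℂ)) * ((1 - (a : ℂ)) * nk (u + s) + (a : ℂ) * nk s)) +
        ((1 + z - a : ℝ) : ℂ) * u =
        -(((m12 : ℂ) + (m3 : ℂ)) * ((1 - (a : ℂ)) * d3 + (a : ℂ) * d2)) +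
          ((1 + z - a : ℝ) : ℂ) * (u - c) := by
      rw [hd2, hd3]
      linear_combination c * hbc
    rw [e]
    refine (norm_add_le _ _).trans ?_
    rw [norm_neg, norm_mul, norm_mul, Complex.norm_real,
      Real.norm_of_nonneg (by linarith [hz'.1] : (0 : ℝ) ≤ 1 + z - a), ← Complex.ofReal_add,
      Complex.norm_real, Real.norm_of_nonneg (by linarith : (0 : ℝ) ≤ m12 + m3)]
    have q2 : ‖(1 - (a : ℂ)) * d3 + (a : ℂ) * d2‖ ≤ 96 * ε + 64 * ε := by
      refine (norm_add_le _ _).trans ?_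
      rw [norm_mul, norm_mul, show (1 - (a : ℂ)) = ((1 - a : ℝ) : ℂ) by push_cast; ring,
        Complex.norm_real, Complex.norm_real, Real.norm_of_nonneg p3.le,
        Real.norm_of_nonneg (by linarith : (0 : ℝ) ≤ 1 - a)]
      have r1 : (1 - a) * ‖d3‖ ≤ 1 * (96 * ε) := by
        gcongr
        linarith
      have r2 : a * ‖d2‖ ≤ 1 * (64 * ε) := by gcongr
      linarith
    have q3 : (m12 + m3) * ‖(1 - (a : ℂ)) * d3 + (a : ℂ) * d2‖ ≤ 2 * (96 * ε + 64 * ε) := by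
      gcongr
      linarith
    have q4 : (1 + z - a) * ‖u - c‖ ≤ 2 * η := by
      gcongr
      linarith [hz'.2]
    linarith

theorem tube {X η ε : ℝ} {u v w y : ℂ} (hX0 : 0 ≤ X) (hX : X ≤ 2) (hη1 : η ≤ 1 / 100)
    (hηε : η ≤ ε) (hε0 : 0 ≤ ε) (hu : |‖u‖ - 1| ≤ η) (hv : ‖v - I * u‖ ≤ 70000 * ε)
    (hw : ‖w - X * u‖ ≤ ε) (hy : ‖y - X * v‖ ≤ 1300 * ε) {δ : ℝ} (hδ : 150000 * ε ≤ δ) :
    ∃ c, InTube X δ u v w y c := by
  obtain ⟨c, hc, huc⟩ := exists_dir hη1 hu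
  have hv' : ‖v - I * c‖ ≤ 70001 * ε := by
    have e : v - I * c = (v - I * u) + I * (u - c) := by ring
    rw [e]
    refine (norm_add_le _ _).trans ?_
    rw [norm_mul, norm_I, one_mul]
    linarith
  refine ⟨c, hc, by linarith, by linarith, ?_, ?_⟩
  · have e : w - X * c = (w - X * u) + X * (u - c) := by ring
    rw [e]
    refine (norm_add_le _ _).trans ?_
    rw [norm_mul, Complex.norm_real, Real.norm_of_nonneg hX0]
    have : X * ‖u - c‖ ≤ 2 * η := by gcongr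
    linarith
  · have e : y - I * (X * c) = (y - X * v) + X * (v - I * c) := by ring
    rw [e]
    refine (norm_add_le _ _).trans ?_
    rw [norm_mul, Complex.norm_real, Real.norm_of_nonneg hX0]
    have : X * ‖v - I * c‖ ≤ 2 * (70001 * ε) := by gcongr
    linarith

theorem acc_jac (m12 m3 a : ℝ) (q : Fin 3 → ℂ) (u s : ℂ) (hu : q 1 - q 0 = u) (hs : q 2 - q 1 = s) :
    acc (mass m12 m3 a) q 1 - acc (mass m12 m3 a) q 0 =
      -(m12 : ℂ) * nk u + (m3 : ℂ) * (nk s - nk (u + s)) ∧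
    acc (mass m12 m3 a) q 2 - ((1 - a : ℝ) * acc (mass m12 m3 a) q 0 +
      (a : ℂ) * acc (mass m12 m3 a) q 1) =
      -((m12 : ℂ) + (m3 : ℂ)) * ((1 - (a : ℂ)) * nk (u + s) + (a : ℂ) * nk s) := by
  have h20 : q 2 - q 0 = u + s := by rw [← hu, ← hs]; ring
  have h01 : q 0 - q 1 = -u := by rw [← hu]; ring
  have h02 : q 0 - q 2 = -(u + s) := by rw [← h20]; ring
  have h12 : q 1 - q 2 = -s := by rw [← hs]; ring
  rw [acc_eq, hu, hs, h20, h01, h02, h12, nk_neg, nk_neg, nk_neg]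
  constructor
  · simp only [mass, Matrix.cons_val_zero, Matrix.cons_val_one, Matrix.cons_val]
    push_cast
    ring
  · simp only [mass, Matrix.cons_val_zero, Matrix.cons_val_one, Matrix.cons_val]
    push_cast
    ring

theorem main : S_CLOSE := by
  intro δ hδ
  obtain ⟨ε, hε0, hε1, hεδ⟩ : ∃ ε : ℝ, 0 < ε ∧ ε ≤ 1 / 10 ^ 6 ∧ 150000 * ε ≤ δ := by
    refine ⟨min (1 / 10 ^ 6) (δ / 150000), by positivity, min_le_left _ _, ?_⟩
    have := min_le_right (1 / 10 ^ 6) (δ / 150000)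
    linarith
  refine ⟨ε ^ 2 / 16, by positivity, fun m12 m3 a z hre h3 h3' hz x hx hd => ?_⟩
  obtain ⟨η, hη⟩ : ∃ η : ℝ, η = ε ^ 2 / 16 := ⟨_, rfl⟩
  rw [← hη] at h3' hz hd
  have hη0 : 0 ≤ η := by rw [hη]; positivity
  have hηε : η ≤ ε := by rw [hη]; nlinarith
  have hη1 : η ≤ 1 / 100 := by linarith
  have h3'' : m3 ≤ 1 / 100 := by linarith
  have hz' : |z - 1 / 2| ≤ 1 / 100 := by linarith
  obtain ⟨p1, p2, p3, p4⟩ := params hre h3 h3'' hz'
  have hz2 := abs_le.1 hz'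
  obtain ⟨cx, hps, hdx⟩ := hx
  obtain ⟨u, hu⟩ : ∃ u : ℝ → ℂ, u = fun t => (jac a (x t).1).1 := ⟨_, rfl⟩
  obtain ⟨v, hv⟩ : ∃ v : ℝ → ℂ, v = fun t => (jac a (x t).2).1 := ⟨_, rfl⟩
  obtain ⟨w, hw⟩ : ∃ w : ℝ → ℂ, w = fun t => (jac a (x t).1).2 := ⟨_, rfl⟩
  obtain ⟨y, hy⟩ : ∃ y : ℝ → ℂ, y = fun t => (jac a (x t).2).2 := ⟨_, rfl⟩
  obtain ⟨s, hs⟩ : ∃ s : ℝ → ℂ, s = fun t => (x t).1 2 - (x t).1 1 := ⟨_, rfl⟩
  have hu' : ∀ t, (x t).1 1 - (x t).1 0 = u t := fun t => by rw [hu]; rfl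
  have hs' : ∀ t, (x t).1 2 - (x t).1 1 = s t := fun t => by rw [hs]
  have hus : ∀ t, (x t).1 2 - (x t).1 0 = u t + s t := fun t => by rw [← hu', ← hs']; ring
  have hws : ∀ t, w t - ((1 + z - a : ℝ) : ℂ) * u t = s t - z * u t := by
    intro t
    rw [hw, ← hu', ← hs']
    simp only [jac]
    push_cast
    ring
  have hN1 : ∀ t, 0 ≤ t → |‖u t‖ - 1| ≤ η := fun t ht => by
    have := (hd t ht).1; rwa [hu'] at this
  have hN2 : ∀ t, 0 ≤ t → |‖s t‖ - z| ≤ η := fun t ht => by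
    have := (hd t ht).2.1; rwa [hs'] at this
  have hN3 : ∀ t, 0 ≤ t → |‖u t + s t‖ - (1 + z)| ≤ η := fun t ht => by
    have := (hd t ht).2.2; rwa [hus] at this
  have hS : ∀ t, 0 ≤ t → ‖s t - z * u t‖ ≤ ε := by
    intro t ht
    have h1 := geo (by linarith [hz2.1]) (by linarith [hz2.2]) hη0 hη1 (hN1 t ht) (hN2 t ht)
      (hN3 t ht)
    rw [hη] at h1
    have h2 : ‖s t - z * u t‖ ^ 2 ≤ ε ^ 2 := by linarith
    exact (pow_le_pow_iff_left₀ (norm_nonneg _) hε0.le two_ne_zero).1 h2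
  have hacc := fun t => acc_jac m12 m3 a (x t).1 (u t) (s t) (hu' t) (hs' t)
  -- derivatives
  have dp : ∀ t, 0 < t → ∀ i, HasDerivAt (fun t => (x t).1 i) ((x t).2 i) t := by
    intro t ht i
    have h1 := (ContinuousLinearMap.fst ℝ (Fin 3 → ℂ) (Fin 3 → ℂ)).hasFDerivAt.comp_hasDerivAt t
      (hdx t ht)
    exact (hasDerivAt_pi.1 h1) i
  have dq : ∀ t, 0 < t → ∀ i, HasDerivAt (fun t => (x t).2 i)
      (acc (mass m12 m3 a) (x t).1 i) t := by
    intro t ht i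
    have h1 := (ContinuousLinearMap.snd ℝ (Fin 3 → ℂ) (Fin 3 → ℂ)).hasFDerivAt.comp_hasDerivAt t
      (hdx t ht)
    exact (hasDerivAt_pi.1 h1) i
  have cp : ∀ i, ContinuousOn (fun t => (x t).1 i) (Ici 0) := fun i =>
    (continuous_apply i).comp_continuousOn (continuous_fst.comp_continuousOn cx)
  have cq : ∀ i, ContinuousOn (fun t => (x t).2 i) (Ici 0) := fun i =>
    (continuous_apply i).comp_continuousOn (continuous_snd.comp_continuousOn cx)
  have hX0 : (0 : ℝ) ≤ 1 + z - a := by linarith [hz2.1]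
  have hX2 : 1 + z - a ≤ 2 := by linarith [hz2.2]
  obtain ⟨A1, A2⟩ := core u v w y
    (fun t => acc (mass m12 m3 a) (x t).1 1 - acc (mass m12 m3 a) (x t).1 0)
    (fun t => acc (mass m12 m3 a) (x t).1 2 - ((1 - a : ℝ) * acc (mass m12 m3 a) (x t).1 0 +
      (a : ℂ) * acc (mass m12 m3 a) (x t).1 1)) (1 + z - a) η ε hX0 hX2 hη0 hηε hε1
    (fun t ht => by rw [hu, hv]; exact (dp t ht 1).sub (dp t ht 0))
    (fun t ht => by rw [hv]; exact (dq t ht 1).sub (dq t ht 0))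
    (fun t ht => by
      rw [hw, hy]
      exact (dp t ht 2).sub (((dp t ht 0).const_mul _).add ((dp t ht 1).const_mul _)))
    (fun t ht => by
      rw [hy]
      exact (dq t ht 2).sub (((dq t ht 0).const_mul _).add ((dq t ht 1).const_mul _)))
    (by rw [hu]; exact (cp 1).sub (cp 0)) (by rw [hv]; exact (cq 1).sub (cq 0))
    (by
      rw [hy]
      exact (cq 2).sub ((continuousOn_const.mul (cq 0)).add (continuousOn_const.mul (cq 1))))
    hN1 (fun t ht => by rw [hws]; exact hS t ht)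
    (fun t ht => by
      show ‖acc (mass m12 m3 a) (x t).1 1 - acc (mass m12 m3 a) (x t).1 0 + u t‖ ≤ 400 * ε
      rw [(hacc t).1]
      exact (accel hre h3 h3'' hz' hη0 hη1 hηε (hN1 t ht.le) (hN2 t ht.le) (hN3 t ht.le)
        (hS t ht.le)).1)
    (fun t ht => by
      show ‖acc (mass m12 m3 a) (x t).1 2 - ((1 - a : ℝ) * acc (mass m12 m3 a) (x t).1 0 +
        (a : ℂ) * acc (mass m12 m3 a) (x t).1 1) + ((1 + z - a : ℝ) : ℂ) * u t‖ ≤ 400 * ε
      rw [(hacc t).2]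
      exact (accel hre h3 h3'' hz' hη0 hη1 hηε (hN1 t ht.le) (hN2 t ht.le) (hN3 t ht.le)
        (hS t ht.le)).2)
  have hW : ∀ t, 0 ≤ t → ‖w t - ((1 + z - a : ℝ) : ℂ) * u t‖ ≤ ε := fun t ht => by
    rw [hws]; exact hS t ht
  rcases A2 with A2 | A2
  · left
    intro t ht
    have := tube hX0 hX2 hη1 hηε hε0.le (hN1 t ht) (A2 t ht) (hW t ht) (A1 t ht) hεδ
    rw [hu, hv, hw, hy] at this
    exact this
  · right
    intro t ht
    have c1 : |‖(starRingEnd ℂ) (u t)‖ - 1| ≤ η := by rw [norm_conj]; exact hN1 t ht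
    have c2 : ‖(starRingEnd ℂ) (v t) - I * (starRingEnd ℂ) (u t)‖ ≤ 70000 * ε := by
      have e : (starRingEnd ℂ) (v t) - I * (starRingEnd ℂ) (u t) =
          (starRingEnd ℂ) (v t + I * u t) := by
        rw [map_add, map_mul, conj_I]
        ring
      rw [e, norm_conj]
      exact A2 t ht
    have c3 : ‖(starRingEnd ℂ) (w t) - ((1 + z - a : ℝ) : ℂ) * (starRingEnd ℂ) (u t)‖ ≤ ε := by
      have e : (starRingEnd ℂ) (w t) - ((1 + z - a : ℝ) : ℂ) * (starRingEnd ℂ) (u t) =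
          (starRingEnd ℂ) (w t - ((1 + z - a : ℝ) : ℂ) * u t) := by
        rw [map_sub, map_mul, conj_ofReal]
      rw [e, norm_conj]
      exact hW t ht
    have c4 : ‖(starRingEnd ℂ) (y t) - ((1 + z - a : ℝ) : ℂ) * (starRingEnd ℂ) (v t)‖ ≤
        1300 * ε := by
      have e : (starRingEnd ℂ) (y t) - ((1 + z - a : ℝ) : ℂ) * (starRingEnd ℂ) (v t) =
          (starRingEnd ℂ) (y t - ((1 + z - a : ℝ) : ℂ) * v t) := by
        rw [map_sub, map_mul, conj_ofReal]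
      rw [e, norm_conj]
      exact A1 t ht
    have := tube hX0 hX2 hη1 hηε hε0.le c1 c2 c3 c4 hεδ
    rw [hu, hv, hw, hy] at this
    exact this

end Pool.Agent.H77.TU.CLOSE
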