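import Pool.Agent.H77.TU.LK

/-! Project TU, TU-DIFF (helper91): equations of the difference of two solutions in the frame `conj u` -/

set_option autoImplicit false

open Complex

namespace Pool.Agent.H77.TU.DIFF

open Pool.Agent.H3.TB Pool.Agent.H3.TB.NearAux

lemma mul_near {x y x0 y0 p q Y X0 : ℝ} (hx : |x - x0| ≤ p) (hy : |y - y0| ≤ q) (hY : |y| ≤ Y) (hX0 : |x0| ≤ X0) :
    |x * y - x0 * y0| ≤ p * Y + X0 * q := by
  have e : x * y - x0 * y0 = (x - x0) * y + x0 * (y - y0) := by ring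
  rw [e]
  refine (abs_add_le _ _).trans ?_
  rw [abs_mul, abs_mul]
  have h1 : 0 ≤ p := (abs_nonneg _).trans hx
  have h2 : 0 ≤ X0 := (abs_nonneg _).trans hX0
  gcongr

lemma FG {ε z : ℝ} (h0 : 0 ≤ ε) (h1 : ε ≤ 1 / 10 ^ 6) (hz : |z - 1 / 2| ≤ ε) :
    |1 / z ^ 3 - 8| ≤ 50 * ε ∧ |1 / (1 + z) ^ 3 - 8 / 27| ≤ ε := by
  obtain ⟨z1, z2⟩ := abs_le.1 hz
  have z3 : 0.499 ≤ z := by norm_num at h1 ⊢; linarith
  have z4 : z ≤ 0.501 := by norm_num at h1 ⊢; linarith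
  have hz0 : 0 < z := by linarith
  have hw : |1 - 2 * z| ≤ 2 * ε := by
    rw [abs_le]; constructor <;> linarith
  constructor
  · have e : 1 / z ^ 3 - 8 = (1 - 2 * z) * ((1 + 2 * z + 4 * z ^ 2) / z ^ 3) := by
      field_simp
      ring
    have h2 : (1 + 2 * z + 4 * z ^ 2) / z ^ 3 ≤ 25 := by
      rw [div_le_iff₀ (by positivity)]
      have : (0.499 : ℝ) ^ 3 ≤ z ^ 3 := by gcongr
      nlinarith
    rw [e, abs_mul, abs_of_nonneg (by positivity : 0 ≤ (1 + 2 * z + 4 * z ^ 2) / z ^ 3)]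
    calc |1 - 2 * z| * ((1 + 2 * z + 4 * z ^ 2) / z ^ 3) ≤ 2 * ε * 25 := by gcongr
      _ = 50 * ε := by ring
  · have e : 1 / (1 + z) ^ 3 - 8 / 27 = (1 - 2 * z) * ((9 + 6 * (1 + z) + 4 * (1 + z) ^ 2) / (27 * (1 + z) ^ 3)) := by
      field_simp
      ring
    have h2 : (9 + 6 * (1 + z) + 4 * (1 + z) ^ 2) / (27 * (1 + z) ^ 3) ≤ 1 / 2 := by
      rw [div_le_iff₀ (by positivity)]
      have : (1.499 : ℝ) ^ 3 ≤ (1 + z) ^ 3 := by gcongr; linarith
      nlinarith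
    rw [e, abs_mul, abs_of_nonneg (by positivity : 0 ≤ (9 + 6 * (1 + z) + 4 * (1 + z) ^ 2) / (27 * (1 + z) ^ 3))]
    calc |1 - 2 * z| * ((9 + 6 * (1 + z) + 4 * (1 + z) ^ 2) / (27 * (1 + z) ^ 3)) ≤ 2 * ε * (1 / 2) := by gcongr
      _ = ε := by ring

/-- the coefficients in the equation of the third body -/
lemma coeffs {ε m12 m3 a z : ℝ} (h : Par ε m12 m3 a z) :
    |(m12 + m3) * ((1 - a) * (1 / (1 + z) ^ 3) + a * (1 / z ^ 3)) - be| ≤ 40 * ε ∧
    |(m12 + m3) * (a * (1 - a) * (1 / (1 + z) ^ 3 - 1 / z ^ 3)) / 2 - ga| ≤ 40 * ε := by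
  obtain ⟨e0, e1, h12, h3, h3', ha, hz⟩ := h
  obtain ⟨hF, hG⟩ := FG e0 e1 hz
  set F : ℝ := 1 / z ^ 3 with hFd
  set G : ℝ := 1 / (1 + z) ^ 3 with hGd
  have e2 : ε ≤ 0.000001 := by norm_num at e1 ⊢; linarith
  obtain ⟨a1, a2⟩ := abs_le.1 ha
  obtain ⟨F1, F2⟩ := abs_le.1 hF
  obtain ⟨G1, G2⟩ := abs_le.1 hG
  obtain ⟨m1, m2⟩ := abs_le.1 h12
  have hM : |(m12 + m3) - 1| ≤ 2 * ε := by rw [abs_le]; constructor <;> linarith
  have hFa : |F| ≤ 8.1 := by rw [abs_le]; constructor <;> linarith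
  have hGa : |G| ≤ 0.3 := by rw [abs_le]; constructor <;> linarith
  have ha' : |(1 - a) - 63 / 82| ≤ ε := by rw [abs_le]; constructor <;> linarith
  have t1 : |(1 - a) * G - 63 / 82 * (8 / 27)| ≤ ε * 0.3 + 1 * ε :=
    mul_near ha' hG hGa (by rw [abs_of_pos] <;> norm_num)
  have t2 : |a * F - 19 / 82 * 8| ≤ ε * 8.1 + 0.24 * (50 * ε) :=
    mul_near ha hF hFa (by rw [abs_of_pos] <;> norm_num)
  obtain ⟨t3, t4⟩ := abs_le.1 t1
  obtain ⟨t5, t6⟩ := abs_le.1 t2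
  have t7 : |((1 - a) * G + a * F) - 256 / 123| ≤ 22 * ε := by
    rw [abs_le]; constructor <;> linarith
  obtain ⟨t8, t9⟩ := abs_le.1 t7
  have t10 : |(1 - a) * G + a * F| ≤ 3 := by rw [abs_le]; constructor <;> linarith
  have s1 : |a * (1 - a) - 19 / 82 * (63 / 82)| ≤ ε * 0.8 + 0.24 * ε :=
    mul_near ha ha' (by rw [abs_le]; constructor <;> linarith) (by rw [abs_of_pos] <;> norm_num)
  have s2 : |(G - F) - (8 / 27 - 8)| ≤ 51 * ε := by rw [abs_le]; constructor <;> linarith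
  have s3 : |G - F| ≤ 8 := by rw [abs_le]; constructor <;> linarith
  have s4 : |a * (1 - a) * (G - F) - 19 / 82 * (63 / 82) * (8 / 27 - 8)| ≤ (ε * 0.8 + 0.24 * ε) * 8 + 0.18 * (51 * ε) :=
    mul_near s1 s2 s3 (by rw [abs_of_pos] <;> norm_num)
  have s5 : |a * (1 - a) * (G - F)| ≤ 2 := by
    obtain ⟨u1, u2⟩ := abs_le.1 s4
    norm_num at u1 u2
    rw [abs_le]; constructor <;> linarith
  constructor
  · have := mul_near hM t7 t10 (show |(1 : ℝ)| ≤ 1 by norm_num)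
    rw [one_mul] at this
    rw [be]
    linarith
  · have h6 := mul_near hM s4 s5 (show |(1 : ℝ)| ≤ 1 by norm_num)
    rw [one_mul] at h6
    have e : (m12 + m3) * (a * (1 - a) * (G - F)) / 2 - ga =
        ((m12 + m3) * (a * (1 - a) * (G - F)) - 19 / 82 * (63 / 82) * (8 / 27 - 8)) / 2 := by
      rw [ga]; ring
    rw [e, abs_div, abs_two]
    linarith

lemma conj_norm (x : ℂ) : ‖(starRingEnd ℂ) x‖ = ‖x‖ := RCLike.norm_conj x

/-- the difference of the kernels in the frame `conj w` -/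
lemma force {X d r : ℝ} {c A A' w : ℂ} (hX : 2 / 5 ≤ X) (hX2 : X ≤ 2) (hc : ‖c‖ = 1) (hd : d ≤ 1 / 100)
    (hA : ‖A - X * c‖ ≤ d) (hA' : ‖A' - X * c‖ ≤ d) (hw : ‖w - c‖ ≤ r) (hr : r ≤ d) :
    ‖(ker (1/4) A' - ker (1/4) A) * (starRingEnd ℂ) w + ((1 / (2 * X ^ 3) : ℝ) : ℂ) *
      ((A' - A) * (starRingEnd ℂ) w + 3 * (starRingEnd ℂ) ((A' - A) * (starRingEnd ℂ) w))‖ ≤
      11000 * d * ‖A' - A‖ := by
  have h := LK.main X d c A' A hX hX2 hc hd hA' hA
  set E := ker (1/4) A' - ker (1/4) A + ((1 / (2 * X ^ 3) : ℝ) : ℂ) *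
    ((A' - A) + 3 * c ^ 2 * (starRingEnd ℂ) (A' - A)) with hE
  set D := A' - A with hD
  set g : ℝ := 1 / (2 * X ^ 3) with hg
  have hX0 : 0 < X := by linarith
  have hg0 : 0 ≤ g := by positivity
  have hg1 : g ≤ 8 := by
    rw [hg, div_le_iff₀ (by positivity)]
    have : (2 / 5 : ℝ) ^ 3 ≤ X ^ 3 := by gcongr
    nlinarith
  have hr0 : 0 ≤ r := (norm_nonneg _).trans hw
  have hd0 : 0 ≤ d := hr0.trans hr
  have hcc : c * (starRingEnd ℂ) c = 1 := by
    rw [Complex.mul_conj, Complex.normSq_eq_norm_sq, hc]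
    norm_num
  have hwn : ‖w‖ ≤ 1.01 := by
    have := norm_add_le c (w - c)
    rw [add_sub_cancel, hc] at this
    norm_num at hd ⊢
    linarith
  have hcw : ‖c ^ 2 * (starRingEnd ℂ) w - w‖ ≤ 2 * r := by
    have e : c ^ 2 * (starRingEnd ℂ) w - w = c ^ 2 * (starRingEnd ℂ) (w - c) - (w - c) := by
      rw [map_sub]
      linear_combination c * hcc
    rw [e]
    refine (norm_sub_le _ _).trans ?_
    rw [norm_mul, norm_pow, hc, conj_norm]
    linarith
  have key : (ker (1/4) A' - ker (1/4) A) * (starRingEnd ℂ) w + (g : ℂ) *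
      (D * (starRingEnd ℂ) w + 3 * (starRingEnd ℂ) (D * (starRingEnd ℂ) w)) =
      E * (starRingEnd ℂ) w - (3 * g : ℝ) * ((starRingEnd ℂ) D * (c ^ 2 * (starRingEnd ℂ) w - w)) := by
    rw [hE, map_mul, Complex.conj_conj]
    push_cast
    ring
  rw [key]
  refine (norm_sub_le _ _).trans ?_
  have n1 : ‖E * (starRingEnd ℂ) w‖ ≤ 10 ^ 4 * d * ‖D‖ * 1.01 := by
    rw [norm_mul, conj_norm]
    gcongr
  have n2 : ‖((3 * g : ℝ) : ℂ) * ((starRingEnd ℂ) D * (c ^ 2 * (starRingEnd ℂ) w - w))‖ ≤ 24 * (‖D‖ * (2 * d)) := by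
    rw [norm_mul, norm_mul, conj_norm, Complex.norm_real, Real.norm_of_nonneg (by positivity)]
    have : 3 * g ≤ 24 := by linarith
    gcongr
    exact hcw.trans (by linarith)
  have : 0 ≤ d * ‖D‖ := by positivity
  linarith

lemma norm_four (k : ℂ) : ‖k + 3 * (starRingEnd ℂ) k‖ ≤ 4 * ‖k‖ := by
  refine (norm_add_le _ _).trans ?_
  rw [norm_mul, conj_norm]
  have : ‖(3 : ℂ)‖ = 3 := by norm_num
  rw [this]
  linarith

lemma conj_deriv {u : ℝ → ℂ} {u' : ℂ} {t : ℝ} (h : HasDerivAt u u' t) :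
    HasDerivAt (fun s => (starRingEnd ℂ) (u s)) ((starRingEnd ℂ) u') t := by
  have := (Complex.conjCLE : ℂ →L[ℝ] ℂ).hasFDerivAt.comp_hasDerivAt t h
  exact this

theorem main : S_DIFF := by
  intro ε r m12 m3 a z hpar hr0 hr1 u v x y u' v' x' y' hJ hJ' t c k q h e hT hk hq hh he hN
  obtain ⟨hc1, hc2⟩ := coeffs hpar
  obtain ⟨e0, e1, h12, h3, h3', ha, hz⟩ := hpar
  obtain ⟨hc, tu, tv, tx, ty⟩ := hT
  set w := u t with hw
  set N := NN k q h e with hNd
  have hN' : N = ‖k‖ + ‖q‖ + ‖h‖ + ‖e‖ := hNd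
  have nk := norm_nonneg k
  have nq := norm_nonneg q
  have nh := norm_nonneg h
  have ne := norm_nonneg e
  have hN0 : 0 ≤ N := by rw [hN']; positivity
  have hr2 : r ≤ 0.000001 := by norm_num at hr1 ⊢; linarith
  have hN2 : N ≤ 0.000001 := by norm_num at hN ⊢; linarith
  have e2 : ε ≤ 0.000001 := by norm_num at e1 ⊢; linarith
  obtain ⟨a1, a2⟩ := abs_le.1 ha
  obtain ⟨z1, z2⟩ := abs_le.1 hz
  obtain ⟨m1, m2⟩ := abs_le.1 h12
  have wlo : 0.99 ≤ ‖w‖ := by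
    have := norm_sub_norm_le c (c - w)
    rw [sub_sub_cancel, hc, norm_sub_rev] at this
    linarith
  have whi : ‖w‖ ≤ 1.01 := by
    have := norm_add_le c (w - c)
    rw [add_sub_cancel, hc] at this
    linarith
  have wc0 : ‖(starRingEnd ℂ) w‖ = ‖w‖ := conj_norm w
  -- sizes of the differences
  have size : ∀ D κ : ℂ, κ = D * (starRingEnd ℂ) w → ‖D‖ ≤ 1.02 * ‖κ‖ := by
    intro D κ hκ
    rw [hκ, norm_mul, wc0]
    nlinarith [norm_nonneg D]
  have sU := size _ _ hk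
  have sV := size _ _ hq
  have sX := size _ _ hh
  have sY := size _ _ he
  set U := u' t - w with hU
  set V := v' t - v t with hV
  set Xd := x' t - x t with hXd
  set Yd := y' t - y t with hYd
  have hvu : ‖(starRingEnd ℂ) (v t - I * w)‖ ≤ 2 * r := by
    rw [conj_norm]
    have e : v t - I * w = (v t - I * c) - I * (w - c) := by ring
    rw [e]
    refine (norm_sub_le _ _).trans ?_
    rw [norm_mul, Complex.norm_I, one_mul]
    linarith
  have hcv : (starRingEnd ℂ) (v t) = (starRingEnd ℂ) (v t - I * w) - I * (starRingEnd ℂ) w := by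
    rw [map_sub, map_mul, Complex.conj_I]
    ring
  have dcu : HasDerivAt (fun s => (starRingEnd ℂ) (u s)) ((starRingEnd ℂ) (v t)) t := conj_deriv (hJ.du t)
  -- the points
  have acx : (a : ℂ) = ((a : ℝ) : ℂ) := rfl
  set A := x t + (a : ℂ) * w with hA
  set A' := x' t + (a : ℂ) * u' t with hA'
  set B := x t - (1 - (a : ℂ)) * w with hB
  set B' := x' t - (1 - (a : ℂ)) * u' t with hB'
  have na : ‖(a : ℂ)‖ ≤ 1 := by
    rw [Complex.norm_real, Real.norm_eq_abs, abs_le]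
    constructor <;> linarith
  have n1a : ‖(1 - (a : ℂ))‖ ≤ 1 := by
    rw [← Complex.ofReal_one, ← Complex.ofReal_sub, Complex.norm_real, Real.norm_eq_abs, abs_le]
    constructor <;> linarith
  have dA : A' - A = Xd + (a : ℂ) * U := by rw [hA', hA, hXd, hU]; ring
  have dB : B' - B = Xd - (1 - (a : ℂ)) * U := by rw [hB', hB, hXd, hU]; ring
  have nDA : ‖A' - A‖ ≤ 1.02 * N := by
    rw [dA]
    refine (norm_add_le _ _).trans ?_
    rw [norm_mul]
    have : ‖(a : ℂ)‖ * ‖U‖ ≤ 1 * ‖U‖ := by gcongr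
    rw [hN']
    linarith
  have nDB : ‖B' - B‖ ≤ 1.02 * N := by
    rw [dB]
    refine (norm_sub_le _ _).trans ?_
    rw [norm_mul]
    have : ‖(1 - (a : ℂ))‖ * ‖U‖ ≤ 1 * ‖U‖ := by gcongr
    rw [hN']
    linarith
  set d : ℝ := 2 * r + 1.02 * N with hd
  have hd1 : d ≤ 1 / 100 := by rw [hd]; norm_num; linarith
  have hd0 : 0 ≤ d := by positivity
  have hrd : r ≤ d := by rw [hd]; linarith
  have pA : ‖A - ((1 + z : ℝ) : ℂ) * c‖ ≤ 2 * r := by
    have e : A - ((1 + z : ℝ) : ℂ) * c = (x t - ((1 + z - a : ℝ) : ℂ) * c) + (a : ℂ) * (w - c) := by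
      rw [hA]; push_cast; ring
    rw [e]
    refine (norm_add_le _ _).trans ?_
    rw [norm_mul]
    have : ‖(a : ℂ)‖ * ‖w - c‖ ≤ 1 * r := by gcongr
    linarith
  have pB : ‖B - ((z : ℝ) : ℂ) * c‖ ≤ 2 * r := by
    have e : B - ((z : ℝ) : ℂ) * c = (x t - ((1 + z - a : ℝ) : ℂ) * c) - (1 - (a : ℂ)) * (w - c) := by
      rw [hB]; push_cast; ring
    rw [e]
    refine (norm_sub_le _ _).trans ?_
    rw [norm_mul]
    have : ‖(1 - (a : ℂ))‖ * ‖w - c‖ ≤ 1 * r := by gcongr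
    linarith
  have pA' : ‖A' - ((1 + z : ℝ) : ℂ) * c‖ ≤ d := by
    have e : A' - ((1 + z : ℝ) : ℂ) * c = (A - ((1 + z : ℝ) : ℂ) * c) + (A' - A) := by ring
    rw [e]
    refine (norm_add_le _ _).trans ?_
    linarith
  have pB' : ‖B' - ((z : ℝ) : ℂ) * c‖ ≤ d := by
    have e : B' - ((z : ℝ) : ℂ) * c = (B - ((z : ℝ) : ℂ) * c) + (B' - B) := by ring
    rw [e]
    refine (norm_add_le _ _).trans ?_
    linarith
  have fA := force (X := 1 + z) (by linarith) (by linarith) hc hd1 (pA.trans (by linarith)) pA' tu hrd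
  have fB := force (X := z) (by linarith) (by linarith) hc hd1 (pB.trans (by linarith)) pB' tu hrd
  have fU := force (X := 1) (A := w) (A' := u' t) (by norm_num) (by norm_num) hc hd1
    (by rw [Complex.ofReal_one, one_mul]; exact tu.trans hrd)
    (by
      rw [Complex.ofReal_one, one_mul]
      have e : u' t - c = U + (w - c) := by rw [hU]; ring
      rw [e]
      refine (norm_add_le _ _).trans ?_
      rw [hd, hN']
      linarith) tu hrd
  rw [← hU, ← hk] at fU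
  have kA : (A' - A) * (starRingEnd ℂ) w = h + a * k := by rw [dA, hh, hk]; ring
  have kB : (B' - B) * (starRingEnd ℂ) w = h - (1 - a) * k := by rw [dB, hh, hk]; ring
  rw [kA] at fA
  rw [kB] at fB
  set TA := ker (1/4) A' - ker (1/4) A with hTA
  set TB := ker (1/4) B' - ker (1/4) B with hTB
  set TU := ker (1/4) (u' t) - ker (1/4) w with hTU
  have lA : ‖TA‖ ≤ 256 * ‖A' - A‖ := by
    have := ker_lip (ε := 1/4) (by norm_num) A' A
    norm_num at this ⊢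
    exact this
  have lB : ‖TB‖ ≤ 256 * ‖B' - B‖ := by
    have := ker_lip (ε := 1/4) (by norm_num) B' B
    norm_num at this ⊢
    exact this
  -- the two forces
  have fuE : fu m12 m3 a (u' t) (x' t) - fu m12 m3 a w (x t) = -(m12 : ℂ) * TU + (m3 : ℂ) * (TB - TA) := by
    rw [fu, fu, ← hA, ← hA', ← hB, ← hB', hTA, hTB, hTU]
    ring
  have fxE : fx m12 m3 a (u' t) (x' t) - fx m12 m3 a w (x t) =
      -((m12 : ℂ) + (m3 : ℂ)) * ((1 - (a : ℂ)) * TA + (a : ℂ) * TB) := by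
    rw [fx, fx, ← hA, ← hA', ← hB, ← hB', hTA, hTB]
    ring
  have nm12 : ‖(m12 : ℂ)‖ ≤ 1.01 := by
    rw [Complex.norm_real, Real.norm_eq_abs, abs_le]
    constructor <;> linarith
  have nm3 : ‖(m3 : ℂ)‖ ≤ ε := by
    rw [Complex.norm_real, Real.norm_eq_abs, abs_of_pos h3]
    exact h3'
  have nM : ‖(m12 : ℂ) + (m3 : ℂ)‖ ≤ 1.01 := by
    rw [← Complex.ofReal_add, Complex.norm_real, Real.norm_eq_abs, abs_le]
    constructor <;> linarith
  have hkN : ‖k‖ ≤ N := by rw [hN']; linarith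
  have hhN : ‖h‖ ≤ N := by rw [hN']; linarith
  have hUN : ‖U‖ ≤ 1.02 * N := sU.trans (by linarith)
  have n4k := norm_four k
  have n4h := norm_four h
  -- final bound
  have hfin : ∀ p : ℝ, p ≤ 200 * ε * N + 600 * ε * N + 30000 * d * N → p + 3 * r * N ≤ 10 ^ 6 * (r + N + ε) * N := by
    intro p hp
    have i1 : 0 ≤ ε * N := by positivity
    have i2 : 0 ≤ r * N := by positivity
    have i3 : 0 ≤ N * N := by positivity
    rw [hd] at hp
    linarith
  have bnd : ∀ W κ : ℂ, ‖W‖ ≤ 1.02 * ‖κ‖ → ‖κ‖ ≤ N → ‖W * (starRingEnd ℂ) (v t - I * w)‖ ≤ 3 * r * N := by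
    intro W κ h1 h2
    rw [norm_mul]
    calc ‖W‖ * ‖(starRingEnd ℂ) (v t - I * w)‖ ≤ (1.02 * N) * (2 * r) := by
          gcongr
          exact h1.trans (by linarith)
      _ ≤ 3 * r * N := by linarith [mul_nonneg hr0 hN0]
  have bk := bnd U k sU hkN
  have bq := bnd V q sV (by rw [hN']; linarith)
  have bh := bnd Xd h sX hhN
  have be' := bnd Yd e sY (by rw [hN']; linarith)
  have hεN : 0 ≤ ε * N := by positivity
  have hdN : 0 ≤ d * N := by positivity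
  refine ⟨U * (starRingEnd ℂ) (v t - I * w),
    (fu m12 m3 a (u' t) (x' t) - fu m12 m3 a w (x t)) * (starRingEnd ℂ) w - 1 / 2 * (k + 3 * (starRingEnd ℂ) k) +
      V * (starRingEnd ℂ) (v t - I * w),
    Xd * (starRingEnd ℂ) (v t - I * w),
    (fx m12 m3 a (u' t) (x' t) - fx m12 m3 a w (x t)) * (starRingEnd ℂ) w -
      ((be / 2 : ℝ) * (h + 3 * (starRingEnd ℂ) h) + (ga : ℂ) * (k + 3 * (starRingEnd ℂ) k)) +
      Yd * (starRingEnd ℂ) (v t - I * w), ?_, ?_, ?_, ?_, ?_, ?_, ?_, ?_⟩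
  · have D : HasDerivAt (fun s => (u' s - u s) * (starRingEnd ℂ) (u s))
        (V * (starRingEnd ℂ) w + U * (starRingEnd ℂ) (v t)) t := ((hJ'.du t).sub (hJ.du t)).mul dcu
    refine D.congr_deriv ?_
    rw [hcv, hk, hq]
    ring
  · have D : HasDerivAt (fun s => (v' s - v s) * (starRingEnd ℂ) (u s))
        ((fu m12 m3 a (u' t) (x' t) - fu m12 m3 a w (x t)) * (starRingEnd ℂ) w + V * (starRingEnd ℂ) (v t)) t :=
      ((hJ'.dv t).sub (hJ.dv t)).mul dcu
    refine D.congr_deriv ?_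
    rw [hcv, hq]
    ring
  · have D : HasDerivAt (fun s => (x' s - x s) * (starRingEnd ℂ) (u s))
        (Yd * (starRingEnd ℂ) w + Xd * (starRingEnd ℂ) (v t)) t := ((hJ'.dx t).sub (hJ.dx t)).mul dcu
    refine D.congr_deriv ?_
    rw [hcv, hh, he]
    ring
  · have D : HasDerivAt (fun s => (y' s - y s) * (starRingEnd ℂ) (u s))
        ((fx m12 m3 a (u' t) (x' t) - fx m12 m3 a w (x t)) * (starRingEnd ℂ) w + Yd * (starRingEnd ℂ) (v t)) t :=
      ((hJ'.dy t).sub (hJ.dy t)).mul dcu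
    refine D.congr_deriv ?_
    rw [hcv, he]
    ring
  · have := hfin 0 (by positivity)
    linarith
  · refine (norm_add_le _ _).trans ?_
    refine le_trans ?_ (hfin (‖(fu m12 m3 a (u' t) (x' t) - fu m12 m3 a w (x t)) * (starRingEnd ℂ) w -
      1 / 2 * (k + 3 * (starRingEnd ℂ) k)‖) ?_)
    · gcongr
    · have e3 : (fu m12 m3 a (u' t) (x' t) - fu m12 m3 a w (x t)) * (starRingEnd ℂ) w -
          1 / 2 * (k + 3 * (starRingEnd ℂ) k) =
          -(m12 : ℂ) * (TU * (starRingEnd ℂ) w + ((1 / (2 * 1 ^ 3) : ℝ) : ℂ) * (k + 3 * (starRingEnd ℂ) k)) +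
          (((m12 - 1) / 2 : ℝ) : ℂ) * (k + 3 * (starRingEnd ℂ) k) + (m3 : ℂ) * ((TB - TA) * (starRingEnd ℂ) w) := by
        rw [fuE]
        push_cast
        ring
      rw [e3]
      refine (norm_add₃_le).trans ?_
      have i1 : ‖-(m12 : ℂ) * (TU * (starRingEnd ℂ) w + ((1 / (2 * 1 ^ 3) : ℝ) : ℂ) *
          (k + 3 * (starRingEnd ℂ) k))‖ ≤ 1.01 * (11000 * d * (1.02 * N)) := by
        rw [norm_mul, norm_neg]
        gcongr
        exact fU.trans (by gcongr)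
      have i2 : ‖(((m12 - 1) / 2 : ℝ) : ℂ) * (k + 3 * (starRingEnd ℂ) k)‖ ≤ ε / 2 * (4 * N) := by
        rw [norm_mul, Complex.norm_real, Real.norm_eq_abs, abs_div, abs_two]
        gcongr
        linarith
      have i3 : ‖(m3 : ℂ) * ((TB - TA) * (starRingEnd ℂ) w)‖ ≤ ε * ((256 * (1.02 * N) + 256 * (1.02 * N)) * 1.01) := by
        rw [norm_mul, norm_mul, wc0]
        gcongr
        refine (norm_sub_le _ _).trans ?_
        gcongr
        · exact lB.trans (by gcongr)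
        · exact lA.trans (by gcongr)
      linarith
  · have := hfin 0 (by positivity)
    linarith
  · refine (norm_add_le _ _).trans ?_
    refine le_trans ?_ (hfin (‖(fx m12 m3 a (u' t) (x' t) - fx m12 m3 a w (x t)) * (starRingEnd ℂ) w -
      ((be / 2 : ℝ) * (h + 3 * (starRingEnd ℂ) h) + (ga : ℂ) * (k + 3 * (starRingEnd ℂ) k))‖) ?_)
    · gcongr
    · set P : ℝ := (m12 + m3) * ((1 - a) * (1 / (1 + z) ^ 3) + a * (1 / z ^ 3)) with hP
      set R : ℝ := (m12 + m3) * (a * (1 - a) * (1 / (1 + z) ^ 3 - 1 / z ^ 3)) / 2 with hR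
      have hz0 : z ≠ 0 := by intro h0; rw [h0] at z1; linarith
      have hz1 : 1 + z ≠ 0 := by intro h0; linarith
      have e3 : (fx m12 m3 a (u' t) (x' t) - fx m12 m3 a w (x t)) * (starRingEnd ℂ) w -
          ((be / 2 : ℝ) * (h + 3 * (starRingEnd ℂ) h) + (ga : ℂ) * (k + 3 * (starRingEnd ℂ) k)) =
          -((m12 : ℂ) + (m3 : ℂ)) * ((1 - (a : ℂ)) * (TA * (starRingEnd ℂ) w + ((1 / (2 * (1 + z) ^ 3) : ℝ) : ℂ) *
            (h + a * k + 3 * (starRingEnd ℂ) (h + a * k))) +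
            (a : ℂ) * (TB * (starRingEnd ℂ) w + ((1 / (2 * z ^ 3) : ℝ) : ℂ) *
            (h - (1 - a) * k + 3 * (starRingEnd ℂ) (h - (1 - a) * k)))) +
          (((P - be) / 2 : ℝ) : ℂ) * (h + 3 * (starRingEnd ℂ) h) + ((R - ga : ℝ) : ℂ) * (k + 3 * (starRingEnd ℂ) k) := by
        have hz0c : (z : ℂ) ≠ 0 := by exact_mod_cast hz0
        have hz1c : 1 + (z : ℂ) ≠ 0 := by exact_mod_cast hz1
        rw [fxE, hP, hR]
        simp only [map_add, map_sub, map_mul, map_one, Complex.conj_ofReal]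
        push_cast
        field_simp
        ring
      rw [e3]
      refine (norm_add₃_le).trans ?_
      have j1 : ‖(1 - (a : ℂ)) * (TA * (starRingEnd ℂ) w + ((1 / (2 * (1 + z) ^ 3) : ℝ) : ℂ) *
            (h + a * k + 3 * (starRingEnd ℂ) (h + a * k)))‖ ≤ 1 * (11000 * d * (1.02 * N)) := by
        rw [norm_mul]
        gcongr
        exact fA.trans (by gcongr)
      have j2 : ‖(a : ℂ) * (TB * (starRingEnd ℂ) w + ((1 / (2 * z ^ 3) : ℝ) : ℂ) *
            (h - (1 - a) * k + 3 * (starRingEnd ℂ) (h - (1 - a) * k)))‖ ≤ 1 * (11000 * d * (1.02 * N)) := by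
        rw [norm_mul]
        gcongr
        exact fB.trans (by gcongr)
      have i1 : ‖-((m12 : ℂ) + (m3 : ℂ)) * ((1 - (a : ℂ)) * (TA * (starRingEnd ℂ) w +
            ((1 / (2 * (1 + z) ^ 3) : ℝ) : ℂ) * (h + a * k + 3 * (starRingEnd ℂ) (h + a * k))) +
            (a : ℂ) * (TB * (starRingEnd ℂ) w + ((1 / (2 * z ^ 3) : ℝ) : ℂ) *
            (h - (1 - a) * k + 3 * (starRingEnd ℂ) (h - (1 - a) * k))))‖ ≤
            1.01 * (1 * (11000 * d * (1.02 * N)) + 1 * (11000 * d * (1.02 * N))) := by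
        rw [norm_mul, norm_neg]
        gcongr
        exact (norm_add_le _ _).trans (add_le_add j1 j2)
      have i2 : ‖(((P - be) / 2 : ℝ) : ℂ) * (h + 3 * (starRingEnd ℂ) h)‖ ≤ 40 * ε / 2 * (4 * N) := by
        rw [norm_mul, Complex.norm_real, Real.norm_eq_abs, abs_div, abs_two]
        gcongr
        linarith
      have i3 : ‖((R - ga : ℝ) : ℂ) * (k + 3 * (starRingEnd ℂ) k)‖ ≤ 40 * ε * (4 * N) := by
        rw [norm_mul, Complex.norm_real, Real.norm_eq_abs]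
        gcongr
        linarith
      linarith

end Pool.Agent.H77.TU.DIFF
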