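import Pool.Agent.H77.TU.Stm

/-! TU-FUN0: the coordinates; numerical facts on the limit mode. -/

set_option autoImplicit false

open Complex

namespace Pool.Agent.H77.TU.FUN0

open Pool.Agent.H3.TB Pool.Agent.H3.TB.NearAux

theorem l0_lo : (1.5503853021 : ℝ) < l0 := Mode.LL_lo
theorem l0_hi : l0 < (1.5503853023 : ℝ) := Mode.LL_hi
theorem l0_pos : 0 < l0 := lt_trans (by norm_num) l0_lo

theorem quart : (l0 ^ 2) ^ 2 + (2 - be) * l0 ^ 2 + (1 + 2 * be) * (1 - be) = 0 := by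
  have h := Mode.LL_sq (b := 256/123) (by norm_num)
  have h0 : (0:ℝ) ≤ 9 * (256/123) ^ 2 - 8 * (256/123) := by norm_num
  have h1 := Real.sq_sqrt h0
  have e : l0 ^ 2 = ((256/123 - 2) + Real.sqrt (9 * (256/123) ^ 2 - 8 * (256/123))) / 2 := h
  rw [e]
  unfold be
  nlinarith [h1]

theorem M_lo : (2.40369 : ℝ) < l0 ^ 2 := by nlinarith [l0_lo]
theorem M_hi : l0 ^ 2 < (2.4037 : ℝ) := by nlinarith [l0_hi, l0_pos]

theorem spec : l0 ^ 2 - 1 - 2 * be = 2 * l0 * c0 ∧ (l0 ^ 2 - 1 + be) * c0 = -2 * l0 :=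
  Mode.lc_spec (b := be) (by unfold be; norm_num) l0_pos

theorem gg_re (s : ℝ) : ((s:ℂ) * gg c0).re = s := by simp [gg]
theorem gg_im (s : ℝ) : ((s:ℂ) * gg c0).im = s * c0 := by simp [gg]
theorem ge_re (s : ℝ) : ((s:ℂ) * (((l0:ℂ) + I) * gg c0)).re = s * (l0 - c0) := by simp [gg]
theorem ge_im (s : ℝ) : ((s:ℂ) * (((l0:ℂ) + I) * gg c0)).im = s * (1 + l0 * c0) := by
  simp only [gg, Complex.mul_im, Complex.mul_re, Complex.add_re, Complex.add_im, ofReal_re, ofReal_im, I_re, I_im,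
    Complex.one_re, Complex.one_im]
  ring

theorem sG_eq : sG = 2 * l0 * (2 * l0 ^ 2 + 2 - be) := by
  have h1 := ge_re 1
  have h2 := ge_im 1
  have h3 := gg_re 1
  have h4 := gg_im 1
  simp only [ofReal_one, one_mul] at h1 h2 h3 h4
  unfold sG sg ff fh
  rw [h1, h2, h3, h4]
  obtain ⟨q1, q2⟩ := spec
  linear_combination (-2 * l0) * q1 - 2 * q2

theorem lin (s : ℝ) : sg (s * gg c0) (s * ((l0 + I) * gg c0)) = s * sG ∧ ta (s * gg c0) (s * ((l0 + I) * gg c0)) = 0 ∧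
    pp (s * gg c0) (s * ((l0 + I) * gg c0)) = 0 ∧ ph (s * gg c0) (s * ((l0 + I) * gg c0)) = 0 := by
  obtain ⟨q1, q2⟩ := spec
  rw [sG_eq]
  unfold sg ta ff fh pp ph nu2
  rw [ge_re, ge_im, gg_re, gg_im]
  refine ⟨?_, ?_, ?_, ?_⟩
  · linear_combination (-2 * l0 * s) * q1 - 2 * s * q2
  · linear_combination (0 * l0 * s) * q1 + 2 * s * q2
  · linear_combination (-s) * q1
  · linear_combination (-s * l0) * q1 - 2 * s * q2

theorem abs_of_lin {s x a y b z s0 a0 b0 Y Z : ℝ} (h : s * x = a * y + b * z) (hs : s0 ≤ s) (h0 : 0 < s0)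
    (ha : |a| ≤ a0) (hb : |b| ≤ b0) (hy : |y| ≤ Y) (hz : |z| ≤ Z) : |x| ≤ (a0 * Y + b0 * Z) / s0 := by
  rw [le_div_iff₀ h0]
  have h1 : |s * x| ≤ a0 * Y + b0 * Z := by
    rw [h]
    refine (abs_add_le _ _).trans ?_
    rw [abs_mul, abs_mul]
    exact add_le_add (mul_le_mul ha hy (abs_nonneg _) ((abs_nonneg _).trans ha))
      (mul_le_mul hb hz (abs_nonneg _) ((abs_nonneg _).trans hb))
  rw [abs_mul, abs_of_pos (lt_of_lt_of_le h0 hs)] at h1
  have := mul_le_mul_of_nonneg_right hs (abs_nonneg x)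
  linarith

/-- bounds of the coordinates by `√QQ` -/
theorem coord (k q h e : ℂ) : |ta h e| ≤ Real.sqrt (QQ k q h e) ∧ |pp h e| ≤ 657 / 1000 * Real.sqrt (QQ k q h e) ∧
    |ph h e| ≤ Real.sqrt (QQ k q h e) ∧ ‖k‖ ≤ Real.sqrt (QQ k q h e) / 1414 ∧
    ‖q‖ ≤ Real.sqrt (QQ k q h e) / 1000 := by
  have hnu : 2.3223 < nu2 := by have := M_lo; unfold nu2 be; norm_num at this ⊢; linarith
  have hQ0 : 0 ≤ QQ k q h e := by unfold QQ; positivity
  have hs := Real.sq_sqrt hQ0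
  set R := Real.sqrt (QQ k q h e) with hR
  have hR0 : 0 ≤ R := Real.sqrt_nonneg _
  have e1 : R ^ 2 = ta h e ^ 2 + nu2 * pp h e ^ 2 + ph h e ^ 2 + 10 ^ 6 * (2 * ‖k‖ ^ 2 + ‖q‖ ^ 2) := by
    rw [hs]; rfl
  have p1 : 0 ≤ nu2 * pp h e ^ 2 := by positivity
  have p2 := sq_nonneg (ta h e)
  have p3 := sq_nonneg (ph h e)
  have p4 := sq_nonneg ‖k‖
  have p5 := sq_nonneg ‖q‖
  refine ⟨?_, ?_, ?_, ?_, ?_⟩
  · refine abs_le_of_sq_le_sq ?_ hR0
    linarith
  · have : |pp h e| ≤ 657 / 1000 * R := by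
      refine abs_le_of_sq_le_sq ?_ (by positivity)
      have : 2.3223 * pp h e ^ 2 ≤ nu2 * pp h e ^ 2 := mul_le_mul_of_nonneg_right hnu.le (sq_nonneg _)
      nlinarith
    exact this
  · refine abs_le_of_sq_le_sq ?_ hR0
    linarith
  · rw [le_div_iff₀ (by norm_num)]
    refine (le_abs_self _).trans (abs_le_of_sq_le_sq (a := ‖k‖ * 1414) ?_ hR0)
    nlinarith
  · rw [le_div_iff₀ (by norm_num)]
    refine (le_abs_self _).trans (abs_le_of_sq_le_sq (a := ‖q‖ * 1000) ?_ hR0)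
    nlinarith

theorem size (k q h e : ℂ) : NN k q h e ≤ |sg h e| + 4 * Real.sqrt (QQ k q h e) := by
  obtain ⟨c1, c2, c3, c4, c5⟩ := coord k q h e
  set R := Real.sqrt (QQ k q h e) with hR
  set S := |sg h e| with hS
  have hR0 : 0 ≤ R := Real.sqrt_nonneg _
  have hS0 : 0 ≤ S := abs_nonneg _
  have m1 := M_lo
  have m2 := M_hi
  have l1 := l0_lo
  have hsg : |sg h e| ≤ S := le_rfl
  have f1 : |ff h e| ≤ (1 * S + 1 * R) / 3.1 := by
    apply abs_of_lin (s := 2 * l0) (y := sg h e) (z := ta h e) (a := 1) (b := 1) _ _ (by norm_num) (by norm_num)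
      (by norm_num) hsg c1
    · unfold sg ta; ring
    · norm_num at l1 ⊢; linarith
  have f2 : |fh h e| ≤ (1 * S + 1 * R) / 2 := by
    apply abs_of_lin (s := 2) (y := sg h e) (z := ta h e) (a := 1) (b := -1) _ le_rfl (by norm_num) (by norm_num)
      (by norm_num) hsg c1
    unfold sg ta; ring
  have g1 : |h.re| ≤ (1 * ((1 * S + 1 * R) / 3.1) + 1 * (657 / 1000 * R)) / 4.72 := by
    apply abs_of_lin (s := 2 * l0 ^ 2 + 2 - be) (y := ff h e) (z := pp h e) (a := 1) (b := -1) _ _ (by norm_num)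
      (by norm_num) (by norm_num) f1 c2
    · unfold ff pp nu2; ring
    · unfold be; norm_num at m1 ⊢; linarith
  have g2 : |e.im| ≤ (5.49 * (657 / 1000 * R) + 0.76 * ((1 * S + 1 * R) / 3.1)) / 9.44 := by
    apply abs_of_lin (s := 2 * (2 * l0 ^ 2 + 2 - be)) (y := pp h e) (z := ff h e) (a := l0 ^ 2 + be + 1)
      (b := -(be + 1 - nu2)) _ _ (by norm_num) _ _ c2 f1
    · unfold ff pp nu2; ring
    · unfold be; norm_num at m1 ⊢; linarith
    · unfold be; norm_num at m1 m2 ⊢; rw [abs_le]; constructor <;> linarith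
    · unfold nu2 be; norm_num at m1 m2 ⊢; rw [abs_le]; constructor <;> linarith
  have g3 : |h.im| ≤ (1.25 * ((1 * S + 1 * R) / 2) + 3.49 * R) / 10 := by
    apply abs_of_lin (s := 2 * (be - 1) * (2 * l0 ^ 2 + 2 - be)) (y := fh h e) (z := ph h e) (a := be - 1 - nu2)
      (b := -(l0 ^ 2 + be - 1)) _ _ (by norm_num) _ _ f2 c3
    · unfold fh ph nu2; ring
    · unfold be; norm_num at m1 ⊢; linarith
    · unfold nu2 be; norm_num at m1 m2 ⊢; rw [abs_le]; constructor <;> linarith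
    · unfold be; norm_num at m1 m2 ⊢; rw [abs_le]; constructor <;> linarith
  have g4 : |e.re| ≤ (1.33 * R + 3.41 * ((1 * S + 1 * R) / 2)) / 10 := by
    apply abs_of_lin (s := 2 * (be - 1) * (2 * l0 ^ 2 + 2 - be)) (y := ph h e) (z := fh h e) (a := l0 ^ 2 + 1 - be)
      (b := -(1 - be - nu2)) _ _ (by norm_num) _ _ c3 f2
    · unfold fh ph nu2; ring
    · unfold be; norm_num at m1 ⊢; linarith
    · unfold be; norm_num at m1 m2 ⊢; rw [abs_le]; constructor <;> linarith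
    · unfold nu2 be; norm_num at m1 m2 ⊢; rw [abs_le]; constructor <;> linarith
  have n1 := Complex.norm_le_abs_re_add_abs_im h
  have n2 := Complex.norm_le_abs_re_add_abs_im e
  unfold NN
  norm_num at g1 g2 g3 g4
  linarith

theorem main : S_FUN0 := by
  refine ⟨size, lin, ?_, ?_⟩
  · rw [sG_eq]
    have m1 := M_lo
    have l1 := l0_lo
    have : (4.72 : ℝ) ≤ 2 * l0 ^ 2 + 2 - be := by unfold be; norm_num at m1 ⊢; linarith
    nlinarith
  · rw [sG_eq]
    have m1 := M_hi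
    have l1 := l0_hi
    have l2 := l0_pos
    have : 2 * l0 ^ 2 + 2 - be ≤ (4.73 : ℝ) := by unfold be; norm_num at m1 ⊢; linarith
    nlinarith

end Pool.Agent.H77.TU.FUN0
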