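import Pool.Agent.H77.TU.FUN0

/-! TU-FUN1: differential inequalities for the coordinates. -/

set_option autoImplicit false
set_option linter.unusedSimpArgs false

open Complex

namespace Pool.Agent.H77.TU.FUN1

open Pool.Agent.H3.TB Pool.Agent.H3.TB.NearAux FUN0

/-- bound of a two term linear expression -/
theorem two {a b a0 b0 x y X Y : ℝ} (ha : |a| ≤ a0) (hb : |b| ≤ b0) (hx : |x| ≤ X) (hy : |y| ≤ Y) :
    |a * x + b * y| ≤ a0 * X + b0 * Y := by
  refine (abs_add_le _ _).trans ?_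
  rw [abs_mul, abs_mul]
  exact add_le_add (mul_le_mul ha hx (abs_nonneg _) ((abs_nonneg _).trans ha))
    (mul_le_mul hb hy (abs_nonneg _) ((abs_nonneg _).trans hb))

theorem bff (x y : ℂ) : |ff x y| ≤ 5.49 * ‖x‖ + 2 * ‖y‖ := by
  have m1 := M_lo
  have m2 := M_hi
  unfold ff
  apply two _ (by norm_num) (Complex.abs_re_le_norm x) (Complex.abs_im_le_norm y)
  unfold be; norm_num at m1 m2 ⊢; rw [abs_le]; constructor <;> linarith

theorem bfh (x y : ℂ) : |fh x y| ≤ 1.33 * ‖x‖ + 3.49 * ‖y‖ := by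
  have m1 := M_lo
  have m2 := M_hi
  unfold fh
  apply two _ _ (Complex.abs_im_le_norm x) (Complex.abs_re_le_norm y)
  · unfold be; norm_num at m1 m2 ⊢; rw [abs_le]; constructor <;> linarith
  · unfold be; norm_num at m1 m2 ⊢; rw [abs_le]; constructor <;> linarith

theorem bpp (x y : ℂ) : |pp x y| ≤ 0.76 * ‖x‖ + 2 * ‖y‖ := by
  have m1 := M_lo
  have m2 := M_hi
  unfold pp
  apply two _ (by norm_num) (Complex.abs_re_le_norm x) (Complex.abs_im_le_norm y)
  unfold nu2 be; norm_num at m1 m2 ⊢; rw [abs_le]; constructor <;> linarith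

theorem bph (x y : ℂ) : |ph x y| ≤ 3.41 * ‖x‖ + 1.25 * ‖y‖ := by
  have m1 := M_lo
  have m2 := M_hi
  unfold ph
  apply two _ _ (Complex.abs_im_le_norm x) (Complex.abs_re_le_norm y)
  · unfold nu2 be; norm_num at m1 m2 ⊢; rw [abs_le]; constructor <;> linarith
  · unfold nu2 be; norm_num at m1 m2 ⊢; rw [abs_le]; constructor <;> linarith

theorem bsg (x y : ℂ) : |sg x y| ≤ 9.85 * ‖x‖ + 6.6 * ‖y‖ := by
  have h1 := bff x y
  have h2 := bfh x y
  have l2 := l0_hi
  have h3 : |l0 * ff x y| ≤ 1551 / 1000 * (549 / 100 * ‖x‖ + 2 * ‖y‖) := by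
    rw [abs_mul, abs_of_pos l0_pos]
    norm_num at l2 h1
    exact mul_le_mul (by linarith) h1 (abs_nonneg _) (by norm_num)
  have h4 := abs_add_le (l0 * ff x y) (fh x y)
  have := norm_nonneg x
  have := norm_nonneg y
  unfold sg
  norm_num at h2 ⊢
  linarith

theorem bta (x y : ℂ) : |ta x y| ≤ 9.85 * ‖x‖ + 6.6 * ‖y‖ := by
  have h1 := bff x y
  have h2 := bfh x y
  have l2 := l0_hi
  have h3 : |l0 * ff x y| ≤ 1551 / 1000 * (549 / 100 * ‖x‖ + 2 * ‖y‖) := by
    rw [abs_mul, abs_of_pos l0_pos]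
    norm_num at l2 h1
    exact mul_le_mul (by linarith) h1 (abs_nonneg _) (by norm_num)
  have h4 := abs_sub (l0 * ff x y) (fh x y)
  have := norm_nonneg x
  have := norm_nonneg y
  unfold ta
  norm_num at h2 ⊢
  linarith

/-- the unperturbed equations of the third body -/
theorem lin_sg (h e x y : ℂ) :
    sg (e - I * h + x) (-I * e + (be / 2 : ℝ) * (h + 3 * (starRingEnd ℂ) h) + y) = l0 * sg h e + sg x y := by
  have hq := quart
  simp only [sg, ff, fh, add_re, add_im, sub_re, sub_im, mul_re, mul_im, I_re, I_im, neg_re, neg_im, ofReal_re,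
    ofReal_im, conj_re, conj_im, re_ofNat, im_ofNat]
  linear_combination (-h.re) * hq

theorem lin_ta (h e x y : ℂ) :
    ta (e - I * h + x) (-I * e + (be / 2 : ℝ) * (h + 3 * (starRingEnd ℂ) h) + y) = -l0 * ta h e + ta x y := by
  have hq := quart
  simp only [ta, ff, fh, add_re, add_im, sub_re, sub_im, mul_re, mul_im, I_re, I_im, neg_re, neg_im, ofReal_re,
    ofReal_im, conj_re, conj_im, re_ofNat, im_ofNat]
  linear_combination (h.re) * hq

theorem lin_pp (h e x y : ℂ) :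
    pp (e - I * h + x) (-I * e + (be / 2 : ℝ) * (h + 3 * (starRingEnd ℂ) h) + y) = ph h e + pp x y := by
  simp only [pp, ph, add_re, add_im, sub_re, sub_im, mul_re, mul_im, I_re, I_im, neg_re, neg_im, ofReal_re,
    ofReal_im, conj_re, conj_im, re_ofNat, im_ofNat]
  ring

theorem lin_ph (h e x y : ℂ) :
    ph (e - I * h + x) (-I * e + (be / 2 : ℝ) * (h + 3 * (starRingEnd ℂ) h) + y) = -nu2 * pp h e + ph x y := by
  have hq := quart
  simp only [pp, ph, add_re, add_im, sub_re, sub_im, mul_re, mul_im, I_re, I_im, neg_re, neg_im, ofReal_re,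
    ofReal_im, conj_re, conj_im, re_ofNat, im_ofNat, nu2]
  linear_combination (-h.re) * hq

theorem d_re {f : ℝ → ℂ} {f' : ℂ} {t : ℝ} (h : HasDerivAt f f' t) : HasDerivAt (fun s => (f s).re) f'.re t :=
  (Complex.reCLM.hasFDerivAt (x := f t)).comp_hasDerivAt t h

theorem d_im {f : ℝ → ℂ} {f' : ℂ} {t : ℝ} (h : HasDerivAt f f' t) : HasDerivAt (fun s => (f s).im) f'.im t :=
  (Complex.imCLM.hasFDerivAt (x := f t)).comp_hasDerivAt t h

section
variable {h e : ℝ → ℂ} {h' e' : ℂ} {t : ℝ}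

theorem d_ff (H : HasDerivAt h h' t) (E : HasDerivAt e e' t) : HasDerivAt (fun s => ff (h s) (e s)) (ff h' e') t :=
  ((d_re H).const_mul _).add ((d_im E).const_mul _)
theorem d_fh (H : HasDerivAt h h' t) (E : HasDerivAt e e' t) : HasDerivAt (fun s => fh (h s) (e s)) (fh h' e') t :=
  ((d_im H).const_mul _).add ((d_re E).const_mul _)
theorem d_pp (H : HasDerivAt h h' t) (E : HasDerivAt e e' t) : HasDerivAt (fun s => pp (h s) (e s)) (pp h' e') t :=
  ((d_re H).const_mul _).add ((d_im E).const_mul _)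
theorem d_ph (H : HasDerivAt h h' t) (E : HasDerivAt e e' t) : HasDerivAt (fun s => ph (h s) (e s)) (ph h' e') t :=
  ((d_im H).const_mul _).add ((d_re E).const_mul _)
theorem d_sg (H : HasDerivAt h h' t) (E : HasDerivAt e e' t) : HasDerivAt (fun s => sg (h s) (e s)) (sg h' e') t :=
  ((d_ff H E).const_mul _).add (d_fh H E)
theorem d_ta (H : HasDerivAt h h' t) (E : HasDerivAt e e' t) : HasDerivAt (fun s => ta (h s) (e s)) (ta h' e') t :=
  ((d_ff H E).const_mul _).sub (d_fh H E)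

theorem d_nsq (H : HasDerivAt h h' t) :
    HasDerivAt (fun s => ‖h s‖ ^ 2) (2 * ((h t).re * h'.re + (h t).im * h'.im)) t := by
  have e1 : (fun s => ‖h s‖ ^ 2) = fun s => (h s).re ^ 2 + (h s).im ^ 2 := by
    funext s; rw [Complex.sq_norm, Complex.normSq_apply]; ring
  rw [e1]
  have := ((d_re H).pow 2).add ((d_im H).pow 2)
  refine this.congr_deriv ?_
  norm_num; ring
end

/-- real inner product bound -/
theorem inner_le (a b : ℂ) : |a.re * b.re + a.im * b.im| ≤ ‖a‖ * ‖b‖ := by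
  have h : a.re * b.re + a.im * b.im = (a * (starRingEnd ℂ) b).re := by simp
  rw [h]
  refine (Complex.abs_re_le_norm _).trans ?_
  rw [norm_mul, Complex.norm_conj]

theorem main : S_FUN1 := by
  intro k q h e t D e1 e2 e3 e4 hD Hk Hq Hh He b1 b2 b3 b4
  obtain ⟨c1, c2, c3, c4, c5⟩ := coord (k t) (q t) (h t) (e t)
  set R := Real.sqrt (QQ (k t) (q t) (h t) (e t)) with hR
  have hR0 : 0 ≤ R := Real.sqrt_nonneg _
  have hQ0 : 0 ≤ QQ (k t) (q t) (h t) (e t) := by
    have : 0 ≤ nu2 := by have := M_lo; unfold nu2 be; norm_num at this ⊢; linarith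
    unfold QQ; positivity
  have hRR : R ^ 2 = QQ (k t) (q t) (h t) (e t) := Real.sq_sqrt hQ0
  set N := NN (k t) (q t) (h t) (e t) with hN
  have hN0 : 0 ≤ N := by rw [hN]; unfold NN; positivity
  have hDN : 0 ≤ D * N := mul_nonneg hD hN0
  -- the forcing
  set y : ℂ := (ga : ℂ) * (k t + 3 * (starRingEnd ℂ) (k t)) + e4 with hy
  have hyb : ‖y‖ ≤ D * N + 2.75 * (R / 1414) := by
    rw [hy]
    refine (norm_add_le _ _).trans ?_
    rw [norm_mul, Complex.norm_real]
    have h1 : ‖k t + 3 * (starRingEnd ℂ) (k t)‖ ≤ 4 * ‖k t‖ := by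
      refine (norm_add_le _ _).trans ?_
      rw [norm_mul, Complex.norm_conj]
      have : ‖(3:ℂ)‖ = 3 := by simp
      rw [this]; linarith
    have h2 : ‖ga‖ ≤ 2.75 / 4 := by
      rw [Real.norm_eq_abs]; unfold ga; rw [abs_le]; constructor <;> norm_num
    have h3 : ‖ga‖ * ‖k t + 3 * (starRingEnd ℂ) (k t)‖ ≤ 2.75 / 4 * (4 * ‖k t‖) :=
      mul_le_mul h2 h1 (norm_nonneg _) (by norm_num)
    have h4 := c4
    norm_num at h3 h4 ⊢
    linarith
  have He' : HasDerivAt e (-I * e t + (be / 2 : ℝ) * (h t + 3 * (starRingEnd ℂ) (h t)) + y) t := by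
    refine He.congr_deriv ?_
    rw [hy]; ring
  have hx := b3
  refine ⟨_, 2 * (ta (h t) (e t) * (-l0 * ta (h t) (e t) + ta e3 y)) +
      nu2 * (2 * (pp (h t) (e t) * (ph (h t) (e t) + pp e3 y))) +
      2 * (ph (h t) (e t) * (-nu2 * pp (h t) (e t) + ph e3 y)) +
      10 ^ 6 * (2 * (2 * ((k t).re * (q t - I * k t + e1).re + (k t).im * (q t - I * k t + e1).im)) +
        2 * ((q t).re * (-I * q t + 1 / 2 * (k t + 3 * (starRingEnd ℂ) (k t)) + e2).re +
          (q t).im * (-I * q t + 1 / 2 * (k t + 3 * (starRingEnd ℂ) (k t)) + e2).im)), d_sg Hh He', ?_, ?_, ?_⟩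
  · have g1 := (d_ta Hh He').pow 2
    have g2 := ((d_pp Hh He').pow 2).const_mul nu2
    have g3 := (d_ph Hh He').pow 2
    have g4 := (((d_nsq Hk).const_mul 2).add (d_nsq Hq)).const_mul (10 ^ 6 : ℝ)
    have g := ((g1.add g2).add g3).add g4
    rw [lin_ta, lin_pp, lin_ph] at g
    refine g.congr_deriv ?_
    norm_num
    ring
  · rw [lin_sg]
    have := bsg e3 y
    rw [add_sub_cancel_left]
    refine this.trans ?_
    norm_num at hyb ⊢
    linarith
  · have i1 := bta e3 y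
    have i2 := bpp e3 y
    have i3 := bph e3 y
    have j1 : ta (h t) (e t) * ta e3 y ≤ R * (1645 / 100 * (D * N) + 13 / 1000 * R) := by
      refine (le_abs_self _).trans ?_
      rw [abs_mul]
      refine mul_le_mul c1 (i1.trans ?_) (abs_nonneg _) hR0
      norm_num at hyb ⊢; linarith
    have j2 : pp (h t) (e t) * pp e3 y ≤ 657 / 1000 * R * (276 / 100 * (D * N) + 4 / 1000 * R) := by
      refine (le_abs_self _).trans ?_
      rw [abs_mul]
      refine mul_le_mul c2 (i2.trans ?_) (abs_nonneg _) (by positivity)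
      norm_num at hyb ⊢; linarith
    have j3 : ph (h t) (e t) * ph e3 y ≤ R * (466 / 100 * (D * N) + 25 / 10000 * R) := by
      refine (le_abs_self _).trans ?_
      rw [abs_mul]
      refine mul_le_mul c3 (i3.trans ?_) (abs_nonneg _) hR0
      norm_num at hyb ⊢; linarith
    have nu1 : nu2 ≤ 24 / 10 := by have := M_hi; unfold nu2 be; norm_num at this ⊢; linarith
    have nu0 : 0 ≤ nu2 := by have := M_lo; unfold nu2 be; norm_num at this ⊢; linarith
    have j2' : nu2 * (pp (h t) (e t) * pp e3 y) ≤ 24 / 10 * (657 / 1000 * R * (276 / 100 * (D * N) + 4 / 1000 * R)) := by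
      refine (mul_le_mul_of_nonneg_left j2 nu0).trans ?_
      exact mul_le_mul_of_nonneg_right nu1 (by positivity)
    have j4 : 0 ≤ l0 * ta (h t) (e t) ^ 2 := mul_nonneg l0_pos.le (sq_nonneg _)
    -- binary
    have k1 : (k t).re * (q t - I * k t + e1).re + (k t).im * (q t - I * k t + e1).im =
        ((k t).re * (q t).re + (k t).im * (q t).im) + ((k t).re * e1.re + (k t).im * e1.im) := by
      simp only [add_re, add_im, sub_re, sub_im, mul_re, mul_im, I_re, I_im]
      ring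
    have k2 : (q t).re * (-I * q t + 1 / 2 * (k t + 3 * (starRingEnd ℂ) (k t)) + e2).re +
          (q t).im * (-I * q t + 1 / 2 * (k t + 3 * (starRingEnd ℂ) (k t)) + e2).im =
        1 / 2 * ((q t).re * (k t).re + (q t).im * (k t).im) +
        3 / 2 * ((q t).re * ((starRingEnd ℂ) (k t)).re + (q t).im * ((starRingEnd ℂ) (k t)).im) +
        ((q t).re * e2.re + (q t).im * e2.im) := by
      have r1 : ((1:ℂ)/2).re = 1/2 := by norm_num
      have r2 : ((1:ℂ)/2).im = 0 := by norm_num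
      simp only [add_re, add_im, sub_re, sub_im, mul_re, mul_im, I_re, I_im, neg_re, neg_im, conj_re, conj_im,
        re_ofNat, im_ofNat, r1, r2]
      ring
    have l1 := (abs_le.1 (inner_le (k t) (q t))).2
    have l2 := (abs_le.1 (inner_le (k t) e1)).2
    have l3 := (abs_le.1 (inner_le (q t) (k t))).2
    have l4 := (abs_le.1 (inner_le (q t) ((starRingEnd ℂ) (k t)))).2
    have l5 := (abs_le.1 (inner_le (q t) e2)).2
    rw [Complex.norm_conj] at l4
    have l2' : (k t).re * e1.re + (k t).im * e1.im ≤ R / 1414 * (D * N) :=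
      l2.trans (mul_le_mul c4 b1 (norm_nonneg _) (by positivity))
    have l5' : (q t).re * e2.re + (q t).im * e2.im ≤ R / 1000 * (D * N) :=
      l5.trans (mul_le_mul c5 b2 (norm_nonneg _) (by positivity))
    have l6 : 8 * (‖k t‖ * ‖q t‖) ≤ 2 * Real.sqrt 2 * (2 * ‖k t‖ ^ 2 + ‖q t‖ ^ 2) := by
      have s2 := Real.sq_sqrt (show (0:ℝ) ≤ 2 by norm_num)
      have s0 := Real.sqrt_nonneg 2
      have h1 := mul_nonneg s0 (sq_nonneg (Real.sqrt 2 * ‖k t‖ - ‖q t‖))
      have h2 : Real.sqrt 2 * (Real.sqrt 2 * ‖k t‖ - ‖q t‖) ^ 2 =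
          Real.sqrt 2 * (2 * ‖k t‖ ^ 2 + ‖q t‖ ^ 2) - 4 * (‖k t‖ * ‖q t‖) := by
        linear_combination (Real.sqrt 2 * ‖k t‖ ^ 2 - 2 * (‖k t‖ * ‖q t‖)) * s2
      linarith
    have l7 : 10 ^ 6 * (2 * ‖k t‖ ^ 2 + ‖q t‖ ^ 2) ≤ R ^ 2 := by
      rw [hRR]; unfold QQ
      have := mul_nonneg nu0 (sq_nonneg (pp (h t) (e t)))
      have := sq_nonneg (ta (h t) (e t))
      have := sq_nonneg (ph (h t) (e t))
      linarith
    have l8 : 2 * Real.sqrt 2 * (10 ^ 6 * (2 * ‖k t‖ ^ 2 + ‖q t‖ ^ 2)) ≤ 2 * Real.sqrt 2 * R ^ 2 :=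
      mul_le_mul_of_nonneg_left l7 (by positivity)
    rw [k1, k2, ← hRR]
    have hRDN : 0 ≤ R * (D * N) := mul_nonneg hR0 hDN
    have hR2 : 0 ≤ R ^ 2 := sq_nonneg R
    have l9 : (q t).re * (k t).re + (q t).im * (k t).im ≤ ‖k t‖ * ‖q t‖ := by
      rw [mul_comm ‖k t‖]; exact l3
    have l10 : (q t).re * ((starRingEnd ℂ) (k t)).re + (q t).im * ((starRingEnd ℂ) (k t)).im ≤ ‖k t‖ * ‖q t‖ := by
      rw [mul_comm ‖k t‖]; exact l4
    generalize ta (h t) (e t) = T at *
    generalize pp (h t) (e t) = P at *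
    generalize ph (h t) (e t) = H at *
    generalize ta e3 y = TA at *
    generalize pp e3 y = PP at *
    generalize ph e3 y = HH at *
    generalize (k t).re * (q t).re + (k t).im * (q t).im = X1 at *
    generalize (k t).re * e1.re + (k t).im * e1.im = X2 at *
    generalize (q t).re * (k t).re + (q t).im * (k t).im = Y1 at *
    generalize (q t).re * ((starRingEnd ℂ) (k t)).re + (q t).im * ((starRingEnd ℂ) (k t)).im = Y2 at *
    generalize (q t).re * e2.re + (q t).im * e2.im = Y3 at *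
    generalize 2 * ‖k t‖ ^ 2 + ‖q t‖ ^ 2 = B at *
    generalize ‖k t‖ * ‖q t‖ = K at *
    have key : 2 * (T * (-l0 * T + TA)) + nu2 * (2 * (P * (H + PP))) + 2 * (H * (-nu2 * P + HH)) +
        10 ^ 6 * (2 * (2 * (X1 + X2)) + 2 * (1 / 2 * Y1 + 3 / 2 * Y2 + Y3)) =
        -2 * (l0 * T ^ 2) + 2 * (T * TA) + 2 * (nu2 * (P * PP)) + 2 * (H * HH) +
        10 ^ 6 * (4 * X1 + 4 * X2 + Y1 + 3 * Y2 + 2 * Y3) := by ring
    rw [key]
    have e5 : 5058 * D * R * N = 5058 * (R * (D * N)) := by ring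
    rw [e5]
    nlinarith [j1, j2', j3, j4, l1, l2', l5', l6, l8, l9, l10, hRDN, hR2]

end Pool.Agent.H77.TU.FUN1
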