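import Pool.Agent.H77.TU.Stm

/-! Assembly of project TU. -/

set_option autoImplicit false

open Complex

namespace Pool.Agent.H77.TU

open Pool.Agent.H3.TB Pool.Agent.H3.TB.NearAux

theorem fsol_of_sol {m : Fin 3 → ℝ} {x : ℝ → Ph} (h : IsSol m x) : FSol m x :=
  ⟨fun t _ => ((h t).2).continuousAt.continuousWithinAt, fun t _ => (h t).1, fun t _ => (h t).2⟩

/-- the final statement -/
def Final : Prop := ∃ η : ℝ, 0 < η ∧ ∀ m : Fin 3 → ℝ, (∀ i, 0 < m i) →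
  m 2 < η * (m 0 + m 1) → |m 0 - 63 / 82 * (m 0 + m 1)| < η * (m 0 + m 1) →
  (∃ r : Fin 3 → ℝ, r 0 < r 1 ∧ r 1 < r 2 ∧ IsSol m (euler r 1 1)) ∧
  ∀ (r : Fin 3 → ℝ) (w : ℂ) (ω : ℝ), r 0 < r 1 → r 1 < r 2 → w ≠ 0 → ω ≠ 0 → IsSol m (euler r w ω) →
    (∀ x : ℝ → Ph, FSol m x →
      (∀ t a b, 0 ≤ t → abs (‖(x t).1 a - (x t).1 b‖ - ‖w‖ * |r a - r b|) ≤ η * (‖w‖ * |r a - r b|)) →
      ∀ U ∈ nhds (x 0), Esc m U (2 * (‖w‖ * (r 1 - r 0)))) ∧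
    ∀ e : ℝ, 0 ≤ e → e ≤ η → ∃ x : ℝ → Ph, IsElliptic r w ω e x ∧ IsSol m x ∧ IsRelPeriodic x ∧
      (∀ a b, a ≠ b → ∃ t s, ‖(x t).1 a - (x t).1 b‖ = (1 - e) * (‖w‖ * |r a - r b|) ∧
        ‖(x s).1 a - (x s).1 b‖ = (1 + e) * (‖w‖ * |r a - r b|)) ∧
      ∀ U ∈ nhds (x 0), Esc m U (2 * (‖w‖ * (r 1 - r 0)))

theorem final_of (hW : S_WRAP) (hH : S_HOM) : Final := by
  obtain ⟨η, hη, hW⟩ := hW
  refine ⟨min η (1 / 2), lt_min hη (by norm_num), fun m hm h2 h0 => ?_⟩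
  have hs : 0 < m 0 + m 1 := add_pos (hm 0) (hm 1)
  obtain ⟨g1, g2⟩ := hW m hm (h2.trans_le (mul_le_mul_of_nonneg_right (min_le_left _ _) hs.le))
    (h0.trans_le (mul_le_mul_of_nonneg_right (min_le_left _ _) hs.le))
  refine ⟨g1, fun r w ω h01 h12 hw hω hsol => ?_⟩
  have key : ∀ x : ℝ → Ph, FSol m x →
      (∀ t a b, 0 ≤ t → abs (‖(x t).1 a - (x t).1 b‖ - ‖w‖ * |r a - r b|) ≤
        min η (1 / 2) * (‖w‖ * |r a - r b|)) →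
      ∀ U ∈ nhds (x 0), Esc m U (2 * (‖w‖ * (r 1 - r 0))) := by
    intro x hx hd U hU
    refine g2 r w ω h01 h12 hw hω hsol x hx (fun t a b ht => (hd t a b ht).trans ?_) U hU
    exact mul_le_mul_of_nonneg_right (min_le_left _ _) (by positivity)
  refine ⟨key, fun e he0 he1 => ?_⟩
  have he2 : e < 1 := lt_of_le_of_lt (he1.trans (min_le_right _ _)) (by norm_num)
  obtain ⟨⟨x, hx⟩, hall⟩ := hH m r w ω hm h01 h12 hw hω hsol e he0 he2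
  obtain ⟨a1, a2, a3, a4⟩ := hall x hx
  refine ⟨x, hx, a1, a2, a4, key x (fsol_of_sol a1) (fun t a b _ => (a3 t a b).trans ?_)⟩
  exact mul_le_mul_of_nonneg_right he1 (by positivity)

end Pool.Agent.H77.TU
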