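import Pool.Agent.H77.TU.Stm

/-! TU-HOM (helper31): elliptic homographic solutions. -/

set_option autoImplicit false

open Complex

namespace Pool.Agent.H77.TU.HOM

open Pool.Agent.H3.TB Pool.Agent.H3.TB.Wrap

/-- Kepler's function -/
noncomputable def kf (e E : ℝ) : ℝ := E - e * Real.sin E

lemma kf_deriv (e E : ℝ) : HasDerivAt (kf e) (1 - e * Real.cos E) E := by
  unfold kf
  exact (hasDerivAt_id E).sub ((Real.hasDerivAt_sin E).const_mul e)

lemma k_pos {e : ℝ} (h0 : 0 ≤ e) (h1 : e < 1) (E : ℝ) : 0 < 1 - e * Real.cos E := by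
  have := mul_le_mul_of_nonneg_left (Real.cos_le_one E) h0
  linarith

lemma kf_mono {e : ℝ} (h0 : 0 ≤ e) (h1 : e < 1) : StrictMono (kf e) := by
  apply strictMono_of_deriv_pos
  intro E
  rw [(kf_deriv e E).deriv]
  exact k_pos h0 h1 E

lemma kf_cont (e : ℝ) : Continuous (kf e) := by
  unfold kf
  fun_prop

lemma kf_surj {e : ℝ} (h0 : 0 ≤ e) (h1 : e < 1) : Function.Surjective (kf e) := by
  intro y
  have hl : kf e (y - 1) ≤ y := by
    unfold kf
    nlinarith [Real.neg_one_le_sin (y - 1), Real.sin_le_one (y - 1)]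
  have hu : y ≤ kf e (y + 1) := by
    unfold kf
    nlinarith [Real.neg_one_le_sin (y + 1), Real.sin_le_one (y + 1)]
  obtain ⟨E, -, hE⟩ := intermediate_value_Icc (by linarith : y - 1 ≤ y + 1) (kf_cont e).continuousOn
    ⟨hl, hu⟩
  exact ⟨E, hE⟩

/-- the inverse of Kepler's function -/
noncomputable def iso {e : ℝ} (h0 : 0 ≤ e) (h1 : e < 1) : ℝ ≃o ℝ :=
  StrictMono.orderIsoOfSurjective (kf e) (kf_mono h0 h1) (kf_surj h0 h1)

lemma iso_apply {e : ℝ} (h0 : 0 ≤ e) (h1 : e < 1) (E : ℝ) : iso h0 h1 E = kf e E := rfl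

lemma kf_symm {e : ℝ} (h0 : 0 ≤ e) (h1 : e < 1) (y : ℝ) : kf e ((iso h0 h1).symm y) = y :=
  (iso h0 h1).apply_symm_apply y

lemma A_eq {e ω : ℝ} (h0 : 0 ≤ e) (h1 : e < 1) {A : ℝ → ℝ}
    (hA : ∀ t, A t - e * Real.sin (A t) = ω * t) (t : ℝ) : A t = (iso h0 h1).symm (ω * t) := by
  apply (kf_mono h0 h1).injective
  rw [kf_symm]
  exact hA t

lemma symm_deriv {e : ℝ} (h0 : 0 ≤ e) (h1 : e < 1) (y : ℝ) :
    HasDerivAt (iso h0 h1).symm (1 - e * Real.cos ((iso h0 h1).symm y))⁻¹ y := by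
  refine HasDerivAt.of_local_left_inverse (f := kf e) (iso h0 h1).symm.continuous.continuousAt
    (kf_deriv e _) (k_pos h0 h1 _).ne' ?_
  exact Filter.Eventually.of_forall fun z => kf_symm h0 h1 z

lemma A_deriv {e ω : ℝ} (h0 : 0 ≤ e) (h1 : e < 1) {A : ℝ → ℝ}
    (hA : ∀ t, A t - e * Real.sin (A t) = ω * t) (t : ℝ) :
    HasDerivAt A (ω / (1 - e * Real.cos (A t))) t := by
  have hAe : A = fun t => (iso h0 h1).symm (ω * t) := funext fun t => A_eq h0 h1 hA t
  have h2 : HasDerivAt (fun t : ℝ => ω * t) ω t := by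
    simpa using (hasDerivAt_id t).const_mul ω
  have h3 := (symm_deriv h0 h1 (ω * t)).comp t h2
  have h4 : A t = (iso h0 h1).symm (ω * t) := A_eq h0 h1 hA t
  rw [← h4] at h3
  rw [hAe] at *
  refine h3.congr_deriv ?_
  simp only [div_eq_mul_inv]
  ring

/-- derivative of `ell` -/
noncomputable def ell' (e E : ℝ) : ℂ :=
  ((-Real.sin E : ℝ) : ℂ) + ((Real.sqrt (1 - e ^ 2) * Real.cos E : ℝ) : ℂ) * I

lemma ell_deriv (e E : ℝ) : HasDerivAt (ell e) (ell' e E) E := by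
  unfold ell ell'
  have h1 : HasDerivAt (fun E : ℝ => Real.cos E - e) (-Real.sin E) E :=
    (Real.hasDerivAt_cos E).sub_const e
  have h2 : HasDerivAt (fun E : ℝ => Real.sqrt (1 - e ^ 2) * Real.sin E)
      (Real.sqrt (1 - e ^ 2) * Real.cos E) E := (Real.hasDerivAt_sin E).const_mul _
  exact h1.ofReal_comp.add (h2.ofReal_comp.mul_const I)

lemma ell'_deriv (e E : ℝ) : HasDerivAt (ell' e)
    (((-Real.cos E : ℝ) : ℂ) + ((Real.sqrt (1 - e ^ 2) * (-Real.sin E) : ℝ) : ℂ) * I) E := by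
  unfold ell'
  have h1 : HasDerivAt (fun E : ℝ => -Real.sin E) (-Real.cos E) E :=
    (Real.hasDerivAt_sin E).neg
  have h2 : HasDerivAt (fun E : ℝ => Real.sqrt (1 - e ^ 2) * Real.cos E)
      (Real.sqrt (1 - e ^ 2) * (-Real.sin E)) E := (Real.hasDerivAt_cos E).const_mul _
  exact h1.ofReal_comp.add (h2.ofReal_comp.mul_const I)

lemma ell_norm {e : ℝ} (h0 : 0 ≤ e) (h1 : e < 1) (E : ℝ) : ‖ell e E‖ = 1 - e * Real.cos E := by
  have hs : Real.sqrt (1 - e ^ 2) ^ 2 = 1 - e ^ 2 := Real.sq_sqrt (by nlinarith)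
  have h2 : ‖ell e E‖ ^ 2 = (1 - e * Real.cos E) ^ 2 := by
    rw [← Complex.normSq_eq_norm_sq, Complex.normSq_apply]
    unfold ell
    simp only [Complex.add_re, Complex.add_im, Complex.ofReal_re, Complex.ofReal_im,
      Complex.mul_re, Complex.mul_im, Complex.I_re, Complex.I_im]
    have := Real.sin_sq_add_cos_sq E
    nlinarith [this, hs]
  have h3 := k_pos h0 h1 E
  exact (pow_left_inj₀ (norm_nonneg _) h3.le two_ne_zero).1 h2

lemma rho_deriv {e ω : ℝ} (h0 : 0 ≤ e) (h1 : e < 1) {A : ℝ → ℝ}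
    (hA : ∀ t, A t - e * Real.sin (A t) = ω * t) (t : ℝ) :
    HasDerivAt (fun t => ell e (A t)) (((ω / (1 - e * Real.cos (A t)) : ℝ) : ℂ) * ell' e (A t)) t := by
  have h := (ell_deriv e (A t)).scomp t (A_deriv h0 h1 hA t)
  refine h.congr_deriv ?_
  rw [Complex.real_smul]

lemma rho_deriv2 {e ω : ℝ} (h0 : 0 ≤ e) (h1 : e < 1) {A : ℝ → ℝ}
    (hA : ∀ t, A t - e * Real.sin (A t) = ω * t) (t : ℝ) :
    HasDerivAt (fun t => ((ω / (1 - e * Real.cos (A t)) : ℝ) : ℂ) * ell' e (A t))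
      (((-(ω ^ 2 / (1 - e * Real.cos (A t)) ^ 3) : ℝ) : ℂ) * ell e (A t)) t := by
  have hk := k_pos h0 h1 (A t)
  have hA' := A_deriv h0 h1 hA t
  have hk' : HasDerivAt (fun t => 1 - e * Real.cos (A t))
      (e * Real.sin (A t) * (ω / (1 - e * Real.cos (A t)))) t := by
    have := (((Real.hasDerivAt_cos (A t)).comp t hA').const_mul e).const_sub 1
    refine this.congr_deriv ?_
    ring
  have hq := (hasDerivAt_const t ω).div hk' hk.ne'
  have h3 := hq.ofReal_comp.mul ((ell'_deriv e (A t)).scomp t hA')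
  refine h3.congr_deriv ?_
  rw [Complex.real_smul]
  have hsc := Real.sin_sq_add_cos_sq (A t)
  set S := Real.sin (A t)
  set C := Real.cos (A t)
  set s := Real.sqrt (1 - e ^ 2)
  set k := 1 - e * C with hkd
  have hre : (0 * k - ω * (e * S * (ω / k))) / k ^ 2 * (-S) + ω / k * (ω / k * (-C)) =
      -(ω ^ 2 / k ^ 3) * (C - e) := by
    field_simp
    have : S ^ 2 = 1 - C ^ 2 := by linarith
    rw [hkd]
    linear_combination (ω ^ 2 * e) * hsc
  have him : (0 * k - ω * (e * S * (ω / k))) / k ^ 2 * (s * C) + ω / k * (ω / k * (s * (-S))) =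
      -(ω ^ 2 / k ^ 3) * (s * S) := by
    field_simp
    rw [hkd]
    ring
  have hre' : (((0 * k - ω * (e * S * (ω / k))) / k ^ 2 : ℝ) : ℂ) * ((-S : ℝ) : ℂ) +
      ((ω / k : ℝ) : ℂ) * (((ω / k : ℝ) : ℂ) * ((-C : ℝ) : ℂ)) =
      ((-(ω ^ 2 / k ^ 3) : ℝ) : ℂ) * ((C - e : ℝ) : ℂ) := by
    rw [← Complex.ofReal_mul, ← Complex.ofReal_mul, ← Complex.ofReal_mul, ← Complex.ofReal_add,
      ← Complex.ofReal_mul, hre]
  have him' : (((0 * k - ω * (e * S * (ω / k))) / k ^ 2 : ℝ) : ℂ) * ((s * C : ℝ) : ℂ) +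
      ((ω / k : ℝ) : ℂ) * (((ω / k : ℝ) : ℂ) * ((s * (-S) : ℝ) : ℂ)) =
      ((-(ω ^ 2 / k ^ 3) : ℝ) : ℂ) * ((s * S : ℝ) : ℂ) := by
    rw [← Complex.ofReal_mul, ← Complex.ofReal_mul, ← Complex.ofReal_mul, ← Complex.ofReal_add,
      ← Complex.ofReal_mul, him]
  change (((0 * k - ω * (e * S * (ω / k))) / k ^ 2 : ℝ) : ℂ) *
      (((-S : ℝ) : ℂ) + ((s * C : ℝ) : ℂ) * I) +
      ((ω / k : ℝ) : ℂ) * (((ω / k : ℝ) : ℂ) * (((-C : ℝ) : ℂ) + ((s * (-S) : ℝ) : ℂ) * I)) =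
      ((-(ω ^ 2 / k ^ 3) : ℝ) : ℂ) * (((C - e : ℝ) : ℂ) + ((s * S : ℝ) : ℂ) * I)
  linear_combination hre' + I * him'

/-- the elliptic motion -/
noncomputable def mot (r : Fin 3 → ℝ) (w : ℂ) (ω e : ℝ) (A : ℝ → ℝ) (t : ℝ) : Ph :=
  (fun i => w * ell e (A t) * r i,
    fun i => w * (((ω / (1 - e * Real.cos (A t)) : ℝ) : ℂ) * ell' e (A t)) * r i)

lemma mot_deriv1 {r : Fin 3 → ℝ} {w : ℂ} {e ω : ℝ} (h0 : 0 ≤ e) (h1 : e < 1) {A : ℝ → ℝ}
    (hA : ∀ t, A t - e * Real.sin (A t) = ω * t) (t : ℝ) :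
    HasDerivAt (fun s => (mot r w ω e A s).1) (mot r w ω e A t).2 t := by
  rw [hasDerivAt_pi]
  intro i
  exact ((rho_deriv h0 h1 hA t).const_mul w).mul_const (r i : ℂ)

lemma mot_deriv2 {r : Fin 3 → ℝ} {w : ℂ} {e ω : ℝ} (h0 : 0 ≤ e) (h1 : e < 1) {A : ℝ → ℝ}
    (hA : ∀ t, A t - e * Real.sin (A t) = ω * t) (t : ℝ) :
    HasDerivAt (fun s => (mot r w ω e A s).2)
      (fun i => w * (((-(ω ^ 2 / (1 - e * Real.cos (A t)) ^ 3) : ℝ) : ℂ) * ell e (A t)) * r i) t := by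
  rw [hasDerivAt_pi]
  intro i
  exact ((rho_deriv2 h0 h1 hA t).const_mul w).mul_const (r i : ℂ)

/-- an elliptic motion is `mot` -/
lemma eq_mot {r : Fin 3 → ℝ} {w : ℂ} {e ω : ℝ} (h0 : 0 ≤ e) (h1 : e < 1) {A : ℝ → ℝ}
    (hA : ∀ t, A t - e * Real.sin (A t) = ω * t) {x : ℝ → Ph}
    (hx : ∀ t i, (x t).1 i = w * ell e (A t) * r i)
    (hd : ∀ t, HasDerivAt (fun s => (x s).1) (x t).2 t) : x = mot r w ω e A := by
  have hx1 : (fun s => (x s).1) = fun s => (mot r w ω e A s).1 := by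
    funext s i
    exact hx s i
  funext t
  refine Prod.ext (congrFun hx1 t) ?_
  have h2 := hd t
  rw [hx1] at h2
  exact h2.unique (mot_deriv1 h0 h1 hA t)

lemma mot_sol {m r : Fin 3 → ℝ} {w : ℂ} {e ω : ℝ} (h01 : r 0 < r 1) (h12 : r 1 < r 2)
    (hw : w ≠ 0) (hs : IsSol m (euler r w ω)) (h0 : 0 ≤ e) (h1 : e < 1) {A : ℝ → ℝ}
    (hA : ∀ t, A t - e * Real.sin (A t) = ω * t) : IsSol m (mot r w ω e A) := by
  have hE := eqs_of_sol hw hs
  intro t
  have hk := k_pos h0 h1 (A t)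
  have hn := ell_norm h0 h1 (A t)
  set c : ℂ := w * ell e (A t) with hc
  have hl0 : ell e (A t) ≠ 0 := by
    rw [← norm_pos_iff, hn]
    exact hk
  have hc0 : c ≠ 0 := mul_ne_zero hw hl0
  have hcn : ‖c‖ = ‖w‖ * (1 - e * Real.cos (A t)) := by rw [hc, norm_mul, hn]
  have hwn : 0 < ‖w‖ := norm_pos_iff.2 hw
  have hE' : (mot r w ω e A t).1 = fun j => c * r j := rfl
  have hinj : ∀ a b, a ≠ b → r a ≠ r b := by
    intro a b hab
    have h02 : r 0 < r 2 := h01.trans h12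
    fin_cases a <;> fin_cases b <;>
      first
        | exact absurd rfl hab
        | exact h01.ne
        | exact h02.ne
        | exact h12.ne
        | exact h01.ne'
        | exact h02.ne'
        | exact h12.ne'
  have hcom : ∀ d : ℂ, (m 0 : ℂ) * (d * r 0) + (m 1 : ℂ) * (d * r 1) + (m 2 : ℂ) * (d * r 2) = 0 := by
    intro d
    have h1 : ((m 0 * r 0 + m 1 * r 1 + m 2 * r 2 : ℝ) : ℂ) = 0 := by
      rw [hE.com, Complex.ofReal_zero]
    push_cast at h1
    linear_combination d * h1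
  refine ⟨⟨fun a b hab => ?_, ?_, ?_⟩, ?_⟩
  · rw [hE']
    intro h1
    exact hinj a b hab (by exact_mod_cast mul_left_cancel₀ hc0 h1)
  · rw [Fin.sum_univ_three, hE']
    exact hcom c
  · rw [Fin.sum_univ_three]
    exact hcom _
  · have h3 := (mot_deriv1 (r := r) (w := w) h0 h1 hA t).prodMk
      (mot_deriv2 (r := r) (w := w) h0 h1 hA t)
    refine h3.congr_deriv ?_
    refine Prod.ext rfl ?_
    funext i
    change w * (((-(ω ^ 2 / (1 - e * Real.cos (A t)) ^ 3) : ℝ) : ℂ) * ell e (A t)) * r i =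
      acc m (mot r w ω e A t).1 i
    rw [hE', acc_line, hE.eq i, hcn]
    have e1 : -(ω ^ 2 * ‖w‖ ^ 3 * r i) / (‖w‖ * (1 - e * Real.cos (A t))) ^ 3 =
        -(ω ^ 2 / (1 - e * Real.cos (A t)) ^ 3) * r i := by
      field_simp
    rw [e1, hc]
    push_cast
    ring

lemma mot_dist {r : Fin 3 → ℝ} {w : ℂ} {e ω : ℝ} (h0 : 0 ≤ e) (h1 : e < 1) {A : ℝ → ℝ}
    (t : ℝ) (a b : Fin 3) : ‖(mot r w ω e A t).1 a - (mot r w ω e A t).1 b‖ =
      (1 - e * Real.cos (A t)) * (‖w‖ * |r a - r b|) := by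
  have : (mot r w ω e A t).1 a - (mot r w ω e A t).1 b =
      w * ell e (A t) * ((r a - r b : ℝ) : ℂ) := by
    simp only [mot]
    push_cast
    ring
  rw [this, norm_mul, norm_mul, ell_norm h0 h1, Complex.norm_real, Real.norm_eq_abs]
  ring

theorem main : S_HOM := by
  intro m r w ω hm h01 h12 hw hω hs e h0 h1
  have hinj := kf_mono h0 h1
  constructor
  · refine ⟨mot r w ω e (fun t => (iso h0 h1).symm (ω * t)), fun t => (iso h0 h1).symm (ω * t),
      fun t => kf_symm h0 h1 (ω * t), fun t i => rfl, fun t => ?_⟩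
    exact mot_deriv1 h0 h1 (fun t => kf_symm h0 h1 (ω * t)) t
  · rintro x ⟨A, hA, hx, hd⟩
    rw [eq_mot h0 h1 hA hx hd]
    refine ⟨mot_sol h01 h12 hw hs h0 h1 hA, ?_, ?_, ?_⟩
    · refine ⟨2 * Real.pi / |ω|, by positivity, fun t a b => ?_⟩
      rw [mot_dist h0 h1, mot_dist h0 h1]
      have hcos : Real.cos (A (t + 2 * Real.pi / |ω|)) = Real.cos (A t) := by
        rcases lt_or_gt_of_ne hω with hneg | hpos
        · have : A (t + 2 * Real.pi / |ω|) = A t - 2 * Real.pi := by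
            apply hinj.injective
            unfold kf
            rw [hA, Real.sin_sub_two_pi, abs_of_neg hneg]
            have := hA t
            have h2 : ω * (t + 2 * Real.pi / -ω) = ω * t - 2 * Real.pi := by
              field_simp
              ring
            rw [h2]
            linarith
          rw [this, Real.cos_sub_two_pi]
        · have : A (t + 2 * Real.pi / |ω|) = A t + 2 * Real.pi := by
            apply hinj.injective
            unfold kf
            rw [hA, Real.sin_add_two_pi, abs_of_pos hpos]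
            have := hA t
            have h2 : ω * (t + 2 * Real.pi / ω) = ω * t + 2 * Real.pi := by
              field_simp
            rw [h2]
            linarith
          rw [this, Real.cos_add_two_pi]
      rw [hcos]
    · intro t a b
      rw [mot_dist h0 h1]
      have h2 : (1 - e * Real.cos (A t)) * (‖w‖ * |r a - r b|) - ‖w‖ * |r a - r b| =
          -(e * Real.cos (A t)) * (‖w‖ * |r a - r b|) := by ring
      have h3 : 0 ≤ ‖w‖ * |r a - r b| := by positivity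
      rw [h2, abs_mul, abs_neg, abs_mul, abs_of_nonneg h0, abs_of_nonneg h3]
      refine mul_le_mul_of_nonneg_right ?_ h3
      have := mul_le_mul_of_nonneg_left (Real.abs_cos_le_one (A t)) h0
      linarith
    · intro a b _
      have hA0 : A 0 = 0 := by
        apply hinj.injective
        unfold kf
        rw [hA]
        simp
      have hA1 : A (Real.pi / ω) = Real.pi := by
        apply hinj.injective
        unfold kf
        rw [hA, Real.sin_pi]
        field_simp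
        ring
      refine ⟨0, Real.pi / ω, ?_, ?_⟩
      · rw [mot_dist h0 h1, hA0, Real.cos_zero, mul_one]
      · rw [mot_dist h0 h1, hA1, Real.cos_pi]
        ring

end Pool.Agent.H77.TU.HOM
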