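import Pool.Agent.H77.TU.Stm

/-! TU-MODE: `mode` of `H3/TB/Mode.lean` with closeness to the exact limit values. -/

set_option autoImplicit false

open Complex Filter Topology

namespace Pool.Agent.H77.TU.MODE

open Pool.Agent.H3.TB Pool.Agent.H3.TB.Mode

theorem main : S_MODE := by
  intro ε hε
  have cBt := cont_Bt
  have cLL : ContinuousAt (fun p : ℝ × ℝ => LL (Bt p.1 p.2)) (0, 1/2) := by
    have := cont_LL.continuousAt (x := Bt 0 (1/2))
    exact ContinuousAt.comp_of_eq (f := fun p : ℝ × ℝ => Bt p.1 p.2) this cBt rfl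
  have cCC : ContinuousAt (fun p : ℝ × ℝ => CC (Bt p.1 p.2)) (0, 1/2) := by
    exact ContinuousAt.comp_of_eq (f := fun p : ℝ × ℝ => Bt p.1 p.2) cont_CC cBt Bt_half
  have E1 : ∀ᶠ p : ℝ × ℝ in 𝓝 (0, 1/2), |1 + p.1 * k2 p.2 - 1| < ε := by
    have : ContinuousAt (fun p : ℝ × ℝ => |1 + p.1 * k2 p.2 - 1|) (0, 1/2) := by
      have := cont_k2
      fun_prop
    exact this.eventually_lt continuousAt_const (by simp [hε])
  have E2 : ∀ᶠ p : ℝ × ℝ in 𝓝 (0, 1/2), |AA p.1 p.2 - 19/82| < ε := by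
    have : ContinuousAt (fun p : ℝ × ℝ => |AA p.1 p.2 - 19/82|) (0, 1/2) := by
      have := cont_AA
      fun_prop
    exact this.eventually_lt continuousAt_const (by simp only [AA_half]; simp [hε])
  have E3 : ∀ᶠ p : ℝ × ℝ in 𝓝 (0, 1/2), |LL (Bt p.1 p.2) - ll| < 1 / 10 ^ 9 := by
    have : ContinuousAt (fun p : ℝ × ℝ => |LL (Bt p.1 p.2) - ll|) (0, 1/2) := by
      fun_prop
    exact this.eventually_lt continuousAt_const (by simp only [Bt_half]; exact LL_half)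
  have E4 : ∀ᶠ p : ℝ × ℝ in 𝓝 (0, 1/2), |CC (Bt p.1 p.2) - cc| < 1 / 10 ^ 9 := by
    have : ContinuousAt (fun p : ℝ × ℝ => |CC (Bt p.1 p.2) - cc|) (0, 1/2) := by
      fun_prop
    exact this.eventually_lt continuousAt_const (by simp only [Bt_half]; exact CC_half)
  have E5 : ∀ᶠ p : ℝ × ℝ in 𝓝 (0, 1/2), |WW p.1 p.2| < ε := by
    have : ContinuousAt (fun p : ℝ × ℝ => |WW p.1 p.2|) (0, 1/2) := by
      have := cont_WW
      fun_prop
    exact this.eventually_lt continuousAt_const (by simp only [WW_half]; simp [hε])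
  have E6 : ∀ᶠ p : ℝ × ℝ in 𝓝 (0, 1/2), 2 < Bt p.1 p.2 :=
    continuousAt_const.eventually_lt cBt (by simp only [Bt_half]; norm_num)
  have E7 : ∀ᶠ p : ℝ × ℝ in 𝓝 (0, 1/2), 1 < B22 p.1 p.2 :=
    continuousAt_const.eventually_lt cont_B22 (by simp only [B22_half]; norm_num)
  have E8 : ∀ᶠ p : ℝ × ℝ in 𝓝 (0, 1/2), 0 < 1 + MM p.1 p.2 * k2 p.2 := by
    have : ContinuousAt (fun p : ℝ × ℝ => 1 + MM p.1 p.2 * k2 p.2) (0, 1/2) := by
      have h1 := cont_MM
      have h2 := cont_k2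
      fun_prop
    exact continuousAt_const.eventually_lt this (by simp only [MM_half, k2_half]; norm_num)
  have E9 : ∀ᶠ p : ℝ × ℝ in 𝓝 (0, 1/2), 0 < LL (Bt p.1 p.2) :=
    continuousAt_const.eventually_lt cLL (by
      simp only [Bt_half]; linarith [LL_lo, show (0:ℝ) < 1.5503853021 by norm_num])
  have E10 : ∀ᶠ p : ℝ × ℝ in 𝓝 (0, 1/2), |LL (Bt p.1 p.2) - l0| < ε := by
    have : ContinuousAt (fun p : ℝ × ℝ => |LL (Bt p.1 p.2) - l0|) (0, 1/2) := by
      fun_prop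
    refine this.eventually_lt continuousAt_const ?_
    simp only [Bt_half]
    have : LL (256/123) = l0 := rfl
    rw [this]; simp [hε]
  have E11 : ∀ᶠ p : ℝ × ℝ in 𝓝 (0, 1/2), |CC (Bt p.1 p.2) - c0| < ε := by
    have : ContinuousAt (fun p : ℝ × ℝ => |CC (Bt p.1 p.2) - c0|) (0, 1/2) := by
      fun_prop
    refine this.eventually_lt continuousAt_const ?_
    simp only [Bt_half]
    have : CC (256/123) = c0 := rfl
    rw [this]; simp [hε]
  have E := E1.and (E2.and (E3.and (E4.and (E5.and (E6.and (E7.and (E8.and (E9.and (E10.and E11)))))))))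
  rw [Metric.eventually_nhds_iff] at E
  obtain ⟨η, hη, H⟩ := E
  refine ⟨η, hη, ?_⟩
  intro m12 m3 a z hre h3 h3η hzη
  have hd : dist ((m3, z) : ℝ × ℝ) (0, 1/2) < η := by
    rw [Prod.dist_eq]
    apply max_lt
    · simp only [Real.dist_eq, sub_zero]; rw [abs_of_pos h3]; exact h3η
    · simp only [Real.dist_eq]; exact hzη
  obtain ⟨e1, e2, e3, e4, e5, e6, e7, e8, e9, e10, e11⟩ := H hd
  simp only at e1 e2 e3 e4 e5 e6 e7 e8 e9 e10 e11
  obtain ⟨a1, a2, a3, a4⟩ := mode_alg hre (ne_of_gt e8) (by linarith)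
  refine ⟨by rw [a1]; exact e1.le, by rw [a2]; exact e2.le, LL (Bt m3 z), CC (Bt m3 z), WW m3 z, Bt m3 z,
    e3.le, e4.le, e10.le, e11.le, e5.le, (lc_spec e6.le e9).1, (lc_spec e6.le e9).2, a3, a4⟩

end Pool.Agent.H77.TU.MODE
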