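import Pool.Agent.H77.TU.Stm

/-! TU-NEAR: both phases together. -/

set_option autoImplicit false

open Complex

namespace Pool.Agent.H77.TU.NEAR

open Pool.Agent.H3.TB Pool.Agent.H3.TB.NearAux

theorem shift {m12 m3 a : ℝ} {u v x y : ℝ → ℂ} (h : JSol m12 m3 a u v x y) (T : ℝ) :
    JSol m12 m3 a (fun t => u (t + T)) (fun t => v (t + T)) (fun t => x (t + T)) (fun t => y (t + T)) :=
  ⟨fun t => (h.du (t + T)).comp_add_const t T, fun t => (h.dv (t + T)).comp_add_const t T,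
    fun t => (h.dx (t + T)).comp_add_const t T, fun t => (h.dy (t + T)).comp_add_const t T⟩

/-- distances near the tube -/
theorem dist {a z r s1 : ℝ} {u v x y c u' x' : ℂ} (ha : |a - 19 / 82| ≤ 1 / 100) (hz : |z - 1 / 2| ≤ 1 / 100)
    (hr : r ≤ 1 / 1000) (hs : s1 ≤ 1 / 10 ^ 6)
    (h : InTube (1 + z - a) r u v x y c) (hu : ‖u' - u‖ ≤ 100 * s1) (hx : ‖x' - x‖ ≤ 100 * s1) :
    2 / 5 ≤ ‖u'‖ ∧ 2 / 5 ≤ ‖x' + (a : ℂ) * u'‖ ∧ 2 / 5 ≤ ‖x' - (1 - (a : ℂ)) * u'‖ := by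
  obtain ⟨hc, h1, -, h2, -⟩ := h
  obtain ⟨a1, a2⟩ := abs_le.1 ha
  obtain ⟨z1, z2⟩ := abs_le.1 hz
  have na : ‖(a : ℂ)‖ ≤ 1 := by
    rw [Complex.norm_real, Real.norm_eq_abs, abs_of_nonneg (by linarith)]
    linarith
  have nb : ‖1 - (a : ℂ)‖ ≤ 1 := by
    rw [← Complex.ofReal_one, ← Complex.ofReal_sub, Complex.norm_real, Real.norm_eq_abs, abs_of_nonneg (by linarith)]
    linarith
  have e1 : ‖u' - c‖ ≤ 1 / 500 := by
    have : u' - c = (u' - u) + (u - c) := by ring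
    rw [this]
    refine (norm_add_le _ _).trans ?_
    linarith
  have e2 : ‖x' - (1 + z - a : ℝ) * c‖ ≤ 1 / 500 := by
    have : x' - (1 + z - a : ℝ) * c = (x' - x) + (x - (1 + z - a : ℝ) * c) := by ring
    rw [this]
    refine (norm_add_le _ _).trans ?_
    linarith
  refine ⟨?_, ?_, ?_⟩
  · have h3 := norm_sub_norm_le c (c - u')
    rw [sub_sub_cancel, norm_sub_rev, hc] at h3
    linarith
  · have e3 : ‖((1 + z : ℝ) : ℂ) * c - (x' + (a : ℂ) * u')‖ ≤ 1 / 250 := by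
      have : ((1 + z : ℝ) : ℂ) * c - (x' + (a : ℂ) * u') =
        -((x' - (1 + z - a : ℝ) * c) + (a : ℂ) * (u' - c)) := by push_cast; ring
      rw [this, norm_neg]
      refine (norm_add_le _ _).trans ?_
      rw [norm_mul]
      nlinarith [norm_nonneg (u' - c), norm_nonneg (a : ℂ)]
    have h3 := norm_sub_norm_le (((1 + z : ℝ) : ℂ) * c) (((1 + z : ℝ) : ℂ) * c - (x' + (a : ℂ) * u'))
    rw [sub_sub_cancel, norm_mul, hc, mul_one, Complex.norm_real, Real.norm_eq_abs,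
      abs_of_nonneg (by linarith)] at h3
    linarith
  · have e3 : ‖(z : ℂ) * c - (x' - (1 - (a : ℂ)) * u')‖ ≤ 1 / 250 := by
      have : (z : ℂ) * c - (x' - (1 - (a : ℂ)) * u') =
        -((x' - (1 + z - a : ℝ) * c) - (1 - (a : ℂ)) * (u' - c)) := by push_cast; ring
      rw [this, norm_neg]
      refine (norm_sub_le _ _).trans ?_
      rw [norm_mul]
      nlinarith [norm_nonneg (u' - c), norm_nonneg (1 - (a : ℂ))]
    have h3 := norm_sub_norm_le ((z : ℂ) * c) ((z : ℂ) * c - (x' - (1 - (a : ℂ)) * u'))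
    rw [sub_sub_cancel, norm_mul, hc, mul_one, Complex.norm_real, Real.norm_eq_abs,
      abs_of_nonneg (by linarith)] at h3
    linarith

theorem main (h1 : S_PH1) (h2 : S_PH2) (hmode : S_MODE) : S_NEAR := by
  intro δ hδ
  obtain ⟨s1, hs0, hs1, η2, hη2, H2⟩ := h2 δ (10 ^ 15) hδ (by norm_num)
  have hs1' : s1 ≤ 1 / 10 ^ 24 := by refine hs1.trans (by norm_num)
  obtain ⟨η3, hη3, H3⟩ := hmode (min s1 δ) (lt_min hs0 hδ)
  set η : ℝ := min (min η2 η3) (s1 ^ 2) with hη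
  have hη0 : 0 < η := lt_min (lt_min hη2 hη3) (by positivity)
  have hηa : η ≤ η2 := (min_le_left _ _).trans (min_le_left _ _)
  have hηb : η ≤ η3 := (min_le_left _ _).trans (min_le_right _ _)
  have hηc : η ≤ s1 ^ 2 := min_le_right _ _
  have hs2 : s1 ^ 2 ≤ s1 := by
    norm_num at hs1'
    nlinarith
  have hηs : η ≤ s1 := hηc.trans hs2
  refine ⟨η, hη0, ?_⟩
  intro m12 m3 a z hre h3 h3' hz
  obtain ⟨g1, g2, -⟩ := H3 m12 m3 a z hre h3 (by linarith) (by linarith)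
  refine ⟨g1.trans (min_le_right _ _), g2.trans (min_le_right _ _), ?_⟩
  intro u v x y hj htube s hs
  have hpar : Par s1 m12 m3 a z := {
    e0 := hs0.le
    e1 := by refine hs1'.trans (by norm_num)
    h12 := g1.trans (min_le_left _ _)
    h3 := h3
    h3' := by linarith
    ha := g2.trans (min_le_left _ _)
    hz := by linarith }
  have hθ : (10 : ℝ) ^ 12 * (η + s1 + s1) ≤ 1 / 1000 := by
    norm_num at hs1' ⊢
    linarith
  have hmain : 100 * (η + 10 ^ 12 * (η + s1 + s1) * s1) ≤ 10 ^ 15 * s1 ^ 2 := by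
    have : (10 : ℝ) ^ 12 * (η + s1 + s1) * s1 ≤ 10 ^ 12 * (s1 + s1 + s1) * s1 := by gcongr
    nlinarith [sq_nonneg s1]
  obtain ⟨u', v', x', y', hj', b1, b2, b3, b4, T1, hT1, D1, c, hc, c1, c2, c3, c4⟩ :=
    h1 s1 η s1 (10 ^ 12 * (η + s1 + s1)) m12 m3 a z hpar hη0.le hs0 (hs1'.trans (by norm_num)) rfl hθ
      u v x y hj htube (min (s / 10) s1) (lt_min (by positivity) hs0) (min_le_right _ _)
  have hb : 10 * min (s / 10) s1 ≤ s := by
    have := min_le_left (s / 10) s1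
    linarith
  refine ⟨u', v', x', y', hj', b1.trans hb, b2.trans hb, b3.trans hb, b4.trans hb, ?_⟩
  obtain ⟨T2, hT2, D2, c', hc', d1, d2, d3, d4⟩ := H2 m12 m3 a z hre h3 (by linarith) (by linarith) _ _ _ _
    (shift hj' T1) c hc (by simpa only [zero_add] using c1.trans hmain)
      (by simpa only [zero_add] using c2.trans hmain) (by simpa only [zero_add] using c3.trans hmain)
      (by simpa only [zero_add] using c4.trans hmain)
  refine ⟨T2 + T1, by linarith, ?_, c', hc', d1, d2, d3, d4⟩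
  intro t ht
  by_cases htt : t ≤ T1
  · obtain ⟨p1, p2⟩ := D1 t ⟨ht.1, htt⟩
    obtain ⟨c'', hc''⟩ := htube t ht.1
    refine dist ?_ ?_ ?_ ?_ hc'' p1 p2
    · refine hpar.ha.trans (hs1'.trans (by norm_num))
    · refine hpar.hz.trans (hs1'.trans (by norm_num))
    · refine hηs.trans (hs1'.trans (by norm_num))
    · refine hs1'.trans (by norm_num)
  · push Not at htt
    have := D2 (t - T1) ⟨by linarith, by linarith [ht.2]⟩
    simpa only [sub_add_cancel] using this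

end Pool.Agent.H77.TU.NEAR
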