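import Pool.Agent.H77.TU.Stm
import Pool.Agent.H3.TB.Ode

/-! Stub TU-PH1 of project TU (MP_6e7c44_mp): the phase near the given solution. -/

set_option autoImplicit false

open Complex

namespace Pool.Agent.H77.TU.PH1

open Pool.Agent.H3.TB Pool.Agent.H3.TB.NearAux

theorem l0_lo : (1.5503853021 : ℝ) < l0 := by
  have := Mode.LL_lo
  unfold l0 be; exact this

theorem l0_hi : l0 < (1.5503853023 : ℝ) := by
  have := Mode.LL_hi
  unfold l0 be; exact this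

theorem c0_abs : |c0| ≤ 9 / 10 := by
  have h := Mode.CC_half
  have h2 : c0 = Mode.CC (256 / 123) := by unfold c0 be; rfl
  rw [h2, abs_le]
  rw [abs_lt] at h
  unfold cc at h
  constructor <;> linarith [h.1, h.2]

theorem nu2_nonneg : 0 ≤ nu2 := by
  have h := l0_lo
  have : (2 : ℝ) ≤ l0 ^ 2 := by nlinarith
  unfold nu2 be
  linarith

theorem QQ_nonneg (k q h e : ℂ) : 0 ≤ QQ k q h e := by
  have := nu2_nonneg
  unfold QQ
  positivity

theorem norm_gg : ‖gg c0‖ ≤ 19 / 10 := by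
  unfold gg
  calc ‖(1 : ℂ) + (c0 : ℂ) * I‖ ≤ ‖(1 : ℂ)‖ + ‖(c0 : ℂ) * I‖ := norm_add_le _ _
    _ = 1 + |c0| := by simp
    _ ≤ 19 / 10 := by linarith [c0_abs]

theorem norm_lg : ‖((l0 : ℂ) + I) * gg c0‖ ≤ 5 := by
  rw [norm_mul]
  have h1 : ‖(l0 : ℂ) + I‖ ≤ 26 / 10 := by
    calc ‖(l0 : ℂ) + I‖ ≤ ‖(l0 : ℂ)‖ + ‖I‖ := norm_add_le _ _
      _ = |l0| + 1 := by simp
      _ ≤ 26 / 10 := by rw [abs_of_pos (by linarith [l0_lo])]; linarith [l0_hi]
  have := norm_gg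
  calc ‖(l0 : ℂ) + I‖ * ‖gg c0‖ ≤ 26 / 10 * (19 / 10) := by
        apply mul_le_mul h1 this (norm_nonneg _) (by norm_num)
    _ ≤ 5 := by norm_num

theorem norm_conj_ge {c u : ℂ} {r : ℝ} (hc : ‖c‖ = 1) (hu : ‖u - c‖ ≤ r) (hr : r ≤ 1 / 100) :
    99 / 100 ≤ ‖(starRingEnd ℂ) u‖ := by
  rw [Complex.norm_conj]
  have : ‖c‖ ≤ ‖u‖ + ‖u - c‖ := by
    calc ‖c‖ = ‖u - (u - c)‖ := by congr 1; ring
      _ ≤ ‖u‖ + ‖u - c‖ := norm_sub_le _ _
  linarith

/-- passing from the rotating frame back to the fixed one -/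
theorem conv {c u D G : ℂ} {r M Gb : ℝ} (hc : ‖c‖ = 1) (hu : ‖u - c‖ ≤ r) (hr : r ≤ 1 / 100)
    (hD : ‖D * (starRingEnd ℂ) u - G‖ ≤ M) (hG : ‖G‖ ≤ Gb) :
    ‖D - c * G‖ ≤ (M + Gb * r) / (99 / 100) := by
  have h0 := norm_conj_ge hc hu hr
  have hcc : c * (starRingEnd ℂ) c = 1 := by
    rw [Complex.mul_conj, Complex.normSq_eq_norm_sq, hc]; norm_num
  have h1 : (D - c * G) * (starRingEnd ℂ) u = (D * (starRingEnd ℂ) u - G) - G * (c * (starRingEnd ℂ) (u - c)) := by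
    rw [map_sub]
    linear_combination (-G) * hcc
  have h2 : ‖(D - c * G) * (starRingEnd ℂ) u‖ ≤ M + Gb * r := by
    rw [h1]
    calc ‖(D * (starRingEnd ℂ) u - G) - G * (c * (starRingEnd ℂ) (u - c))‖
        ≤ ‖D * (starRingEnd ℂ) u - G‖ + ‖G * (c * (starRingEnd ℂ) (u - c))‖ := norm_sub_le _ _
      _ = ‖D * (starRingEnd ℂ) u - G‖ + ‖G‖ * ‖u - c‖ := by
          rw [norm_mul, norm_mul, Complex.norm_conj, hc, one_mul]
      _ ≤ M + Gb * r := by
          apply add_le_add hD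
          exact mul_le_mul hG hu (norm_nonneg _) (le_trans (norm_nonneg _) hG)
  rw [norm_mul] at h2
  rw [le_div_iff₀ (by norm_num)]
  calc ‖D - c * G‖ * (99 / 100) ≤ ‖D - c * G‖ * ‖(starRingEnd ℂ) u‖ :=
        mul_le_mul_of_nonneg_left h0 (norm_nonneg _)
    _ ≤ _ := h2

theorem sg_sub (h e g f : ℂ) : sg (h - g) (e - f) = sg h e - sg g f := by
  unfold sg ff fh; simp only [sub_re, sub_im]; ring
theorem ta_sub (h e g f : ℂ) : ta (h - g) (e - f) = ta h e - ta g f := by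
  unfold ta ff fh; simp only [sub_re, sub_im]; ring
theorem pp_sub (h e g f : ℂ) : pp (h - g) (e - f) = pp h e - pp g f := by
  unfold pp; simp only [sub_re, sub_im]; ring
theorem ph_sub (h e g f : ℂ) : ph (h - g) (e - f) = ph h e - ph g f := by
  unfold ph; simp only [sub_re, sub_im]; ring

theorem QQ_sub {k q h e g f : ℂ} (h1 : ta g f = 0) (h2 : pp g f = 0) (h3 : ph g f = 0) :
    QQ k q (h - g) (e - f) = QQ k q h e := by
  unfold QQ; rw [ta_sub, pp_sub, ph_sub, h1, h2, h3]; simp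

/-- the size of a perturbation in the cone -/
theorem NN_cone (F0 : S_FUN0) {k q h e : ℂ} {θ : ℝ} (hθ0 : 0 ≤ θ) (hθ : θ ≤ 1 / 1000)
    (hσ : 0 < sg h e) (hQ : QQ k q h e ≤ θ ^ 2 * sg h e ^ 2) :
    Real.sqrt (QQ k q h e) ≤ θ * sg h e ∧ NN k q h e ≤ 1004 / 1000 * sg h e := by
  have h1 : Real.sqrt (QQ k q h e) ≤ θ * sg h e := by
    rw [Real.sqrt_le_left (by positivity)]
    nlinarith
  refine ⟨h1, ?_⟩
  have h2 := F0.1 k q h e
  rw [abs_of_pos hσ] at h2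
  nlinarith

/-- the differential inequalities in the cone -/
theorem step (F0 : S_FUN0) {k q h e : ℂ} {r s1 ε θ s' Q' D : ℝ} (hr : 0 ≤ r) (hs1 : 0 < s1) (hε : 0 ≤ ε)
    (hθ : θ = 10 ^ 12 * (r + s1 + ε)) (hθ1 : θ ≤ 1 / 1000)
    (hσ : 0 < sg h e) (hσ1 : sg h e ≤ s1 * sG) (hQ : QQ k q h e ≤ θ ^ 2 * sg h e ^ 2)
    (hD : D = 10 ^ 6 * (r + NN k q h e + ε))
    (hs' : |s' - l0 * sg h e| ≤ 17 * D * NN k q h e + 14 / 1000 * Real.sqrt (QQ k q h e))
    (hQ' : Q' ≤ (2 * Real.sqrt 2 + 52 / 1000) * QQ k q h e + 5058 * D * Real.sqrt (QQ k q h e) * NN k q h e) :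
    3 / 2 * sg h e ≤ s' ∧ Q' < 2 * θ ^ 2 * sg h e * s' := by
  have hθ0 : 0 < θ := by rw [hθ]; positivity
  obtain ⟨hw, hN⟩ := NN_cone F0 hθ0.le hθ1 hσ hQ
  have hw0 : 0 ≤ Real.sqrt (QQ k q h e) := Real.sqrt_nonneg _
  have hwQ : Real.sqrt (QQ k q h e) ^ 2 = QQ k q h e := Real.sq_sqrt (QQ_nonneg _ _ _ _)
  set w := Real.sqrt (QQ k q h e) with hwdef
  have hN0 : 0 ≤ NN k q h e := by unfold NN; positivity
  set N := NN k q h e with hNdef
  set σ := sg h e with hσdef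
  have hsG := F0.2.2.2
  have hN1 : N ≤ 1506 / 100 * s1 := by nlinarith
  have hD0 : 0 ≤ D := by rw [hD]; positivity
  have hD1 : D ≤ 1506 / 10 ^ 8 * θ := by
    rw [hD, hθ]
    nlinarith
  have hDN : D * N ≤ 1506 / 10 ^ 8 * θ * (1004 / 1000 * σ) :=
    mul_le_mul hD1 hN hN0 (by positivity)
  have hsq2 : Real.sqrt 2 ≤ 141422 / 100000 := by
    rw [Real.sqrt_le_left (by norm_num)]; norm_num
  have hs3 : 3 / 2 * σ ≤ s' := by
    have h1 := (abs_le.1 hs').1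
    have h2 := l0_lo
    have h3 : θ * σ ≤ 1 / 1000 * σ := mul_le_mul_of_nonneg_right hθ1 hσ.le
    have h4 : (1.55 : ℝ) * σ ≤ l0 * σ := mul_le_mul_of_nonneg_right (by linarith) hσ.le
    have h5 : 17 * D * N ≤ 17 * (1506 / 10 ^ 8 * (1004 / 1000)) * (θ * σ) := by nlinarith
    nlinarith
  refine ⟨hs3, ?_⟩
  have hX : 0 < θ ^ 2 * σ ^ 2 := by positivity
  have h1 : (2 * Real.sqrt 2 + 52 / 1000) * QQ k q h e ≤ (288045 / 100000) * (θ ^ 2 * σ ^ 2) := by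
    apply mul_le_mul (by linarith) hQ (QQ_nonneg _ _ _ _) (by norm_num)
  have h2 : D * w * N ≤ (1506 / 10 ^ 8 * θ) * (θ * σ) * (1004 / 1000 * σ) := by
    apply mul_le_mul _ hN hN0 (by positivity)
    exact mul_le_mul hD1 hw hw0 (by positivity)
  have h3 : 5058 * D * w * N ≤ 77 / 1000 * (θ ^ 2 * σ ^ 2) := by
    calc 5058 * D * w * N = 5058 * (D * w * N) := by ring
      _ ≤ 5058 * ((1506 / 10 ^ 8 * θ) * (θ * σ) * (1004 / 1000 * σ)) := by linarith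
      _ = (5058 * 1506 / 10 ^ 8 * (1004 / 1000)) * (θ ^ 2 * σ ^ 2) := by ring
      _ ≤ 77 / 1000 * (θ ^ 2 * σ ^ 2) := by
          apply mul_le_mul_of_nonneg_right _ hX.le
          norm_num
  have h4 : 3 * (θ ^ 2 * σ ^ 2) ≤ 2 * θ ^ 2 * σ * s' := by
    have : 2 * θ ^ 2 * σ * (3 / 2 * σ) ≤ 2 * θ ^ 2 * σ * s' := mul_le_mul_of_nonneg_left hs3 (by positivity)
    calc 3 * (θ ^ 2 * σ ^ 2) = 2 * θ ^ 2 * σ * (3 / 2 * σ) := by ring
      _ ≤ _ := this
  calc Q' ≤ (2 * Real.sqrt 2 + 52 / 1000) * QQ k q h e + 5058 * D * w * N := hQ'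
    _ ≤ (288045 / 100000) * (θ ^ 2 * σ ^ 2) + 77 / 1000 * (θ ^ 2 * σ ^ 2) := add_le_add h1 h3
    _ < 3 * (θ ^ 2 * σ ^ 2) := by nlinarith
    _ ≤ _ := h4

theorem continuous_sg {h e : ℝ → ℂ} (hh : Continuous h) (he : Continuous e) : Continuous (fun t => sg (h t) (e t)) := by
  unfold sg ff fh
  fun_prop

theorem continuous_QQ {k q h e : ℝ → ℂ} (hk : Continuous k) (hq : Continuous q) (hh : Continuous h)
    (he : Continuous e) : Continuous (fun t => QQ (k t) (q t) (h t) (e t)) := by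
  unfold QQ ta pp ph ff fh
  fun_prop

theorem main : S_DIFF → S_FUN0 → S_FUN1 → S_ABS → S_PH1 := by
  intro hDIFF F0 F1 hABS ε r s1 θ m12 m3 a z hP hr hs1 hs1' hθ hθ1 u v x y hJ hT s hs hss
  have hε := hP.e0
  have hsum : r + s1 + ε ≤ 1 / 10 ^ 15 := by
    have : (10 : ℝ) ^ 12 * (r + s1 + ε) ≤ 1 / 1000 := by rw [← hθ]; exact hθ1
    have h2 : (10 : ℝ) ^ 12 * (r + s1 + ε) ≤ 10 ^ 12 * (1 / 10 ^ 15) := by
      refine this.trans (by norm_num)
    exact le_of_mul_le_mul_left h2 (by norm_num)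
  have hr6 : r ≤ 1 / 10 ^ 6 := by
    have : (1 : ℝ) / 10 ^ 15 ≤ 1 / 10 ^ 6 := by norm_num
    linarith
  have hr2 : r ≤ 1 / 100 := by
    have : (1 : ℝ) / 10 ^ 6 ≤ 1 / 100 := by norm_num
    linarith
  have hθ0 : 0 < θ := by rw [hθ]; positivity
  have hsG1 := F0.2.2.1
  have hsG2 := F0.2.2.2
  -- the initial value
  obtain ⟨c₀, hc₀, hu₀, -, -, -⟩ := hT 0 le_rfl
  have hn0 := norm_conj_ge hc₀ hu₀ hr2
  have hne : (starRingEnd ℂ) (u 0) ≠ 0 := by
    rw [← norm_pos_iff]; linarith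
  obtain ⟨u', v', x', y', hJ', hu'0, hv'0, hx'0, hy'0⟩ := exists_jsol m12 m3 a (u 0) (v 0)
    (x 0 + s * gg c0 / (starRingEnd ℂ) (u 0)) (y 0 + s * ((l0 + I) * gg c0) / (starRingEnd ℂ) (u 0))
  refine ⟨u', v', x', y', hJ', ?_, ?_, ?_, ?_, ?_⟩
  · rw [hu'0]; simp; positivity
  · rw [hv'0]; simp; positivity
  · rw [hx'0, add_sub_cancel_left, norm_div, norm_mul, Complex.norm_real, Real.norm_of_nonneg hs.le,
      div_le_iff₀ (by linarith)]
    have := norm_gg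
    nlinarith
  · rw [hy'0, add_sub_cancel_left, norm_div, norm_mul, Complex.norm_real, Real.norm_of_nonneg hs.le,
      div_le_iff₀ (by linarith)]
    have := norm_lg
    nlinarith
  -- the coordinates
  set k : ℝ → ℂ := fun t => (u' t - u t) * (starRingEnd ℂ) (u t) with hk
  set q : ℝ → ℂ := fun t => (v' t - v t) * (starRingEnd ℂ) (u t) with hq
  set h : ℝ → ℂ := fun t => (x' t - x t) * (starRingEnd ℂ) (u t) with hh
  set e : ℝ → ℂ := fun t => (y' t - y t) * (starRingEnd ℂ) (u t) with he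
  have cu : Continuous u := continuous_iff_continuousAt.2 fun t => (hJ.du t).continuousAt
  have cv : Continuous v := continuous_iff_continuousAt.2 fun t => (hJ.dv t).continuousAt
  have cx : Continuous x := continuous_iff_continuousAt.2 fun t => (hJ.dx t).continuousAt
  have cy : Continuous y := continuous_iff_continuousAt.2 fun t => (hJ.dy t).continuousAt
  have cu' : Continuous u' := continuous_iff_continuousAt.2 fun t => (hJ'.du t).continuousAt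
  have cv' : Continuous v' := continuous_iff_continuousAt.2 fun t => (hJ'.dv t).continuousAt
  have cx' : Continuous x' := continuous_iff_continuousAt.2 fun t => (hJ'.dx t).continuousAt
  have cy' : Continuous y' := continuous_iff_continuousAt.2 fun t => (hJ'.dy t).continuousAt
  have cc : Continuous fun t => (starRingEnd ℂ) (u t) := Complex.continuous_conj.comp cu
  have ck : Continuous k := (cu'.sub cu).mul cc
  have cq : Continuous q := (cv'.sub cv).mul cc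
  have ch : Continuous h := (cx'.sub cx).mul cc
  have ce : Continuous e := (cy'.sub cy).mul cc
  have hk0 : k 0 = 0 := by simp [hk, hu'0]
  have hq0 : q 0 = 0 := by simp [hq, hv'0]
  have hh0 : h 0 = s * gg c0 := by
    simp only [hh, hx'0]; field_simp; ring
  have he0 : e 0 = s * ((l0 + I) * gg c0) := by
    simp only [he, hy'0]; field_simp; ring
  obtain ⟨hv1, hv2, hv3, hv4⟩ := F0.2.1 s
  obtain ⟨T, hT0, hTs, hTr⟩ := hABS (fun t => sg (h t) (e t)) (fun t => QQ (k t) (q t) (h t) (e t)) (s1 * sG) θ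
    (by positivity) hθ0 (fun t => QQ_nonneg _ _ _ _)
    (by simp only [hh0, he0, hv1]; positivity)
    (by simp only [hh0, he0, hv1]; exact mul_le_mul_of_nonneg_right hss (by linarith))
    (by
      have : QQ (k 0) (q 0) (h 0) (e 0) = 0 := by
        unfold QQ; rw [hh0, he0, hv2, hv3, hv4, hk0, hq0]; simp
      simp only [this]; positivity)
    (continuous_sg ch ce).continuousOn (continuous_QQ ck cq ch ce).continuousOn
    (by
      intro t ht hσ hσ1 hQ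
      obtain ⟨c, hc⟩ := hT t ht
      obtain ⟨hw, hN⟩ := NN_cone F0 hθ0.le hθ1 hσ hQ
      have hN6 : NN (k t) (q t) (h t) (e t) ≤ 1 / 10 ^ 6 := by
        have h1 : sg (h t) (e t) ≤ s1 * 15 := hσ1.trans (mul_le_mul_of_nonneg_left hsG2 hs1.le)
        have h2 : s1 * 15 ≤ 1 / 10 ^ 8 * 15 := by linarith
        have h3 : (1004 / 1000 : ℝ) * (1 / 10 ^ 8 * 15) ≤ 1 / 10 ^ 6 := by norm_num
        have h4 := h1.trans h2
        linarith
      obtain ⟨e1, e2, e3, e4, d1, d2, d3, d4, b1, b2, b3, b4⟩ :=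
        hDIFF ε r m12 m3 a z hP hr hr6 u v x y u' v' x' y' hJ hJ' t c (k t) (q t) (h t) (e t) hc rfl rfl rfl rfl hN6
      have hN0 : 0 ≤ NN (k t) (q t) (h t) (e t) := by unfold NN; positivity
      obtain ⟨s', Q', D1, D2, D3, D4⟩ := F1 k q h e t (10 ^ 6 * (r + NN (k t) (q t) (h t) (e t) + ε)) e1 e2 e3 e4
        (by positivity) d1 d2 d3 d4 b1 b2 b3 b4
      obtain ⟨S1, S2⟩ := step F0 hr hs1 hε hθ hθ1 hσ hσ1 hQ rfl D3 D4
      exact ⟨s', Q', D1, D2, S1, S2⟩)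
  refine ⟨T, hT0, ?_, ?_⟩
  · intro t ht
    obtain ⟨hσ, hσ1, hQ⟩ := hTr t ht
    obtain ⟨hw, hN⟩ := NN_cone F0 hθ0.le hθ1 hσ hQ
    obtain ⟨c, hc, huc, -, -, -⟩ := hT t ht.1
    have hN1 : NN (k t) (q t) (h t) (e t) ≤ 16 * s1 := by
      have h1 : sg (h t) (e t) ≤ s1 * 15 := hσ1.trans (mul_le_mul_of_nonneg_left hsG2 hs1.le)
      linarith
    unfold NN at hN1
    have nk := norm_nonneg (k t)
    have nq := norm_nonneg (q t)
    have nh := norm_nonneg (h t)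
    have ne := norm_nonneg (e t)
    have hk1 : ‖(u' t - u t) * (starRingEnd ℂ) (u t) - 0‖ ≤ 16 * s1 := by
      rw [sub_zero]; change ‖k t‖ ≤ _; linarith
    have hh1 : ‖(x' t - x t) * (starRingEnd ℂ) (u t) - 0‖ ≤ 16 * s1 := by
      rw [sub_zero]; change ‖h t‖ ≤ _; linarith
    have r1 := conv hc huc hr2 hk1 (le_of_eq norm_zero)
    have r2 := conv hc huc hr2 hh1 (le_of_eq norm_zero)
    rw [mul_zero, sub_zero, zero_mul, add_zero] at r1 r2
    have h16 : 16 * s1 / (99 / 100) ≤ 100 * s1 := by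
      rw [div_le_iff₀ (by norm_num)]; linarith
    exact ⟨r1.trans h16, r2.trans h16⟩
  -- at the exit
  obtain ⟨c, hc, huc, hvc, hxc, hyc⟩ := hT T hT0
  obtain ⟨hσ, hσ1, hQ⟩ := hTr T ⟨hT0, le_rfl⟩
  obtain ⟨w1, w2, w3, w4⟩ := F0.2.1 s1
  have hTs' : sg (h T) (e T) = s1 * sG := hTs
  have hsg0 : sg (h T - s1 * gg c0) (e T - s1 * ((l0 + I) * gg c0)) = 0 := by
    rw [sg_sub, w1, hTs']; ring
  have hQQ := QQ_sub (k := k T) (q := q T) (h := h T) (e := e T) w2 w3 w4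
  have hN := F0.1 (k T) (q T) (h T - s1 * gg c0) (e T - s1 * ((l0 + I) * gg c0))
  rw [hsg0, abs_zero, zero_add, hQQ] at hN
  obtain ⟨hw, -⟩ := NN_cone F0 hθ0.le hθ1 hσ hQ
  have hN60 : NN (k T) (q T) (h T - s1 * gg c0) (e T - s1 * ((l0 + I) * gg c0)) ≤ 60 * (θ * s1) := by
    have h1 : sg (h T) (e T) ≤ s1 * 15 := hσ1.trans (mul_le_mul_of_nonneg_left hsG2 hs1.le)
    have h2 : θ * sg (h T) (e T) ≤ θ * (s1 * 15) := mul_le_mul_of_nonneg_left h1 hθ0.le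
    nlinarith
  unfold NN at hN60
  have nk := norm_nonneg (k T)
  have nq := norm_nonneg (q T)
  have nh := norm_nonneg (h T - s1 * gg c0)
  have ne := norm_nonneg (e T - s1 * ((l0 + I) * gg c0))
  have hX0 : 0 ≤ θ * s1 := by positivity
  have k1 : ‖(u' T - u T) * (starRingEnd ℂ) (u T) - 0‖ ≤ 60 * (θ * s1) := by
    rw [sub_zero]; change ‖k T‖ ≤ _; linarith
  have k2 : ‖(v' T - v T) * (starRingEnd ℂ) (u T) - 0‖ ≤ 60 * (θ * s1) := by
    rw [sub_zero]; change ‖q T‖ ≤ _; linarith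
  have k3 : ‖(x' T - x T) * (starRingEnd ℂ) (u T) - s1 * gg c0‖ ≤ 60 * (θ * s1) := by
    change ‖h T - _‖ ≤ _; linarith
  have k4 : ‖(y' T - y T) * (starRingEnd ℂ) (u T) - s1 * ((l0 + I) * gg c0)‖ ≤ 60 * (θ * s1) := by
    change ‖e T - _‖ ≤ _; linarith
  have r1 := conv hc huc hr2 k1 (le_of_eq norm_zero)
  have r2 := conv hc huc hr2 k2 (le_of_eq norm_zero)
  rw [mul_zero, sub_zero, zero_mul, add_zero] at r1 r2
  have hs11 : s1 ≤ 1 := by
    have : (1 : ℝ) / 10 ^ 8 ≤ 1 := by norm_num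
    linarith
  have g3 : ‖(s1 : ℂ) * gg c0‖ ≤ 5 := by
    rw [norm_mul, Complex.norm_real, Real.norm_of_nonneg hs1.le]
    have := norm_gg
    have h0 := norm_nonneg (gg c0)
    nlinarith
  have g4 : ‖(s1 : ℂ) * ((l0 + I) * gg c0)‖ ≤ 5 := by
    rw [norm_mul, Complex.norm_real, Real.norm_of_nonneg hs1.le]
    have := norm_lg
    have h0 := norm_nonneg (((l0 : ℂ) + I) * gg c0)
    nlinarith
  have r3 := conv hc huc hr2 k3 g3
  have r4 := conv hc huc hr2 k4 g4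
  have hb0 : 60 * (θ * s1) / (99 / 100) ≤ 61 * (θ * s1) := by
    rw [div_le_iff₀ (by norm_num)]; linarith
  have hb5 : (60 * (θ * s1) + 5 * r) / (99 / 100) ≤ 61 * (θ * s1) + 6 * r := by
    rw [div_le_iff₀ (by norm_num)]; linarith
  refine ⟨c, hc, ?_, ?_, ?_, ?_⟩
  · calc ‖u' T - c‖ = ‖(u' T - u T) + (u T - c)‖ := by congr 1; ring
      _ ≤ ‖u' T - u T‖ + ‖u T - c‖ := norm_add_le _ _
      _ ≤ 100 * (r + θ * s1) := by linarith
  · calc ‖v' T - I * c‖ = ‖(v' T - v T) + (v T - I * c)‖ := by congr 1; ring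
      _ ≤ ‖v' T - v T‖ + ‖v T - I * c‖ := norm_add_le _ _
      _ ≤ 100 * (r + θ * s1) := by linarith
  · calc ‖x' T - c * ((1 + z - a : ℝ) + s1 * gg c0)‖
        = ‖((x' T - x T) - c * (s1 * gg c0)) + (x T - ((1 + z - a : ℝ) : ℂ) * c)‖ := by congr 1; ring
      _ ≤ ‖(x' T - x T) - c * (s1 * gg c0)‖ + ‖x T - ((1 + z - a : ℝ) : ℂ) * c‖ := norm_add_le _ _
      _ ≤ 100 * (r + θ * s1) := by linarith
  · calc ‖y' T - c * (I * (1 + z - a : ℝ) + s1 * ((I + l0) * gg c0))‖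
        = ‖((y' T - y T) - c * (s1 * ((l0 + I) * gg c0))) + (y T - I * (((1 + z - a : ℝ) : ℂ) * c))‖ := by
          congr 1; ring
      _ ≤ ‖(y' T - y T) - c * (s1 * ((l0 + I) * gg c0))‖ + ‖y T - I * (((1 + z - a : ℝ) : ℂ) * c)‖ := norm_add_le _ _
      _ ≤ 100 * (r + θ * s1) := by linarith

end Pool.Agent.H77.TU.PH1
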