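import Pool.Agent.H77.TU.Stm

/-! TU-PH2: from amplitude `s1` to amplitude `10⁻⁹`. -/

set_option autoImplicit false

open Complex

namespace Pool.Agent.H77.TU.PH2

open Pool.Agent.H3.TB Pool.Agent.H3.TB.NearAux

theorem rot {m12 m3 a : ℝ} {u v x y : ℝ → ℂ} (h : JSol m12 m3 a u v x y) {c : ℂ} (hc : ‖c‖ = 1) :
    JSol m12 m3 a (fun t => c * u t) (fun t => c * v t) (fun t => c * x t) (fun t => c * y t) := by
  refine ⟨fun t => (h.du t).const_mul c, fun t => ?_, fun t => (h.dx t).const_mul c, fun t => ?_⟩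
  · rw [NearAux.fu_rot hc]; exact (h.dv t).const_mul c
  · rw [NearAux.fx_rot hc]; exact (h.dy t).const_mul c

theorem gg_sub (c c' : ℝ) : ‖gg c - gg c'‖ = |c - c'| := by
  have : gg c - gg c' = ((c - c' : ℝ) : ℂ) * I := by rw [gg, gg]; push_cast; ring
  rw [this, norm_mul, norm_I, mul_one, Complex.norm_real, Real.norm_eq_abs]

theorem gg0_le : ‖gg c0‖ ≤ 134 / 100 := by
  have h := Mode.CC_half
  have h1 := gg_normSq c0
  have h2 : |c0 - cc| < 1 / 10 ^ 9 := h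
  have h3 : c0 ^ 2 ≤ 795 / 1000 := by
    obtain ⟨a1, a2⟩ := abs_lt.1 h2
    unfold cc at a1 a2
    norm_num at a1 a2
    nlinarith
  by_contra hh
  push Not at hh
  nlinarith

/-- multiplication by the conjugate of a unit -/
theorem cj {c : ℂ} (hc : ‖c‖ = 1) : (starRingEnd ℂ) c * c = 1 := by
  rw [mul_comm, Complex.mul_conj, Complex.normSq_eq_norm_sq, hc]; simp

theorem cj_sub {c : ℂ} (hc : ‖c‖ = 1) (X Y : ℂ) : ‖(starRingEnd ℂ) c * X - Y‖ = ‖X - c * Y‖ := by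
  have h1 : (starRingEnd ℂ) c * X - Y = (starRingEnd ℂ) c * (X - c * Y) := by
    linear_combination Y * cj hc
  rw [h1, norm_mul, RCLike.norm_conj, hc, one_mul]

/-- the case `c = 1` -/
theorem core (hbar : S_BAR) {δ K σ kap ε m12 m3 a z l c w β : ℝ} (hδ : 0 < δ) (hK : 1 ≤ K)
    (hkap : kap = 100 + 1 / δ) (hσ : σ = 1 / (3 * kap * (K + 10))) 
    (h : NP ε kap m12 m3 a z l c w β) (hε : ε ≤ 1 / 10 ^ 9 * σ ^ 5) (hεδ : ε ≤ δ) (hl : |l - l0| ≤ ε)
    (hc : |c - c0| ≤ ε) {u v x y : ℝ → ℂ} (hj : JSol m12 m3 a u v x y)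
    (hu : ‖u 0 - 1‖ ≤ K * (1 / 10 ^ 9 * σ ^ 5) ^ 2) (hv : ‖v 0 - I‖ ≤ K * (1 / 10 ^ 9 * σ ^ 5) ^ 2)
    (hx : ‖x 0 - ((1 + z - a : ℝ) + (1 / 10 ^ 9 * σ ^ 5 : ℝ) * gg c0)‖ ≤ K * (1 / 10 ^ 9 * σ ^ 5) ^ 2)
    (hy : ‖y 0 - (I * (1 + z - a : ℝ) + (1 / 10 ^ 9 * σ ^ 5 : ℝ) * ((I + l0) * gg c0))‖ ≤
      K * (1 / 10 ^ 9 * σ ^ 5) ^ 2) :
    ∃ T : ℝ, 0 ≤ T ∧
    (∀ t ∈ Set.Icc 0 T, 2 / 5 ≤ ‖u t‖ ∧ 2 / 5 ≤ ‖x t + (a : ℂ) * u t‖ ∧ 2 / 5 ≤ ‖x t - (1 - (a : ℂ)) * u t‖) ∧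
    ‖u T - cexp (I * T)‖ ≤ δ ∧ ‖v T - I * cexp (I * T)‖ ≤ δ ∧
    ‖x T - cexp (I * T) * Z0‖ ≤ 8 / 10 ^ 17 ∧ ‖y T - cexp (I * T) * Z1‖ ≤ 16 / 10 ^ 17 := by
  have hk1 : 0 < 1 / δ := by positivity
  have hk100 : 100 ≤ kap := by linarith
  have hk0 : 0 < kap := by linarith
  have hkδ : 1 ≤ kap * δ := by
    rw [hkap, add_mul, one_div, inv_mul_cancel₀ hδ.ne']
    nlinarith
  have hD : 0 < 3 * kap * (K + 10) := by positivity
  have hσ0 : 0 < σ := by rw [hσ]; positivity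
  have hDσ : 3 * kap * (K + 10) * σ = 1 := by rw [hσ]; field_simp
  have hD1 : 3000 ≤ 3 * kap * (K + 10) := by nlinarith
  have hσ1 : σ ≤ 1 / 3000 := by
    rw [hσ]
    exact one_div_le_one_div_of_le (by norm_num) hD1
  set s : ℝ := 1 / 10 ^ 9 * σ ^ 5 with hs
  have hs0 : 0 < s := by positivity
  have bl := h.bl
  have he0 := h.e0
  have hl0 : 0 < l := by linarith
  set T : ℝ := 5 * Real.log (1 / σ) / l with hT
  have hlog : 0 ≤ Real.log (1 / σ) := by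
    apply Real.log_nonneg
    rw [le_div_iff₀ hσ0]
    linarith
  have hT0 : 0 ≤ T := by rw [hT]; positivity
  have hlT : l * T = 5 * Real.log (1 / σ) := by rw [hT]; field_simp
  have hTe : s * Real.exp (l * T) = 1 / 10 ^ 9 := by
    rw [hlT, show 5 * Real.log (1 / σ) = ((5 : ℕ) : ℝ) * Real.log (1 / σ) by norm_num, Real.exp_nat_mul,
      Real.exp_log (by positivity), hs]
    field_simp
  have hTt : ∀ t ∈ Set.Icc 0 T, s * Real.exp (l * t) ≤ 1 / 10 ^ 9 := by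
    intro t ht
    rw [← hTe]
    have := ht.2
    gcongr
  set E : ℝ := 3 * kap * (K + 10) * s ^ 2 with hE
  have hE0 : 0 ≤ E := by positivity
  have hET : E * Real.exp (21 / 10 * T) ≤ 1 / 10 ^ 18 := by
    have h1 : 21 / 10 * T ≤ ((7 : ℕ) : ℝ) * Real.log (1 / σ) := by
      have : ((7 : ℕ) : ℝ) * Real.log (1 / σ) = 7 / 5 * (l * T) := by rw [hlT]; push_cast; ring
      rw [this]
      nlinarith
    have h2 : Real.exp (21 / 10 * T) ≤ (1 / σ) ^ 7 := by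
      calc Real.exp (21 / 10 * T) ≤ Real.exp (((7 : ℕ) : ℝ) * Real.log (1 / σ)) := Real.exp_le_exp.2 h1
        _ = _ := by rw [Real.exp_nat_mul, Real.exp_log (by positivity)]
    calc E * Real.exp (21 / 10 * T) ≤ E * (1 / σ) ^ 7 := by gcongr
      _ = 1 / 10 ^ 18 * (3 * kap * (K + 10) * σ) * σ ^ 2 := by
          rw [hE, hs]; field_simp; try ring
      _ = 1 / 10 ^ 18 * σ ^ 2 := by rw [hDσ, mul_one]
      _ ≤ 1 / 10 ^ 18 * 1 := by
          have : σ ^ 2 ≤ 1 := by nlinarith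
          gcongr
      _ = _ := by ring
  have hEt : ∀ t ∈ Set.Icc 0 T, E * Real.exp (21 / 10 * t) ≤ 1 / 10 ^ 18 := by
    intro t ht
    refine le_trans ?_ hET
    have := ht.2
    gcongr
  have hEt' : ∀ t ∈ Set.Icc 0 T, E * Real.exp (21 / 10 * t) ≤ 1 / 10 ^ 17 := by
    intro t ht
    refine (hEt t ht).trans (by norm_num)
  -- initial errors
  have bg := h.bg
  have g0 := gg0_le
  have hw := h.hw
  have nc : ‖gg c - gg c0‖ ≤ ε := by rw [gg_sub]; exact hc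
  have hIl : ‖(I + l : ℂ)‖ ≤ 26 / 10 := by
    refine (norm_add_le _ _).trans ?_
    rw [norm_I, Complex.norm_real, Real.norm_eq_abs, abs_of_nonneg (by linarith)]
    linarith
  have hεs : s * ε ≤ s ^ 2 := by rw [sq]; gcongr
  have ap0 : ∀ X g : ℂ, ap s l X g 0 = X + (s : ℂ) * g := by
    intro X g; rw [ap]; simp
  have nw : ‖(w : ℂ) * gg c‖ ≤ ε * (134 / 100) := by
    rw [norm_mul, Complex.norm_real, Real.norm_eq_abs]
    gcongr
  have i1 : ‖x 0 - ap s l ((1 + z - a : ℝ) : ℂ) (gg c) 0‖ ≤ (K + 10) * s ^ 2 := by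
    rw [ap0]
    have e : x 0 - (((1 + z - a : ℝ) : ℂ) + (s : ℂ) * gg c) = (x 0 - (((1 + z - a : ℝ) : ℂ) + (s : ℂ) * gg c0)) -
      (s : ℂ) * (gg c - gg c0) := by ring
    rw [e]
    refine (norm_sub_le _ _).trans ?_
    have : ‖(s : ℂ) * (gg c - gg c0)‖ ≤ s * ε := by
      rw [norm_mul, Complex.norm_real, Real.norm_eq_abs, abs_of_pos hs0]
      gcongr
    linarith [hx, this, hεs, sq_nonneg s]
  have i2 : ‖y 0 - ap s l (I * ((1 + z - a : ℝ) : ℂ)) ((I + l) * gg c) 0‖ ≤ (K + 10) * s ^ 2 := by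
    rw [ap0]
    have e : y 0 - (I * ((1 + z - a : ℝ) : ℂ) + (s : ℂ) * ((I + l) * gg c)) =
      (y 0 - (I * ((1 + z - a : ℝ) : ℂ) + (s : ℂ) * ((I + l0) * gg c0))) -
      (s : ℂ) * ((I + l) * (gg c - gg c0) + ((l - l0 : ℝ) : ℂ) * gg c0) := by push_cast; ring
    rw [e]
    refine (norm_sub_le _ _).trans ?_
    have : ‖(s : ℂ) * ((I + l) * (gg c - gg c0) + ((l - l0 : ℝ) : ℂ) * gg c0)‖ ≤
        s * (26 / 10 * ε + ε * (134 / 100)) := by
      rw [norm_mul, Complex.norm_real, Real.norm_eq_abs, abs_of_pos hs0]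
      refine mul_le_mul_of_nonneg_left ((norm_add_le _ _).trans ?_) hs0.le
      rw [norm_mul, norm_mul, Complex.norm_real, Real.norm_eq_abs]
      gcongr
    linarith [hy, this, hεs, sq_nonneg s]
  have i3 : ‖u 0 - ap s l 1 ((w : ℂ) * gg c) 0‖ ≤ (K + 10) * s ^ 2 := by
    rw [ap0]
    have e : u 0 - (1 + (s : ℂ) * ((w : ℂ) * gg c)) = (u 0 - 1) - (s : ℂ) * ((w : ℂ) * gg c) := by ring
    rw [e]
    refine (norm_sub_le _ _).trans ?_
    have : ‖(s : ℂ) * ((w : ℂ) * gg c)‖ ≤ s * (ε * (134 / 100)) := by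
      rw [norm_mul, Complex.norm_real, Real.norm_eq_abs, abs_of_pos hs0]
      gcongr
    linarith [hu, this, hεs, sq_nonneg s]
  have i4 : ‖v 0 - ap s l (I * 1) ((I + l) * ((w : ℂ) * gg c)) 0‖ ≤ (K + 10) * s ^ 2 := by
    rw [ap0]
    have e : v 0 - (I * 1 + (s : ℂ) * ((I + l) * ((w : ℂ) * gg c))) =
      (v 0 - I) - (s : ℂ) * ((I + l) * ((w : ℂ) * gg c)) := by ring
    rw [e]
    refine (norm_sub_le _ _).trans ?_
    have : ‖(s : ℂ) * ((I + l) * ((w : ℂ) * gg c))‖ ≤ s * (26 / 10 * (ε * (134 / 100))) := by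
      rw [norm_mul, Complex.norm_real, Real.norm_eq_abs, abs_of_pos hs0, norm_mul (I + (l : ℂ))]
      gcongr
    linarith [hv, this, hεs, sq_nonneg s]
  have hP0 : 0 ≤ (K + 10) * s ^ 2 := by positivity
  have hEe : E = 3 * kap * ((K + 10) * s ^ 2) := by rw [hE]; ring
  have bar := hbar ε kap m12 m3 a z l c w β h hk100 s E T hs0 hE0 hTt hEt' u v x y hj
    (by rw [hEe]; nlinarith) (by rw [hEe]; nlinarith)
    (by
      rw [hEe]
      calc 3 / 2 * kap * ‖u 0 - ap s l 1 ((w : ℂ) * gg c) 0‖ ≤ 3 / 2 * kap * ((K + 10) * s ^ 2) := by gcongr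
        _ ≤ _ := by nlinarith [mul_nonneg hk0.le hP0])
    (by
      rw [hEe]
      calc kap * ‖v 0 - ap s l (I * 1) ((I + l) * ((w : ℂ) * gg c)) 0‖ ≤ kap * ((K + 10) * s ^ 2) := by gcongr
        _ ≤ _ := by nlinarith [mul_nonneg hk0.le hP0])
  have sm : ∀ t ∈ Set.Icc 0 T, 150 * (s * Real.exp (l * t)) ^ 2 + E * Real.exp (21 / 10 * t) ≤ 151 / 10 ^ 18 := by
    intro t ht
    have h1 : (s * Real.exp (l * t)) ^ 2 ≤ (1 / 10 ^ 9) ^ 2 := by
      have := hTt t ht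
      have : 0 < s * Real.exp (l * t) := by positivity
      gcongr
    have h2 := hEt t ht
    norm_num at h1 h2 ⊢
    linarith
  refine ⟨T, hT0, ?_, ?_⟩
  · intro t ht
    obtain ⟨p1, -, p3, -⟩ := bar t ht
    have hB := sm t ht
    have hσ0 : 0 < s * Real.exp (l * t) := by positivity
    have hσ1 := hTt t ht
    have p3' : 100 * ‖u t - ap s l 1 ((w : ℂ) * gg c) t‖ ≤ 3 / 2 * kap * ‖u t - ap s l 1 ((w : ℂ) * gg c) t‖ := by
      gcongr
      linarith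
    replace p3' := p3'.trans (p3.trans hB)
    replace p1 := p1.trans hB
    clear hB p3
    obtain ⟨d0, d1, d2⟩ := dist_bounds h hσ0.le hσ1 (u := u t) (x := x t) (by
        norm_num at p1 ⊢
        linarith only [p1]) (by
        norm_num at p3' ⊢
        linarith only [p3'])
    exact ⟨by linarith, by linarith, by linarith⟩
  · obtain ⟨p1, p2, p3, p4⟩ := bar T ⟨hT0, le_rfl⟩
    have hB := sm T ⟨hT0, le_rfl⟩
    replace p1 := p1.trans hB
    replace p2 := p2.trans hB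
    replace p3 := p3.trans hB
    replace p4 := p4.trans hB
    have ex := end_x h hTe
    have ey := end_y h hTe
    have q3 : ‖u T - ap s l 1 ((w : ℂ) * gg c) T‖ ≤ δ / 10 ^ 3 := by
      have h1 : kap * ‖u T - ap s l 1 ((w : ℂ) * gg c) T‖ ≤ kap * (δ / 10 ^ 3) := by
        have hp : 0 ≤ kap * ‖u T - ap s l 1 ((w : ℂ) * gg c) T‖ := by positivity
        norm_num at p3 ⊢
        linarith only [hp, p3, hkδ]
      exact le_of_mul_le_mul_left h1 hk0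
    have q4 : ‖v T - ap s l (I * 1) ((I + l) * ((w : ℂ) * gg c)) T‖ ≤ δ / 10 ^ 3 := by
      have h1 : kap * ‖v T - ap s l (I * 1) ((I + l) * ((w : ℂ) * gg c)) T‖ ≤ kap * (δ / 10 ^ 3) := by
        refine p4.trans ?_
        norm_num
        linarith
      exact le_of_mul_le_mul_left h1 hk0
    have nw : ‖(w : ℂ) * gg c‖ ≤ δ * (134 / 100) := nw.trans (by gcongr)
    have n1 : ‖ap s l 1 ((w : ℂ) * gg c) T - cexp (I * T)‖ ≤ δ / 10 ^ 3 := by
      have e : ap s l 1 ((w : ℂ) * gg c) T - cexp (I * T) = cexp (I * T) * (((1 / 10 ^ 9 : ℝ) : ℂ) *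
          ((w : ℂ) * gg c)) := by
        rw [ap, hTe]; ring
      rw [e, norm_mul, norm_expI, one_mul, norm_mul, Complex.norm_real, Real.norm_eq_abs,
        abs_of_nonneg (by norm_num : (0 : ℝ) ≤ 1 / 10 ^ 9)]
      calc 1 / 10 ^ 9 * ‖(w : ℂ) * gg c‖ ≤ 1 / 10 ^ 9 * (δ * (134 / 100)) := by gcongr
        _ ≤ _ := by norm_num; linarith
    have n2 : ‖ap s l (I * 1) ((I + l) * ((w : ℂ) * gg c)) T - I * cexp (I * T)‖ ≤ δ / 10 ^ 3 := by
      have e : ap s l (I * 1) ((I + l) * ((w : ℂ) * gg c)) T - I * cexp (I * T) =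
          cexp (I * T) * (((1 / 10 ^ 9 : ℝ) : ℂ) * ((I + l) * ((w : ℂ) * gg c))) := by
        rw [ap, hTe]; ring
      rw [e, norm_mul, norm_expI, one_mul, norm_mul, Complex.norm_real, Real.norm_eq_abs,
        abs_of_nonneg (by norm_num : (0 : ℝ) ≤ 1 / 10 ^ 9), norm_mul]
      calc 1 / 10 ^ 9 * (‖(I + l : ℂ)‖ * ‖(w : ℂ) * gg c‖) ≤ 1 / 10 ^ 9 * (26 / 10 * (δ * (134 / 100))) := by gcongr
        _ ≤ _ := by norm_num; linarith
    refine ⟨?_, ?_, ?_, ?_⟩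
    · calc ‖u T - cexp (I * T)‖ ≤ ‖u T - ap s l 1 ((w : ℂ) * gg c) T‖ +
            ‖ap s l 1 ((w : ℂ) * gg c) T - cexp (I * T)‖ := norm_sub_le_norm_sub_add_norm_sub _ _ _
        _ ≤ _ := by norm_num at q3 n1 ⊢; linarith
    · calc ‖v T - I * cexp (I * T)‖ ≤ ‖v T - ap s l (I * 1) ((I + l) * ((w : ℂ) * gg c)) T‖ +
            ‖ap s l (I * 1) ((I + l) * ((w : ℂ) * gg c)) T - I * cexp (I * T)‖ :=
            norm_sub_le_norm_sub_add_norm_sub _ _ _
        _ ≤ _ := by norm_num at q4 n2 ⊢; linarith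
    · calc ‖x T - cexp (I * T) * Z0‖ ≤ ‖x T - ap s l ((1 + z - a : ℝ) : ℂ) (gg c) T‖ +
            ‖ap s l ((1 + z - a : ℝ) : ℂ) (gg c) T - cexp (I * T) * Z0‖ :=
            norm_sub_le_norm_sub_add_norm_sub _ _ _
        _ ≤ _ := by norm_num at p1 ex ⊢; linarith
    · calc ‖y T - cexp (I * T) * Z1‖ ≤ ‖y T - ap s l (I * ((1 + z - a : ℝ) : ℂ)) ((I + l) * gg c) T‖ +
            ‖ap s l (I * ((1 + z - a : ℝ) : ℂ)) ((I + l) * gg c) T - cexp (I * T) * Z1‖ :=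
            norm_sub_le_norm_sub_add_norm_sub _ _ _
        _ ≤ _ := by norm_num at p2 ey ⊢; linarith

theorem main (hbar : S_BAR) (hmode : S_MODE) : S_PH2 := by
  intro δ K hδ hK
  set kap : ℝ := 100 + 1 / δ with hkap
  have hk1 : 0 < 1 / δ := by positivity
  have hk100 : 100 ≤ kap := by linarith
  have hk0 : 0 < kap := by linarith
  have hD : 0 < 3 * kap * (K + 10) := by positivity
  set σ : ℝ := 1 / (3 * kap * (K + 10)) with hσ
  have hσ0 : 0 < σ := by rw [hσ]; positivity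
  have hDσ : 3 * kap * (K + 10) * σ = 1 := by rw [hσ]; field_simp
  have hD1 : 3000 ≤ 3 * kap * (K + 10) := by nlinarith
  have hσ1 : σ ≤ 1 / 3000 := by
    rw [hσ]
    exact one_div_le_one_div_of_le (by norm_num) hD1
  have hσK : σ ≤ 1 / K := by
    rw [hσ]
    exact one_div_le_one_div_of_le (by linarith) (by nlinarith)
  set s : ℝ := 1 / 10 ^ 9 * σ ^ 5 with hs
  have hs0 : 0 < s := by positivity
  have hs1 : s ≤ 1 / 10 ^ 9 / K := by
    have h5 : σ ^ 5 ≤ σ ^ 1 := pow_le_pow_of_le_one hσ0.le (by linarith) (by norm_num)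
    calc s ≤ 1 / 10 ^ 9 * σ ^ 1 := by rw [hs]; gcongr
      _ ≤ 1 / 10 ^ 9 * (1 / K) := by rw [pow_one]; gcongr
      _ = _ := by ring
  set ε : ℝ := min (min s (min δ (1 / 10 ^ 20))) (1 / (10 ^ 6 * kap)) with hε
  have hεs : ε ≤ s := (min_le_left _ _).trans (min_le_left _ _)
  have hεδ : ε ≤ δ := (min_le_left _ _).trans ((min_le_right _ _).trans (min_le_left _ _))
  have hε1 : ε ≤ 1 / 10 ^ 20 := (min_le_left _ _).trans ((min_le_right _ _).trans (min_le_right _ _))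
  have hε2 : ε ≤ 1 / (10 ^ 6 * kap) := min_le_right _ _
  have hε0 : 0 < ε := by
    rw [hε]
    refine lt_min (lt_min hs0 (lt_min hδ (by norm_num))) (by positivity)
  have hke : kap * ε ≤ 1 / 10 ^ 6 := by
    calc kap * ε ≤ kap * (1 / (10 ^ 6 * kap)) := by gcongr
      _ = _ := by field_simp
  obtain ⟨η, hη, hm⟩ := hmode ε hε0
  refine ⟨s, hs0, hs1, min η ε, lt_min hη hε0, ?_⟩
  intro m12 m3 a z hre h3 h3' hz u v x y hj c hc hu hv hx hy
  obtain ⟨g1, g2, l, c₁, w, β, g3, g4, gl, gc, g5, g6, g7, g8, g9⟩ := hm m12 m3 a z hre h3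
    (lt_of_lt_of_le h3' (min_le_left _ _)) (lt_of_lt_of_le hz (min_le_left _ _))
  have h : NP ε kap m12 m3 a z l c₁ w β := {
    e0 := hε0.le
    e1 := hε1
    k0 := by linarith
    ke := hke
    h12 := g1
    h3 := h3
    h3' := h3'.le.trans (min_le_right _ _)
    hz := hz.le.trans (min_le_right _ _)
    ha := g2
    hl := g3
    hc := g4
    hw := g5
    re := hre
    q1 := g6
    q2 := g7
    q3 := g8
    q4 := g9 }
  have hcc : ‖(starRingEnd ℂ) c‖ = 1 := by rw [RCLike.norm_conj, hc]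
  obtain ⟨T, hT0, hd, f1, f2, f3, f4⟩ := core hbar hδ hK hkap hσ h (by rw [← hs]; exact hεs) hεδ gl gc
    (rot hj hcc) (by rw [← hs]; simp only [cj_sub hc, mul_one]; exact hu)
    (by rw [← hs]; simp only [cj_sub hc]; rw [mul_comm c I]; exact hv)
    (by rw [← hs]; simp only [cj_sub hc]; exact hx)
    (by rw [← hs]; simp only [cj_sub hc]; exact hy)
  simp only [cj_sub hc] at f1 f2 f3 f4
  refine ⟨T, hT0, ?_, c * cexp (I * T), ?_, f1, ?_, ?_, ?_⟩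
  · intro t ht
    obtain ⟨d1, d2, d3⟩ := hd t ht
    have e1 : (starRingEnd ℂ) c * x t + (a : ℂ) * ((starRingEnd ℂ) c * u t) =
      (starRingEnd ℂ) c * (x t + (a : ℂ) * u t) := by ring
    have e2 : (starRingEnd ℂ) c * x t - (1 - (a : ℂ)) * ((starRingEnd ℂ) c * u t) =
      (starRingEnd ℂ) c * (x t - (1 - (a : ℂ)) * u t) := by ring
    simp only [e1, e2, norm_mul, hcc, one_mul] at d1 d2 d3
    exact ⟨d1, d2, d3⟩
  · rw [norm_mul, hc, norm_expI, one_mul]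
  · rw [show I * (c * cexp (I * T)) = c * (I * cexp (I * T)) by ring]; exact f2
  · rw [mul_assoc]; exact f3
  · rw [mul_assoc]; exact f4

end Pool.Agent.H77.TU.PH2
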