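import Pool.Agent.H77.TU.Stm
import Pool.Agent.H3.TB.Ode
import Pool.Agent.H3.TB.Conf

/-! TU-UNI: a Newtonian forward solution which stays in the tube is, in Jacobi coordinates, a `JSol` for `t ≥ 0`. -/

set_option autoImplicit false

open Complex Set Filter Topology

namespace Pool.Agent.H77.TU.UNI

open Pool.Agent.H3.TB Pool.Agent.H77.TU

/-- the field of the cut off problem -/
noncomputable def F (m12 m3 a : ℝ) (p : ℂ × ℂ × ℂ × ℂ) : ℂ × ℂ × ℂ × ℂ :=
  (p.2.1, fu m12 m3 a p.1 p.2.2.1, p.2.2.2, fx m12 m3 a p.1 p.2.2.1)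

theorem F_lip (m12 m3 a : ℝ) : ∃ K : NNReal, LipschitzWith K (F m12 m3 a) := by
  set L1 : ℝ := 256 * (|m12| + |m3| * ((1 + |1 - a|) + (1 + |a|))) with hL1
  set L2 : ℝ := 256 * (|m12 + m3| * (|1 - a| * (1 + |a|) + |a| * (1 + |1 - a|))) with hL2
  have hL10 : 0 ≤ L1 := by positivity
  have hL20 : 0 ≤ L2 := by positivity
  refine ⟨⟨1 + L1 + L2, by positivity⟩, ?_⟩
  refine LipschitzWith.of_dist_le_mul fun z w => ?_
  rw [dist_eq_norm, dist_eq_norm]
  change _ ≤ (1 + L1 + L2) * ‖z - w‖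
  have n1 : ‖z.1 - w.1‖ ≤ ‖z - w‖ := norm_fst_le (z - w)
  have n2 : ‖z.2 - w.2‖ ≤ ‖z - w‖ := norm_snd_le (z - w)
  have n3 : ‖z.2.1 - w.2.1‖ ≤ ‖z - w‖ := (norm_fst_le (z.2 - w.2)).trans n2
  have n4 : ‖z.2.2 - w.2.2‖ ≤ ‖z - w‖ := (norm_snd_le (z.2 - w.2)).trans n2
  have n5 : ‖z.2.2.1 - w.2.2.1‖ ≤ ‖z - w‖ := (norm_fst_le (z.2.2 - w.2.2)).trans n4
  have n6 : ‖z.2.2.2 - w.2.2.2‖ ≤ ‖z - w‖ := (norm_snd_le (z.2.2 - w.2.2)).trans n4
  have hn := norm_nonneg (z - w)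
  have f1 := ode_fu_lip m12 m3 a z.1 z.2.2.1 w.1 w.2.2.1 n1 n5
  have f2 := ode_fx_lip m12 m3 a z.1 z.2.2.1 w.1 w.2.2.1 n1 n5
  have p1 : 0 ≤ L1 * ‖z - w‖ := by positivity
  have p2 : 0 ≤ L2 * ‖z - w‖ := by positivity
  have e : F m12 m3 a z - F m12 m3 a w = (z.2.1 - w.2.1, fu m12 m3 a z.1 z.2.2.1 - fu m12 m3 a w.1 w.2.2.1,
    z.2.2.2 - w.2.2.2, fx m12 m3 a z.1 z.2.2.1 - fx m12 m3 a w.1 w.2.2.1) := rfl
  rw [e, Prod.norm_def, Prod.norm_def, Prod.norm_def]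
  refine max_le ?_ (max_le ?_ (max_le ?_ ?_))
  · show ‖z.2.1 - w.2.1‖ ≤ _
    linarith
  · show ‖fu m12 m3 a z.1 z.2.2.1 - fu m12 m3 a w.1 w.2.2.1‖ ≤ _
    linarith
  · show ‖z.2.2.2 - w.2.2.2‖ ≤ _
    linarith
  · show ‖fx m12 m3 a z.1 z.2.2.1 - fx m12 m3 a w.1 w.2.2.1‖ ≤ _
    linarith

/-- positions with centre of mass zero from their Jacobi coordinates -/
theorem conf_jac {m12 m3 a : ℝ} (hM : m12 + m3 ≠ 0) {q : Fin 3 → ℂ}
    (h : ∑ i, (mass m12 m3 a i : ℂ) * q i = 0) : conf m12 m3 a (jac a q).1 (jac a q).2 = q := by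
  have hMc : (m12 : ℂ) + (m3 : ℂ) ≠ 0 := by exact_mod_cast hM
  rw [Fin.sum_univ_three] at h
  simp only [mass, Matrix.cons_val_zero, Matrix.cons_val_one, Matrix.cons_val] at h
  push_cast at h
  funext i
  fin_cases i
  · simp only [conf, jac, Matrix.cons_val_zero, Fin.zero_eta]
    push_cast
    field_simp
    linear_combination (-1 : ℂ) * h
  · simp only [conf, jac, Matrix.cons_val_one, Fin.mk_one, Matrix.cons_val_zero]
    push_cast
    field_simp
    linear_combination (-1 : ℂ) * h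
  · simp only [conf, jac, Matrix.cons_val, Fin.reduceFinMk]
    push_cast
    field_simp
    linear_combination (-1 : ℂ) * h

theorem jac_conf {m12 m3 a : ℝ} (hM : m12 + m3 ≠ 0) (u x : ℂ) : jac a (conf m12 m3 a u x) = (u, x) := by
  have hMc : (m12 : ℂ) + (m3 : ℂ) ≠ 0 := by exact_mod_cast hM
  unfold jac conf
  refine Prod.ext ?_ ?_
  · simp only [Matrix.cons_val_zero, Matrix.cons_val_one]
    ring
  · simp only [Matrix.cons_val_zero, Matrix.cons_val_one, Matrix.cons_val]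
    push_cast
    field_simp
    ring

theorem jac_deriv {a : ℝ} {q : ℝ → Fin 3 → ℂ} {q' : Fin 3 → ℂ} {t : ℝ} (h : HasDerivAt q q' t) :
    HasDerivAt (fun s => (jac a (q s)).1) (jac a q').1 t ∧ HasDerivAt (fun s => (jac a (q s)).2) (jac a q').2 t := by
  rw [hasDerivAt_pi] at h
  exact ⟨(h 1).sub (h 0), (h 2).sub (((h 0).const_mul _).add ((h 1).const_mul _))⟩

theorem main : S_UNI := by
  intro m12 m3 a z h12 h3 h3' ha hz x hx htube
  obtain ⟨hxc, hxp, hxd⟩ := hx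
  obtain ⟨p1, p2⟩ := abs_le.1 h12
  obtain ⟨a1, a2⟩ := abs_le.1 ha
  obtain ⟨z1, z2⟩ := abs_le.1 hz
  have hM : m12 + m3 ≠ 0 := by linarith
  -- Jacobi coordinates
  set U : ℝ → ℂ := fun t => (jac a (x t).1).1 with hU
  set V : ℝ → ℂ := fun t => (jac a (x t).2).1 with hV
  set W : ℝ → ℂ := fun t => (jac a (x t).1).2 with hW
  set Y : ℝ → ℂ := fun t => (jac a (x t).2).2 with hY
  have hconf : ∀ t, 0 ≤ t → conf m12 m3 a (U t) (W t) = (x t).1 := fun t ht =>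
    conf_jac hM (hxp t ht).2.1
  -- distances
  have hdist : ∀ t, 0 ≤ t → 1 / 4 ≤ ‖U t‖ ∧ 1 / 4 ≤ ‖W t + (a : ℂ) * U t‖ ∧
      1 / 4 ≤ ‖W t - (1 - (a : ℂ)) * U t‖ := by
    intro t ht
    obtain ⟨c, hc, hu, -, hw, -⟩ := htube t ht
    have hu' : ‖U t - c‖ ≤ 1 / 100 := hu
    have hw' : ‖W t - ((1 + z - a : ℝ) : ℂ) * c‖ ≤ 1 / 100 := by exact hw
    refine ⟨?_, ?_, ?_⟩
    · have := norm_sub_norm_le c (U t)
      rw [norm_sub_rev, hc] at this
      linarith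
    · have e1 : ((1 + z : ℝ) : ℂ) * c - (W t + (a : ℂ) * U t) =
          -((W t - ((1 + z - a : ℝ) : ℂ) * c) + (a : ℂ) * (U t - c)) := by
        push_cast; ring
      have n1 : ‖((1 + z : ℝ) : ℂ) * c - (W t + (a : ℂ) * U t)‖ ≤ 1 / 100 + 1 * (1 / 100) := by
        rw [e1, norm_neg]
        refine (norm_add_le _ _).trans (add_le_add hw' ?_)
        rw [norm_mul, Complex.norm_real, Real.norm_eq_abs]
        exact mul_le_mul (abs_le.2 ⟨by linarith, by linarith⟩) hu' (norm_nonneg _) zero_le_one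
      have n2 : ‖((1 + z : ℝ) : ℂ) * c‖ = 1 + z := by
        rw [norm_mul, hc, mul_one, Complex.norm_real, Real.norm_of_nonneg (by linarith)]
      have := norm_sub_norm_le (((1 + z : ℝ) : ℂ) * c) (W t + (a : ℂ) * U t)
      rw [n2] at this
      linarith
    · have e1 : ((z : ℝ) : ℂ) * c - (W t - (1 - (a : ℂ)) * U t) =
          -((W t - ((1 + z - a : ℝ) : ℂ) * c) - ((1 - a : ℝ) : ℂ) * (U t - c)) := by
        push_cast; ring
      have n1 : ‖((z : ℝ) : ℂ) * c - (W t - (1 - (a : ℂ)) * U t)‖ ≤ 1 / 100 + 1 * (1 / 100) := by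
        rw [e1, norm_neg]
        refine (norm_sub_le _ _).trans (add_le_add hw' ?_)
        rw [norm_mul, Complex.norm_real, Real.norm_eq_abs]
        exact mul_le_mul (abs_le.2 ⟨by linarith, by linarith⟩) hu' (norm_nonneg _) zero_le_one
      have n2 : ‖((z : ℝ) : ℂ) * c‖ = z := by
        rw [norm_mul, hc, mul_one, Complex.norm_real, Real.norm_of_nonneg (by linarith)]
      have := norm_sub_norm_le (((z : ℝ) : ℂ) * c) (W t - (1 - (a : ℂ)) * U t)
      rw [n2] at this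
      linarith
  -- the equations for `t > 0`
  have hP : ∀ t, 0 < t → HasDerivAt (fun s => (x s).1) (x t).2 t := fun t ht =>
    (ContinuousLinearMap.fst ℝ (Fin 3 → ℂ) (Fin 3 → ℂ)).hasFDerivAt.comp_hasDerivAt t (hxd t ht)
  have hQ : ∀ t, 0 < t → HasDerivAt (fun s => (x s).2) (acc (mass m12 m3 a) (x t).1) t := fun t ht =>
    (ContinuousLinearMap.snd ℝ (Fin 3 → ℂ) (Fin 3 → ℂ)).hasFDerivAt.comp_hasDerivAt t (hxd t ht)
  have hacc : ∀ t, 0 ≤ t → jac a (acc (mass m12 m3 a) (x t).1) =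
      (fu m12 m3 a (U t) (W t), fx m12 m3 a (U t) (W t)) := by
    intro t ht
    obtain ⟨d1, d2, d3⟩ := hdist t ht
    rw [← hconf t ht, acc_conf hM, jac_conf hM, ← ker_eq_nk d1, ← ker_eq_nk d2, ← ker_eq_nk d3]
    rfl
  obtain ⟨K, hK⟩ := F_lip m12 m3 a
  obtain ⟨u, v, w, y, hJ, hu0, hv0, hw0, hy0⟩ := exists_jsol m12 m3 a (U 0) (V 0) (W 0) (Y 0)
  refine ⟨u, v, w, y, hJ, ?_⟩
  set f : ℝ → ℂ × ℂ × ℂ × ℂ := fun t => (U t, V t, W t, Y t) with hf
  set g : ℝ → ℂ × ℂ × ℂ × ℂ := fun t => (u t, v t, w t, y t) with hg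
  have hfd : ∀ t, 0 < t → HasDerivAt f (F m12 m3 a (f t)) t := by
    intro t ht
    have j1 := jac_deriv (a := a) (hP t ht)
    have j2 := jac_deriv (a := a) (hQ t ht)
    rw [hacc t ht.le] at j2
    exact j1.1.prodMk (j2.1.prodMk (j1.2.prodMk j2.2))
  have hgd : ∀ t, HasDerivAt g (F m12 m3 a (g t)) t := fun t =>
    (hJ.du t).prodMk ((hJ.dv t).prodMk ((hJ.dx t).prodMk (hJ.dy t)))
  have hjc : Continuous (fun q : Fin 3 → ℂ => jac a q) := by
    unfold jac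
    fun_prop
  have hfc : ContinuousOn f (Ici 0) := by
    have c1 : ContinuousOn (fun t => jac a (x t).1) (Ici 0) :=
      hjc.comp_continuousOn (continuous_fst.comp_continuousOn hxc)
    have c2 : ContinuousOn (fun t => jac a (x t).2) (Ici 0) :=
      hjc.comp_continuousOn (continuous_snd.comp_continuousOn hxc)
    exact (continuous_fst.comp_continuousOn c1).prodMk ((continuous_fst.comp_continuousOn c2).prodMk
      ((continuous_snd.comp_continuousOn c1).prodMk (continuous_snd.comp_continuousOn c2)))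
  have hgc : Continuous g := continuous_iff_continuousAt.2 fun t => (hgd t).continuousAt
  have h0 : f 0 = g 0 := by
    rw [hf, hg]
    simp only [hu0, hv0, hw0, hy0]
  have heq : ∀ t, 0 ≤ t → f t = g t := by
    intro t ht
    rcases ht.eq_or_lt with rfl | ht
    · exact h0
    -- Gronwall on `[s, t]`, `s → 0`
    have hb : ∀ s ∈ Ioo 0 t, dist (f t) (g t) ≤ dist (f s) (g s) * Real.exp (K * t) := by
      intro s hs
      have h1 := dist_le_of_trajectories_ODE (v := fun _ => F m12 m3 a) (K := K) (f := f) (g := g)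
        (a := s) (b := t) (δ := dist (f s) (g s)) (fun _ => hK)
        (hfc.mono fun r hr => hs.1.le.trans hr.1)
        (fun r hr => (hfd r (hs.1.trans_le hr.1)).hasDerivWithinAt) hgc.continuousOn
        (fun r _ => (hgd r).hasDerivWithinAt) le_rfl t ⟨hs.2.le, le_rfl⟩
      refine h1.trans (mul_le_mul_of_nonneg_left (Real.exp_le_exp.2 ?_) dist_nonneg)
      exact mul_le_mul_of_nonneg_left (by linarith [hs.1]) K.coe_nonneg
    have hlim : Tendsto (fun s => dist (f s) (g s) * Real.exp (K * t)) (𝓝[>] 0)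
        (𝓝 (dist (f 0) (g 0) * Real.exp (K * t))) := by
      have l1 : Tendsto f (𝓝[>] 0) (𝓝 (f 0)) :=
        (hfc 0 self_mem_Ici).mono_left (nhdsWithin_mono 0 Ioi_subset_Ici_self)
      have l2 : Tendsto g (𝓝[>] 0) (𝓝 (g 0)) := (hgc.tendsto 0).mono_left nhdsWithin_le_nhds
      exact (l1.dist l2).mul_const _
    have hev : ∀ᶠ s in 𝓝[>] (0:ℝ), s ∈ Ioo 0 t := Ioo_mem_nhdsGT ht
    have h2 := ge_of_tendsto hlim (hev.mono hb)
    rw [h0, dist_self, zero_mul] at h2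
    exact dist_le_zero.1 h2
  intro t ht
  have h1 := heq t ht
  rw [hf, hg] at h1
  simp only [Prod.mk.injEq] at h1
  exact ⟨h1.1.symm, h1.2.1.symm, h1.2.2.1.symm, h1.2.2.2.symm⟩

end Pool.Agent.H77.TU.UNI
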