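import Pool.Agent.H77.TU.Stm

/-! Project TU, TU-WRAP (helper91): all masses of the cone, all sizes -/

set_option autoImplicit false

open Complex

namespace Pool.Agent.H77.TU.WRAP

open Pool.Agent.H3.TB Pool.Agent.H3.TB.Wrap

/-- scaling of forward solutions on `[0, ∞)` -/
lemma fsol_scale {m m' : Fin 3 → ℝ} {D κ : ℝ} (hD : 0 < D) (hκ : 0 < κ)
    (hm : ∀ i, m i = D ^ 3 * κ ^ 2 * m' i) (L : ℂ →L[ℝ] ℂ) (hL : ∀ x, ‖L x‖ = D * ‖x‖)
    {y : ℝ → Ph} (hy : FSol m' y) :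
    FSol m (fun t => (fun i => L ((y (κ * t)).1 i), fun i => κ • L ((y (κ * t)).2 i))) := by
  obtain ⟨hc, hp, hd⟩ := hy
  have e2 : ∀ (x : ℝ) (y : ℂ), L ((x : ℂ) * y) = (x : ℂ) * L y := by
    intro x y
    rw [← Complex.real_smul, map_smul, Complex.real_smul]
  refine ⟨?_, fun t ht => ?_, fun t ht => ?_⟩
  · have hc' : ContinuousOn (fun t : ℝ => y (κ * t)) (Set.Ici 0) :=
      hc.comp (continuous_const.mul continuous_id).continuousOn fun t ht => mul_nonneg hκ.le ht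
    have h1 : ContinuousOn (fun t : ℝ => (y (κ * t)).1) (Set.Ici 0) := continuous_fst.comp_continuousOn hc'
    have h2 : ContinuousOn (fun t : ℝ => (y (κ * t)).2) (Set.Ici 0) := continuous_snd.comp_continuousOn hc'
    refine ContinuousOn.prodMk ?_ ?_
    · refine continuousOn_pi.2 fun i => ?_
      exact L.continuous.comp_continuousOn (continuousOn_pi.1 h1 i)
    · refine continuousOn_pi.2 fun i => ?_
      exact (L.continuous.comp_continuousOn (continuousOn_pi.1 h2 i)).const_smul κ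
  · obtain ⟨h1, h2, h3⟩ := hp (κ * t) (mul_nonneg hκ.le ht)
    refine ⟨fun a b hab => ?_, ?_, ?_⟩
    · intro h5
      have h6 : L ((y (κ * t)).1 a - (y (κ * t)).1 b) = 0 := by
        rw [map_sub, sub_eq_zero]
        exact h5
      have h7 := hL ((y (κ * t)).1 a - (y (κ * t)).1 b)
      rw [h6, norm_zero] at h7
      have h8 := (mul_eq_zero.1 h7.symm).resolve_left hD.ne'
      rw [norm_eq_zero, sub_eq_zero] at h8
      exact h1 a b hab h8
    · have h5 : ∀ i, (m i : ℂ) * L ((y (κ * t)).1 i) =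
          ((D ^ 3 * κ ^ 2 : ℝ) : ℂ) * L ((m' i : ℂ) * (y (κ * t)).1 i) := by
        intro i
        rw [hm, e2]
        push_cast
        ring
      simp only [h5]
      rw [← Finset.mul_sum, ← map_sum, h2, map_zero, mul_zero]
    · have h5 : ∀ i, (m i : ℂ) * (κ • L ((y (κ * t)).2 i)) =
          ((D ^ 3 * κ ^ 2 * κ : ℝ) : ℂ) * L ((m' i : ℂ) * (y (κ * t)).2 i) := by
        intro i
        rw [hm, e2, Complex.real_smul]
        push_cast
        ring
      simp only [h5]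
      rw [← Finset.mul_sum, ← map_sum, h3, map_zero, mul_zero]
  · have h4 := hd (κ * t) (mul_pos hκ ht)
    have hκt : HasDerivAt (fun s : ℝ => κ * s) κ t := by
      have := (hasDerivAt_id t).const_mul κ
      simpa using this
    have h5 : HasDerivAt (fun s : ℝ => y (κ * s))
        (κ • ((y (κ * t)).2, acc m' (y (κ * t)).1)) t := h4.scomp t hκt
    have h6 : HasDerivAt (fun s : ℝ => (y (κ * s)).1) (κ • (y (κ * t)).2) t := by
      have := (ContinuousLinearMap.fst ℝ (Fin 3 → ℂ) (Fin 3 → ℂ)).hasFDerivAt.comp_hasDerivAt t h5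
      exact this
    have h7 : HasDerivAt (fun s : ℝ => (y (κ * s)).2) (κ • acc m' (y (κ * t)).1) t := by
      have := (ContinuousLinearMap.snd ℝ (Fin 3 → ℂ) (Fin 3 → ℂ)).hasFDerivAt.comp_hasDerivAt t h5
      exact this
    rw [hasDerivAt_pi] at h6 h7
    refine HasDerivAt.prodMk ?_ ?_
    · rw [hasDerivAt_pi]
      intro i
      have h8 := L.hasFDerivAt.comp_hasDerivAt t (h6 i)
      refine h8.congr_deriv ?_
      rw [Pi.smul_apply, map_smul]
    · rw [hasDerivAt_pi]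
      intro i
      have h8 := (L.hasFDerivAt.comp_hasDerivAt t (h7 i)).const_smul κ
      refine h8.congr_deriv ?_
      rw [acc_map hD hm L hL, Pi.smul_apply, map_smul, smul_smul, sq]

theorem main (hb : S_BASE) : S_WRAP := by
  obtain ⟨η₀, hη₀, hb⟩ := hb
  set ε : ℝ := min (η₀ / 2) (1 / 4) with hε
  have hε0 : 0 < ε := by positivity
  have hε1 : ε ≤ 1 / 4 := min_le_right _ _
  have hε2 : ε ≤ η₀ / 2 := min_le_left _ _
  obtain ⟨η₁, hη₁, hη₁', hz⟩ := z_near hε0 hε1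
  refine ⟨min η₁ (η₀ / 2), by positivity, ?_⟩
  intro m hm hm2 hm0
  have m0 := hm 0
  have m1 := hm 1
  have m2 := hm 2
  have hμ : 0 < m 0 + m 1 := by linarith
  have hν : 0 < m 2 / (m 0 + m 1) := by positivity
  have hν' : m 2 / (m 0 + m 1) < min η₁ (η₀ / 2) := by rwa [div_lt_iff₀ hμ]
  have hν1 := hν'.trans_le (min_le_left _ _)
  have hν2 := hν'.trans_le (min_le_right _ _)
  have ha : |m 1 / (m 0 + m 1) - 19 / 82| < η₁ := by
    have h1 : m 1 / (m 0 + m 1) - 19 / 82 = -(m 0 - 63 / 82 * (m 0 + m 1)) / (m 0 + m 1) := by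
      field_simp
      ring
    rw [h1, abs_div, abs_neg, abs_of_pos hμ, div_lt_iff₀ hμ]
    exact hm0.trans_le (mul_le_mul_of_nonneg_right (min_le_left _ _) hμ.le)
  obtain ⟨za, zb⟩ := hz _ _ hν hν1 ha
  have hk16 : ∀ z : ℝ, 1 / 4 ≤ z →
      1 / 2 ≤ 1 - m 2 / (m 0 + m 1) * (1 / z ^ 2 - 1 / (1 + z) ^ 2) := by
    intro z hz
    have hz0 : 0 < z := by linarith
    have h1 : 1 / z ^ 2 ≤ 16 := by
      rw [div_le_iff₀ (by positivity)]
      nlinarith
    have h2 : 0 < 1 / (1 + z) ^ 2 := by positivity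
    have h3 := mul_le_mul_of_nonneg_left (by linarith : 1 / z ^ 2 - 1 / (1 + z) ^ 2 ≤ 16) hν.le
    linarith
  constructor
  · obtain ⟨z, z1, z2, z3⟩ := zb
    have hz4 : 1 / 4 ≤ z := by linarith
    exact exists_re hm (by linarith) (by linarith [hk16 z hz4]) z3
  intro r w ω h01 h12 hw hω hsol x hx hdist U hU
  have hwn : 0 < ‖w‖ := norm_pos_iff.2 hw
  have hω2 : 0 < ω ^ 2 := by positivity
  have hl : 0 < ω ^ 2 * ‖w‖ ^ 3 := by positivity
  obtain ⟨d, z, L, hd0, hz0, hdd, hL, hL0, hL1, hRE, hZ, hconf⟩ :=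
    norm_re hm hl h01 h12 (eqs_of_sol hw hsol)
  have hk : 0 < 1 - m 2 / (m 0 + m 1) * (1 / z ^ 2 - 1 / (1 + z) ^ 2) := by
    rw [hL1] at hL0
    exact (mul_pos_iff_of_pos_left hμ).1 hL0
  have hz1 := za z hz0 hk hZ
  have hz4 : 1 / 4 ≤ z := by
    rw [abs_lt] at hz1
    linarith
  have hz5 : z ≤ 3 / 4 := by
    rw [abs_lt] at hz1
    linarith
  have hk2 := hk16 z hz4
  set m12' : ℝ := (m 0 + m 1) / L with hm12'
  set m3' : ℝ := m 2 / L with hm3'
  set a' : ℝ := m 1 / (m 0 + m 1) with ha'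
  have hm3 : m3' < η₀ := by
    rw [hm3', div_lt_iff₀ hL0, hL1]
    rw [div_lt_iff₀ hμ] at hν2
    have := mul_le_mul_of_nonneg_left hk2 (mul_pos hη₀ hμ).le
    nlinarith
  -- the ratio of the distances
  have hz12 : r 2 - r 1 = z * d := by
    have c2 := hconf 2
    have c1 := hconf 1
    have hq : m12' + m3' ≠ 0 := by
      have h1 : 0 < m12' := div_pos hμ hL0
      have h2 : 0 < m3' := div_pos m2 hL0
      linarith
    have e : conf m12' m3' a' 1 (((1 + z - a' : ℝ)) : ℂ) 2 - conf m12' m3' a' 1 (((1 + z - a' : ℝ)) : ℂ) 1 =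
        ((z : ℝ) : ℂ) := by
      have hqc : (m12' : ℂ) + (m3' : ℂ) ≠ 0 := by exact_mod_cast hq
      simp only [conf, Matrix.cons_val_one, Matrix.cons_val_zero, Matrix.cons_val]
      push_cast
      field_simp
      ring
    rw [c1, c2, ← Complex.ofReal_sub] at e
    have e' : r 2 / d - r 1 / d = z := by exact_mod_cast e
    field_simp at e'
    linarith
  obtain ⟨-, -, -, hbase⟩ := hb m12' m3' a' z hRE (div_pos m2 hL0) hm3
    (hz1.trans_le (hε2.trans (by linarith)))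
  set κ : ℝ := |ω| with hκ
  have hκ0 : 0 < κ := abs_pos.2 hω
  set D : ℝ := ‖w‖ * d with hD
  have hD0 : 0 < D := by positivity
  have hDL : D ^ 3 * κ ^ 2 = L := by
    rw [hL, hD, hκ, sq_abs]
    ring
  have hmass : ∀ i, m i = D ^ 3 * κ ^ 2 * mass m12' m3' a' i := by
    intro i
    rw [hDL]
    unfold mass
    fin_cases i
    · simp only [Matrix.cons_val_zero, Fin.zero_eta]
      rw [hm12', ha']
      field_simp
      ring
    · simp only [Matrix.cons_val_one, Fin.mk_one, Matrix.cons_val_zero]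
      rw [hm12', ha']
      field_simp
    · simp only [Fin.reduceFinMk, Matrix.cons_val]
      rw [hm3']
      field_simp
  have hmass' : ∀ i, mass m12' m3' a' i = D⁻¹ ^ 3 * κ⁻¹ ^ 2 * m i := by
    intro i
    rw [hmass i]
    field_simp
  -- the maps
  set Lm : ℂ →L[ℝ] ℂ := D • ContinuousLinearMap.id ℝ ℂ with hLm'
  set Li : ℂ →L[ℝ] ℂ := D⁻¹ • ContinuousLinearMap.id ℝ ℂ with hLi'
  have hLm : ∀ v, ‖Lm v‖ = D * ‖v‖ := by
    intro v
    change ‖D • v‖ = _
    rw [norm_smul, Real.norm_of_nonneg hD0.le]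
  have hLi : ∀ v, ‖Li v‖ = D⁻¹ * ‖v‖ := by
    intro v
    change ‖D⁻¹ • v‖ = _
    rw [norm_smul, Real.norm_of_nonneg (inv_pos.2 hD0).le]
  have hLL : ∀ v, Lm (Li v) = v := by
    intro v
    change D • (D⁻¹ • v) = v
    rw [smul_smul, mul_inv_cancel₀ hD0.ne', one_smul]
  have hfs := fsol_scale (inv_pos.2 hD0) (inv_pos.2 hκ0) hmass' Li hLi hx
  set X : ℝ → Ph := fun t => (fun i => Li ((x (κ⁻¹ * t)).1 i), fun i => κ⁻¹ • Li ((x (κ⁻¹ * t)).2 i)) with hX
  -- the distances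
  have hdst : ∀ t, 0 ≤ t → ∀ i j : Fin 3, ∀ q : ℝ, |r i - r j| = q * d → 0 ≤ q → q ≤ 2 →
      abs (‖(X t).1 i - (X t).1 j‖ - q) ≤ η₀ := by
    intro t ht i j q hq q0 q2
    have h1 := hdist (κ⁻¹ * t) i j (mul_nonneg (inv_pos.2 hκ0).le ht)
    have e1 : ‖(X t).1 i - (X t).1 j‖ = D⁻¹ * ‖(x (κ⁻¹ * t)).1 i - (x (κ⁻¹ * t)).1 j‖ := by
      simp only [hX]
      rw [← map_sub, hLi]
    have e2 : ‖w‖ * |r i - r j| = q * D := by rw [hq, hD]; ring
    rw [e2] at h1
    have e3 : D⁻¹ * ‖(x (κ⁻¹ * t)).1 i - (x (κ⁻¹ * t)).1 j‖ - q =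
        (‖(x (κ⁻¹ * t)).1 i - (x (κ⁻¹ * t)).1 j‖ - q * D) / D := by
      field_simp
    rw [e1, e3, abs_div, abs_of_pos hD0, div_le_iff₀ hD0]
    refine h1.trans ?_
    have h2 : min η₁ (η₀ / 2) ≤ η₀ / 2 := min_le_right _ _
    have h3 : 0 ≤ q * D := by positivity
    have h4 : q * D ≤ 2 * D := mul_le_mul_of_nonneg_right q2 hD0.le
    calc min η₁ (η₀ / 2) * (q * D) ≤ η₀ / 2 * (q * D) := mul_le_mul_of_nonneg_right h2 h3
      _ ≤ η₀ / 2 * (2 * D) := mul_le_mul_of_nonneg_left h4 (by linarith)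
      _ = η₀ * D := by ring
  have hdX : ∀ t, 0 ≤ t → abs (‖(X t).1 1 - (X t).1 0‖ - 1) ≤ η₀ ∧ abs (‖(X t).1 2 - (X t).1 1‖ - z) ≤ η₀ ∧
      abs (‖(X t).1 2 - (X t).1 0‖ - (1 + z)) ≤ η₀ := by
    intro t ht
    refine ⟨hdst t ht 1 0 1 ?_ (by norm_num) (by norm_num), hdst t ht 2 1 z ?_ hz0.le (by linarith),
      hdst t ht 2 0 (1 + z) ?_ (by linarith) (by linarith)⟩
    · rw [← hdd, abs_of_pos hd0, one_mul]
    · rw [hz12, abs_of_pos (by positivity)]
    · have : r 2 - r 0 = (1 + z) * d := by rw [add_mul, ← hz12, one_mul, hdd]; ring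
      rw [this, abs_of_pos (by positivity)]
  set Φ : Ph → Ph := fun p => (fun i => Lm (p.1 i), fun i => κ • Lm (p.2 i)) with hΦ
  have hΦc : Continuous Φ := by
    refine Continuous.prodMk ?_ ?_
    · exact continuous_pi fun i => Lm.continuous.comp ((continuous_apply i).comp continuous_fst)
    · exact continuous_pi fun i => (Lm.continuous.comp
        ((continuous_apply i).comp continuous_snd)).const_smul κ
  have hΦ0 : Φ (X 0) = x 0 := by
    refine Prod.ext ?_ ?_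
    · funext i
      simp only [hΦ, hX]
      rw [hLL, mul_zero]
    · funext i
      simp only [hΦ, hX]
      rw [map_smul, hLL, mul_zero, smul_smul, mul_inv_cancel₀ hκ0.ne', one_smul]
  rw [← hΦ0] at hU
  obtain ⟨y, y0, ysol, yesc⟩ := hbase X hfs hdX (Φ ⁻¹' U) (hΦc.continuousAt.preimage_mem_nhds hU)
  refine ⟨_, ?_, forward_scale hD0 hκ0 hmass Lm hLm ysol, ?_⟩
  · have : Φ (y 0) ∈ U := y0
    simpa [hΦ] using this
  · intro R
    obtain ⟨t₀, ht₀⟩ := yesc (R / D)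
    refine ⟨t₀ / κ, fun t ht => ?_⟩
    have ht' : t₀ ≤ κ * t := by
      rw [div_le_iff₀ hκ0] at ht
      linarith
    obtain ⟨q1, q2, q3⟩ := ht₀ (κ * t) ht'
    rw [div_le_iff₀ hD0] at q1 q2
    have e : ∀ i j, ‖Lm ((y (κ * t)).1 i) - Lm ((y (κ * t)).1 j)‖ =
        D * ‖(y (κ * t)).1 i - (y (κ * t)).1 j‖ := fun i j => by rw [← map_sub, hLm]
    simp only [e]
    refine ⟨by linarith, by linarith, ?_⟩
    rw [← hdd]
    nlinarith [norm_nonneg ((y (κ * t)).1 1 - (y (κ * t)).1 0)]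

end Pool.Agent.H77.TU.WRAP
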