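import Pool.Agent.H77.TU.LK
import Pool.Agent.H77.TU.DIFF
import Pool.Agent.H77.TU.FUN0
import Pool.Agent.H77.TU.FUN1
import Pool.Agent.H77.TU.ABS
import Pool.Agent.H77.TU.PH1
import Pool.Agent.H77.TU.BAR
import Pool.Agent.H77.TU.MODE
import Pool.Agent.H77.TU.PH2
import Pool.Agent.H77.TU.NEAR
import Pool.Agent.H77.TU.CHAIN
import Pool.Agent.H77.TU.CLOSE
import Pool.Agent.H77.TU.UNI
import Pool.Agent.H77.TU.BASE
import Pool.Agent.H77.TU.WRAP
import Pool.Agent.H77.TU.HOM
import Pool.Agent.H77.TU.Final
import Pool.Agent.H3.TB.Base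

/-! Assembly of project TU (helper file). -/

set_option autoImplicit false

namespace Pool.Agent.H77.TU

open Pool.Agent.H3.TB

theorem near_all : S_NEAR :=
  NEAR.main (PH1.main DIFF.main FUN0.main FUN1.main ABS.main) (PH2.main BAR.main MODE.main) MODE.main

theorem chain_all : S_CHAIN :=
  CHAIN.main (fun h x => ker_norm h x) (fun h x y => ker_lip h x y) near_all
    (fun T δ hT hδ => binary T δ hT hδ) (fun x y th hx hy hth h0 h1 => transit x y th hx hy hth h0 h1) escape

theorem base_all : S_BASE := BASE.main chain_all CLOSE.main UNI.main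

theorem final : Final := final_of (WRAP.main base_all) HOM.main

end Pool.Agent.H77.TU
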