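import Pool.Agent.H3.TB.Near
import Pool.Agent.H3.TB.Chain
import Pool.Agent.H3.TB.Wrap

/-! Definitions for project TU (MP_6e7c44_mp): all solutions which stay close to an Euler relative equilibrium. -/

set_option autoImplicit false

open Complex

namespace Pool.Agent.H77.TU

open Pool.Agent.H3.TB

/-- `β = 256/123` (value of `Bt` in the limit `m₃ = 0`, `z = 1/2`) -/
noncomputable def be : ℝ := 256 / 123
/-- the unstable exponent of L2 in the limit -/
noncomputable def l0 : ℝ := Mode.LL be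
/-- the slope of the unstable direction in the limit -/
noncomputable def c0 : ℝ := Mode.CC be
/-- `ν²`, the square of the frequency of the centre part of L2 in the limit -/
noncomputable def nu2 : ℝ := l0 ^ 2 + 2 - be
/-- influence of the binary on the third body in the limit: `-(1/2) a (1-a) (1/z³ - 1/(1+z)³)` -/
noncomputable def ga : ℝ := -(124488 / 181548)

/-- `(u, v, x, y)` is within `r` of the state `c (1, i, X, i X)`, `|c| = 1`, of the relative equilibrium -/
def InTube (X r : ℝ) (u v x y c : ℂ) : Prop :=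
  ‖c‖ = 1 ∧ ‖u - c‖ ≤ r ∧ ‖v - I * c‖ ≤ r ∧ ‖x - X * c‖ ≤ r ∧ ‖y - I * (X * c)‖ ≤ r

/-- the parameters are within `ε` of the limit -/
structure Par (ε m12 m3 a z : ℝ) : Prop where
  e0 : 0 ≤ ε
  e1 : ε ≤ 1 / 10 ^ 6
  h12 : |m12 - 1| ≤ ε
  h3 : 0 < m3
  h3' : m3 ≤ ε
  ha : |a - 19 / 82| ≤ ε
  hz : |z - 1 / 2| ≤ ε

/-! linear functionals of the third body's part `(h, e)` of a perturbation (`h` position, `e` velocity) -/

noncomputable def ff (h e : ℂ) : ℝ := (l0 ^ 2 + be + 1) * h.re + 2 * e.im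
noncomputable def fh (h e : ℂ) : ℝ := (l0 ^ 2 + 1 - be) * h.im + (l0 ^ 2 + be - 1) * e.re
noncomputable def pp (h e : ℂ) : ℝ := (be + 1 - nu2) * h.re + 2 * e.im
noncomputable def ph (h e : ℂ) : ℝ := (1 - be - nu2) * h.im + (be - 1 - nu2) * e.re
/-- the unstable coordinate -/
noncomputable def sg (h e : ℂ) : ℝ := l0 * ff h e + fh h e
/-- the stable coordinate -/
noncomputable def ta (h e : ℂ) : ℝ := l0 * ff h e - fh h e
/-- the quadratic form of the remaining coordinates; `(k, q)` is the perturbation of the binary -/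
noncomputable def QQ (k q h e : ℂ) : ℝ :=
  ta h e ^ 2 + nu2 * pp h e ^ 2 + ph h e ^ 2 + 10 ^ 6 * (2 * ‖k‖ ^ 2 + ‖q‖ ^ 2)
/-- the size of a perturbation -/
noncomputable def NN (k q h e : ℂ) : ℝ := ‖k‖ + ‖q‖ + ‖h‖ + ‖e‖

/-- the value of `sg` on the unstable vector `(g, (l0 + i) g)`, `g = 1 + i c0` (about 14.65) -/
noncomputable def sG : ℝ := sg (NearAux.gg c0) ((l0 + I) * NearAux.gg c0)

end Pool.Agent.H77.TU
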