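import Pool.Agent.H77.TU.Stm
import Pool.Agent.H3.TB.Ker

/-! Project TU, TU-LK (helper91): linearization of the kernel -/

set_option autoImplicit false

open Complex

namespace Pool.Agent.H77.TU.LK

open Pool.Agent.H3.TB Pool.Agent.H3.TB.NearAux

lemma inv_near {P δ : ℝ} (h0 : 0 ≤ δ) (h1 : δ ≤ 1 / 40) (hP1 : 1 - 4 * δ ≤ P) (hP2 : P ≤ 1 + 5 * δ) :
    |1 / P - 1| ≤ 5 * δ := by
  have hP : 0 < P := by linarith
  rw [abs_le]
  constructor
  · have : 1 - 5 * δ ≤ 1 / P := by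
      rw [le_div_iff₀ hP]
      nlinarith
    linarith
  · have : 1 / P ≤ 1 + 5 * δ := by
      rw [div_le_iff₀ hP]
      nlinarith
    linarith

lemma pow4_up {δ : ℝ} (h0 : 0 ≤ δ) (h1 : δ ≤ 1 / 40) : (1 + δ) ^ 4 ≤ 1 + 5 * δ := by
  have h2 : δ ^ 2 ≤ δ / 40 := by nlinarith
  have h3 : δ ^ 3 ≤ δ / 1600 := by nlinarith [mul_nonneg h0 h0]
  have h4 : δ ^ 4 ≤ δ / 64000 := by nlinarith [mul_nonneg h0 (mul_nonneg h0 h0)]
  nlinarith

lemma pow4_lo {δ : ℝ} (h1 : δ ≤ 1 / 40) : 1 - 4 * δ ≤ (1 - δ) ^ 4 := by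
  have := one_add_mul_le_pow (a := -δ) (by linarith) 4
  push_cast at this
  have e : (1 + -δ) ^ 4 = (1 - δ) ^ 4 := by ring
  linarith

lemma main_one {δ : ℝ} (h1 : δ ≤ 1 / 40) {k l : ℂ} (hk : ‖k‖ ≤ δ) (hl : ‖l‖ ≤ δ) :
    ‖((1 / ‖1 + k‖ ^ 3 : ℝ) : ℂ) * (1 + k) - ((1 / ‖1 + l‖ ^ 3 : ℝ) : ℂ) * (1 + l) +
      (1 / 2 : ℂ) * ((k - l) + 3 * (starRingEnd ℂ) (k - l))‖ ≤ 32 * δ * ‖k - l‖ := by
  have h0 : 0 ≤ δ := (norm_nonneg k).trans hk
  set a := ‖1 + k‖ with ha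
  set b := ‖1 + l‖ with hb
  set D := ‖k - l‖ with hD
  have hD0 : 0 ≤ D := norm_nonneg _
  have a1 : |a - 1| ≤ δ := by
    have := abs_norm_sub_norm_le (1 + k) 1
    rw [norm_one] at this
    refine (this.trans ?_).trans hk
    rw [add_sub_cancel_left]
  have b1 : |b - 1| ≤ δ := by
    have := abs_norm_sub_norm_le (1 + l) 1
    rw [norm_one] at this
    refine (this.trans ?_).trans hl
    rw [add_sub_cancel_left]
  have ab : |a - b| ≤ D := by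
    have := abs_norm_sub_norm_le (1 + k) (1 + l)
    refine this.trans ?_
    rw [add_sub_add_left_eq_sub]
  obtain ⟨a2, a3⟩ := abs_le.1 a1
  obtain ⟨b2, b3⟩ := abs_le.1 b1
  have hlo : 0 < 1 - δ := by linarith
  have a0 : 0 < a := by linarith
  have b0 : 0 < b := by linarith
  have a4 : 1 - δ ≤ a := by linarith
  have b4 : 1 - δ ≤ b := by linarith
  have a5 : a ≤ 1 + δ := by linarith
  have b5 : b ≤ 1 + δ := by linarith
  have up := pow4_up h0 h1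
  have lo := pow4_lo h1
  -- the four reciprocals
  have r1 : |1 / (a * b ^ 3) - 1| ≤ 5 * δ := by
    refine inv_near h0 h1 ?_ ?_
    · calc 1 - 4 * δ ≤ (1 - δ) ^ 4 := lo
        _ = (1 - δ) * (1 - δ) ^ 3 := by ring
        _ ≤ a * b ^ 3 := by gcongr
    · calc a * b ^ 3 ≤ (1 + δ) * (1 + δ) ^ 3 := by gcongr
        _ = (1 + δ) ^ 4 := by ring
        _ ≤ _ := up
  have r2 : |1 / (a ^ 2 * b ^ 2) - 1| ≤ 5 * δ := by
    refine inv_near h0 h1 ?_ ?_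
    · calc 1 - 4 * δ ≤ (1 - δ) ^ 4 := lo
        _ = (1 - δ) ^ 2 * (1 - δ) ^ 2 := by ring
        _ ≤ a ^ 2 * b ^ 2 := by gcongr
    · calc a ^ 2 * b ^ 2 ≤ (1 + δ) ^ 2 * (1 + δ) ^ 2 := by gcongr
        _ = (1 + δ) ^ 4 := by ring
        _ ≤ _ := up
  have r3 : |1 / (a ^ 3 * b) - 1| ≤ 5 * δ := by
    refine inv_near h0 h1 ?_ ?_
    · calc 1 - 4 * δ ≤ (1 - δ) ^ 4 := lo
        _ = (1 - δ) ^ 3 * (1 - δ) := by ring
        _ ≤ a ^ 3 * b := by gcongr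
    · calc a ^ 3 * b ≤ (1 + δ) ^ 3 * (1 + δ) := by gcongr
        _ = (1 + δ) ^ 4 := by ring
        _ ≤ _ := up
  have r4 : |1 / a ^ 3 - 1| ≤ 5 * δ := by
    refine inv_near h0 h1 ?_ ?_
    · calc 1 - 4 * δ ≤ (1 - δ) ^ 4 := lo
        _ ≤ (1 - δ) ^ 3 := pow_le_pow_of_le_one hlo.le (by linarith) (by norm_num)
        _ ≤ a ^ 3 := by gcongr
    · calc a ^ 3 ≤ (1 + δ) ^ 3 := by gcongr
        _ ≤ (1 + δ) ^ 4 := pow_le_pow_right₀ (by linarith) (by norm_num)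
        _ ≤ _ := up
  set α : ℝ := 1 / a ^ 3 with hα
  set β : ℝ := 1 / b ^ 3 with hβ
  have eab : α - β = -(a - b) * (1 / (a * b ^ 3) + 1 / (a ^ 2 * b ^ 2) + 1 / (a ^ 3 * b)) := by
    rw [hα, hβ]
    field_simp
    ring
  -- squares
  have sk : a ^ 2 = 1 + 2 * k.re + ‖k‖ ^ 2 := by
    have hk2 : k.re ^ 2 + k.im ^ 2 = ‖k‖ ^ 2 := by
      rw [← Complex.normSq_eq_norm_sq, Complex.normSq_apply]; ring
    rw [ha, ← Complex.normSq_eq_norm_sq, Complex.normSq_apply, Complex.add_re, Complex.add_im,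
      Complex.one_re, Complex.one_im]
    linear_combination hk2
  have sl : b ^ 2 = 1 + 2 * l.re + ‖l‖ ^ 2 := by
    have hk2 : l.re ^ 2 + l.im ^ 2 = ‖l‖ ^ 2 := by
      rw [← Complex.normSq_eq_norm_sq, Complex.normSq_apply]; ring
    rw [hb, ← Complex.normSq_eq_norm_sq, Complex.normSq_apply, Complex.add_re, Complex.add_im,
      Complex.one_re, Complex.one_im]
    linear_combination hk2
  set q : ℝ := ‖k‖ ^ 2 - ‖l‖ ^ 2 with hq
  have hq1 : |q| ≤ 2 * δ * D := by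
    have e : q = (‖k‖ - ‖l‖) * (‖k‖ + ‖l‖) := by rw [hq]; ring
    rw [e, abs_mul, abs_of_nonneg (by positivity : 0 ≤ ‖k‖ + ‖l‖)]
    have e2 : |‖k‖ - ‖l‖| ≤ D := abs_norm_sub_norm_le k l
    calc |‖k‖ - ‖l‖| * (‖k‖ + ‖l‖) ≤ D * (δ + δ) := by gcongr
      _ = 2 * δ * D := by ring
  set S : ℝ := (α - β) + 3 * (k - l).re with hS
  have hSe : S = (a - b) * (3 / 2 * (a - 1) + 3 / 2 * (b - 1) - (1 / (a * b ^ 3) - 1) - (1 / (a ^ 2 * b ^ 2) - 1) -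
      (1 / (a ^ 3 * b) - 1)) - 3 / 2 * q := by
    rw [hS, eab, Complex.sub_re]
    have : 3 * (k.re - l.re) = 3 / 2 * (a ^ 2 - b ^ 2) - 3 / 2 * q := by rw [hq, sk, sl]; ring
    rw [this]
    ring
  have hbr : |3 / 2 * (a - 1) + 3 / 2 * (b - 1) - (1 / (a * b ^ 3) - 1) - (1 / (a ^ 2 * b ^ 2) - 1) -
      (1 / (a ^ 3 * b) - 1)| ≤ 18 * δ := by
    obtain ⟨c1, c2⟩ := abs_le.1 r1
    obtain ⟨c3, c4⟩ := abs_le.1 r2
    obtain ⟨c5, c6⟩ := abs_le.1 r3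
    rw [abs_le]
    constructor <;> linarith
  have hSb : |S| ≤ 21 * δ * D := by
    rw [hSe]
    refine (abs_sub _ _).trans ?_
    rw [abs_mul, abs_mul, abs_of_pos (by norm_num : (0 : ℝ) < 3 / 2)]
    have : |a - b| * |3 / 2 * (a - 1) + 3 / 2 * (b - 1) - (1 / (a * b ^ 3) - 1) - (1 / (a ^ 2 * b ^ 2) - 1) -
      (1 / (a ^ 3 * b) - 1)| ≤ D * (18 * δ) := mul_le_mul ab hbr (abs_nonneg _) hD0
    linarith
  have hab2 : |α - β| ≤ 4 * D := by
    rw [eab, abs_mul, abs_neg]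
    have : |1 / (a * b ^ 3) + 1 / (a ^ 2 * b ^ 2) + 1 / (a ^ 3 * b)| ≤ 4 := by
      obtain ⟨c1, c2⟩ := abs_le.1 r1
      obtain ⟨c3, c4⟩ := abs_le.1 r2
      obtain ⟨c5, c6⟩ := abs_le.1 r3
      rw [abs_le]
      constructor <;> linarith
    calc _ ≤ D * 4 := mul_le_mul ab this (abs_nonneg _) hD0
      _ = 4 * D := by ring
  have key : (α : ℂ) * (1 + k) - (β : ℂ) * (1 + l) + (1 / 2 : ℂ) * ((k - l) + 3 * (starRingEnd ℂ) (k - l)) =
      ((α - 1 : ℝ) : ℂ) * (k - l) + ((α - β : ℝ) : ℂ) * l + (S : ℂ) := by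
    rw [hS]
    apply Complex.ext
    · simp only [Complex.sub_re, Complex.add_re, Complex.mul_re, Complex.ofReal_re, Complex.ofReal_im,
        Complex.one_re, Complex.conj_re, Complex.conj_im, Complex.one_im, Complex.add_im, Complex.mul_im,
        Complex.sub_im]
      norm_num
      ring
    · simp only [Complex.sub_re, Complex.add_re, Complex.mul_re, Complex.ofReal_re, Complex.ofReal_im,
        Complex.one_re, Complex.conj_re, Complex.conj_im, Complex.one_im, Complex.add_im, Complex.mul_im,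
        Complex.sub_im]
      norm_num
      ring
  rw [key]
  have t1 : ‖((α - 1 : ℝ) : ℂ) * (k - l)‖ ≤ 5 * δ * D := by
    rw [norm_mul, Complex.norm_real, Real.norm_eq_abs]
    exact mul_le_mul_of_nonneg_right r4 hD0
  have t2 : ‖((α - β : ℝ) : ℂ) * l‖ ≤ 4 * D * δ := by
    rw [norm_mul, Complex.norm_real, Real.norm_eq_abs]
    exact mul_le_mul hab2 hl (norm_nonneg _) (by positivity)
  have t3 : ‖(S : ℂ)‖ ≤ 21 * δ * D := by
    rw [Complex.norm_real, Real.norm_eq_abs]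
    exact hSb
  have t4 := norm_add₃_le (a := ((α - 1 : ℝ) : ℂ) * (k - l)) (b := ((α - β : ℝ) : ℂ) * l) (c := (S : ℂ))
  have : 0 ≤ δ * D := by positivity
  linarith

theorem main : S_LK := by
  intro X d c A B hX hX2 hc hd hA hB
  have hX0 : 0 < X := by linarith
  have hd0 : 0 ≤ d := (norm_nonneg _).trans hA
  have hc0 : c ≠ 0 := by
    intro h
    rw [h, norm_zero] at hc
    exact zero_ne_one hc
  have hXc : (X : ℂ) ≠ 0 := by exact_mod_cast hX0.ne'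
  have hXcn : ‖(X : ℂ) * c‖ = X := by rw [norm_mul, hc, mul_one, Complex.norm_real, Real.norm_of_nonneg hX0.le]
  set k : ℂ := (A - X * c) / (X * c) with hk
  set l : ℂ := (B - X * c) / (X * c) with hl
  have eA : A = X * c * (1 + k) := by rw [hk]; field_simp; ring
  have eB : B = X * c * (1 + l) := by rw [hl]; field_simp; ring
  have hkn : ‖k‖ ≤ d / X := by
    rw [hk, norm_div, hXcn]
    gcongr
  have hln : ‖l‖ ≤ d / X := by
    rw [hl, norm_div, hXcn]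
    gcongr
  have hδ : d / X ≤ 1 / 40 := by
    rw [div_le_iff₀ hX0]
    linarith
  have nA : ‖A‖ = X * ‖1 + k‖ := by rw [eA, norm_mul, hXcn]
  have nB : ‖B‖ = X * ‖1 + l‖ := by rw [eB, norm_mul, hXcn]
  have gA : 1 / 4 ≤ ‖A‖ := by
    have h := norm_sub_norm_le ((X : ℂ) * c) (X * c - A)
    rw [hXcn, sub_sub_cancel, norm_sub_rev] at h
    linarith
  have gB : 1 / 4 ≤ ‖B‖ := by
    have h := norm_sub_norm_le ((X : ℂ) * c) (X * c - B)
    rw [hXcn, sub_sub_cancel, norm_sub_rev] at h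
    linarith
  have pk : 0 < ‖1 + k‖ := by
    by_contra h
    have h' : ‖1 + k‖ ≤ 0 := not_lt.1 h
    nlinarith
  have pl : 0 < ‖1 + l‖ := by
    by_contra h
    have h' : ‖1 + l‖ ≤ 0 := not_lt.1 h
    nlinarith
  have hmain := main_one hδ hkn hln
  rw [ker_eq gA, ker_eq gB, nA, nB]
  have hcc : c * (starRingEnd ℂ) c = 1 := by
    rw [Complex.mul_conj, Complex.normSq_eq_norm_sq, hc]
    norm_num
  set a := ‖1 + k‖ with ha
  set b := ‖1 + l‖ with hb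
  have key : ((1 / (X * a) ^ 3 : ℝ) : ℂ) * A - ((1 / (X * b) ^ 3 : ℝ) : ℂ) * B +
      ((1 / (2 * X ^ 3) : ℝ) : ℂ) * ((A - B) + 3 * c ^ 2 * (starRingEnd ℂ) (A - B)) =
      ((1 / X ^ 2 : ℝ) : ℂ) * c * (((1 / a ^ 3 : ℝ) : ℂ) * (1 + k) - ((1 / b ^ 3 : ℝ) : ℂ) * (1 + l) +
      (1 / 2 : ℂ) * ((k - l) + 3 * (starRingEnd ℂ) (k - l))) := by
    have hac : (a : ℂ) ≠ 0 := by exact_mod_cast pk.ne'
    have hbc : (b : ℂ) ≠ 0 := by exact_mod_cast pl.ne'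
    have e1 : A - B = X * c * (k - l) := by rw [eA, eB]; ring
    have e2 : c ^ 2 * (starRingEnd ℂ) (A - B) = X * c * (starRingEnd ℂ) (k - l) := by
      rw [e1, map_mul, map_mul, Complex.conj_ofReal]
      linear_combination (X * c * (starRingEnd ℂ) (k - l)) * hcc
    rw [mul_assoc 3, e2, e1, eA, eB]
    push_cast
    field_simp
  rw [key, norm_mul, norm_mul, hc, mul_one, Complex.norm_real, Real.norm_of_nonneg (by positivity)]
  have hD : ‖A - B‖ = X * ‖k - l‖ := by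
    rw [eA, eB, ← mul_sub, norm_mul, hXcn, add_sub_add_left_eq_sub]
  rw [hD]
  have h4 : 1 / X ^ 4 ≤ 40 := by
    rw [div_le_iff₀ (by positivity)]
    have : (2 / 5 : ℝ) ^ 4 ≤ X ^ 4 := by gcongr
    nlinarith
  calc 1 / X ^ 2 * ‖((1 / a ^ 3 : ℝ) : ℂ) * (1 + k) - ((1 / b ^ 3 : ℝ) : ℂ) * (1 + l) +
      (1 / 2 : ℂ) * ((k - l) + 3 * (starRingEnd ℂ) (k - l))‖ ≤ 1 / X ^ 2 * (32 * (d / X) * ‖k - l‖) := by gcongr
    _ = 32 * (1 / X ^ 4) * (d * (X * ‖k - l‖)) := by field_simp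
    _ ≤ 32 * 40 * (d * (X * ‖k - l‖)) := by gcongr
    _ ≤ 10 ^ 4 * d * (X * ‖k - l‖) := by
        have : 0 ≤ d * (X * ‖k - l‖) := by positivity
        linarith

end Pool.Agent.H77.TU.LK
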