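import Pool.Agent.H77.TU.Defs

/-! Statements of the stubs of project TU (MP_6e7c44_mp). NOT a hand-in. Proof text: `team-store get tu_proof.md`.
Put the proof of `S_XXX` into `Pool/Agent/H77/TU/XXX.lean`, namespace `Pool.Agent.H77.TU.XXX`, theorem `main`
(other `S_` statements may be taken as hypotheses where the proof text says so). -/

set_option autoImplicit false

open Complex

namespace Pool.Agent.H77.TU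

open Pool.Agent.H3.TB Pool.Agent.H3.TB.NearAux

/-! ### TU-LK: linearization of the kernel along the rotating configuration -/

/-- `K(w) = w/|w|³` has derivative `DK(w) ξ = -(ξ/2 + (3/2) (w/|w|)² conj ξ)/|w|³`, second derivative `≤ 30/|w|⁴`. -/
def S_LK : Prop := ∀ (X d : ℝ) (c A B : ℂ), 2 / 5 ≤ X → X ≤ 2 → ‖c‖ = 1 → d ≤ 1 / 100 →
  ‖A - X * c‖ ≤ d → ‖B - X * c‖ ≤ d →
  ‖ker (1/4) A - ker (1/4) B + ((1 / (2 * X ^ 3) : ℝ) : ℂ) * ((A - B) + 3 * c ^ 2 * (starRingEnd ℂ) (A - B))‖ ≤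
    10 ^ 4 * d * ‖A - B‖

/-! ### TU-DIFF: equations of the difference of two solutions in the frame `conj (u t)` of the first one -/

def S_DIFF : Prop := ∀ (ε r m12 m3 a z : ℝ), Par ε m12 m3 a z → 0 ≤ r → r ≤ 1 / 10 ^ 6 →
  ∀ u v x y u' v' x' y' : ℝ → ℂ, JSol m12 m3 a u v x y → JSol m12 m3 a u' v' x' y' →
  ∀ (t : ℝ) (c k q h e : ℂ), InTube (1 + z - a) r (u t) (v t) (x t) (y t) c →
  k = (u' t - u t) * (starRingEnd ℂ) (u t) → q = (v' t - v t) * (starRingEnd ℂ) (u t) →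
  h = (x' t - x t) * (starRingEnd ℂ) (u t) → e = (y' t - y t) * (starRingEnd ℂ) (u t) →
  NN k q h e ≤ 1 / 10 ^ 6 →
  ∃ e1 e2 e3 e4 : ℂ,
    HasDerivAt (fun s => (u' s - u s) * (starRingEnd ℂ) (u s)) (q - I * k + e1) t ∧
    HasDerivAt (fun s => (v' s - v s) * (starRingEnd ℂ) (u s))
      (-I * q + 1 / 2 * (k + 3 * (starRingEnd ℂ) k) + e2) t ∧
    HasDerivAt (fun s => (x' s - x s) * (starRingEnd ℂ) (u s)) (e - I * h + e3) t ∧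
    HasDerivAt (fun s => (y' s - y s) * (starRingEnd ℂ) (u s))
      (-I * e + (be / 2 : ℝ) * (h + 3 * (starRingEnd ℂ) h) + (ga : ℂ) * (k + 3 * (starRingEnd ℂ) k) + e4) t ∧
    ‖e1‖ ≤ 10 ^ 6 * (r + NN k q h e + ε) * NN k q h e ∧ ‖e2‖ ≤ 10 ^ 6 * (r + NN k q h e + ε) * NN k q h e ∧
    ‖e3‖ ≤ 10 ^ 6 * (r + NN k q h e + ε) * NN k q h e ∧ ‖e4‖ ≤ 10 ^ 6 * (r + NN k q h e + ε) * NN k q h e

/-! ### TU-FUN: the coordinates (algebra) -/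

/-- size of a perturbation in the coordinates; value of `sg` on the unstable vector, on which the other
coordinates vanish -/
def S_FUN0 : Prop := (∀ k q h e : ℂ, NN k q h e ≤ |sg h e| + 4 * Real.sqrt (QQ k q h e)) ∧
  (∀ s : ℝ, sg (s * gg c0) (s * ((l0 + I) * gg c0)) = s * sG ∧ ta (s * gg c0) (s * ((l0 + I) * gg c0)) = 0 ∧
    pp (s * gg c0) (s * ((l0 + I) * gg c0)) = 0 ∧ ph (s * gg c0) (s * ((l0 + I) * gg c0)) = 0) ∧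
  14 ≤ sG ∧ sG ≤ 15

/-- differential inequalities for the coordinates -/
def S_FUN1 : Prop := ∀ (k q h e : ℝ → ℂ) (t D : ℝ) (e1 e2 e3 e4 : ℂ), 0 ≤ D →
  HasDerivAt k (q t - I * k t + e1) t →
  HasDerivAt q (-I * q t + 1 / 2 * (k t + 3 * (starRingEnd ℂ) (k t)) + e2) t →
  HasDerivAt h (e t - I * h t + e3) t →
  HasDerivAt e (-I * e t + (be / 2 : ℝ) * (h t + 3 * (starRingEnd ℂ) (h t)) +
    (ga : ℂ) * (k t + 3 * (starRingEnd ℂ) (k t)) + e4) t →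
  ‖e1‖ ≤ D * NN (k t) (q t) (h t) (e t) → ‖e2‖ ≤ D * NN (k t) (q t) (h t) (e t) →
  ‖e3‖ ≤ D * NN (k t) (q t) (h t) (e t) → ‖e4‖ ≤ D * NN (k t) (q t) (h t) (e t) →
  ∃ s' Q' : ℝ, HasDerivAt (fun s => sg (h s) (e s)) s' t ∧ HasDerivAt (fun s => QQ (k s) (q s) (h s) (e s)) Q' t ∧
    |s' - l0 * sg (h t) (e t)| ≤ 17 * D * NN (k t) (q t) (h t) (e t) +
      14 / 1000 * Real.sqrt (QQ (k t) (q t) (h t) (e t)) ∧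
    Q' ≤ (2 * Real.sqrt 2 + 52 / 1000) * QQ (k t) (q t) (h t) (e t) +
      5058 * D * Real.sqrt (QQ (k t) (q t) (h t) (e t)) * NN (k t) (q t) (h t) (e t)

/-! ### TU-ABS: invariance of the cone and exit (elementary calculus) -/

def S_ABS : Prop := ∀ (σ Q : ℝ → ℝ) (s1 θ : ℝ), 0 < s1 → 0 < θ → (∀ t, 0 ≤ Q t) → 0 < σ 0 → σ 0 ≤ s1 →
  Q 0 ≤ θ ^ 2 * σ 0 ^ 2 → ContinuousOn σ (Set.Ici 0) → ContinuousOn Q (Set.Ici 0) →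
  (∀ t, 0 ≤ t → 0 < σ t → σ t ≤ s1 → Q t ≤ θ ^ 2 * σ t ^ 2 → ∃ σ' Q' : ℝ, HasDerivAt σ σ' t ∧ HasDerivAt Q Q' t ∧
    3 / 2 * σ t ≤ σ' ∧ Q' < 2 * θ ^ 2 * σ t * σ') →
  ∃ T : ℝ, 0 ≤ T ∧ σ T = s1 ∧ ∀ t ∈ Set.Icc 0 T, 0 < σ t ∧ σ t ≤ s1 ∧ Q t ≤ θ ^ 2 * σ t ^ 2

/-! ### TU-PH1: the phase near the given solution (from LK, DIFF, FUN0, FUN1, ABS, exists_jsol) -/

def S_PH1 : Prop := ∀ (ε r s1 θ m12 m3 a z : ℝ), Par ε m12 m3 a z → 0 ≤ r → 0 < s1 → s1 ≤ 1 / 10 ^ 8 →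
  θ = 10 ^ 12 * (r + s1 + ε) → θ ≤ 1 / 1000 →
  ∀ u v x y : ℝ → ℂ, JSol m12 m3 a u v x y →
  (∀ t, 0 ≤ t → ∃ c, InTube (1 + z - a) r (u t) (v t) (x t) (y t) c) →
  ∀ s, 0 < s → s ≤ s1 → ∃ u' v' x' y' : ℝ → ℂ, JSol m12 m3 a u' v' x' y' ∧
    ‖u' 0 - u 0‖ ≤ 10 * s ∧ ‖v' 0 - v 0‖ ≤ 10 * s ∧ ‖x' 0 - x 0‖ ≤ 10 * s ∧ ‖y' 0 - y 0‖ ≤ 10 * s ∧
    ∃ T : ℝ, 0 ≤ T ∧
      (∀ t ∈ Set.Icc 0 T, ‖u' t - u t‖ ≤ 100 * s1 ∧ ‖x' t - x t‖ ≤ 100 * s1) ∧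
      ∃ c : ℂ, ‖c‖ = 1 ∧ ‖u' T - c‖ ≤ 100 * (r + θ * s1) ∧ ‖v' T - I * c‖ ≤ 100 * (r + θ * s1) ∧
        ‖x' T - c * ((1 + z - a : ℝ) + s1 * gg c0)‖ ≤ 100 * (r + θ * s1) ∧
        ‖y' T - c * (I * (1 + z - a : ℝ) + s1 * ((I + l0) * gg c0))‖ ≤ 100 * (r + θ * s1)

/-! ### TU-BAR: the barrier argument of `H3/TB/Near.lean` (`barrier`) with an initial error -/

def S_BAR : Prop := ∀ (ε kap m12 m3 a z l c w β : ℝ), NP ε kap m12 m3 a z l c w β → 100 ≤ kap →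
  ∀ s E T : ℝ, 0 < s → 0 ≤ E → (∀ t ∈ Set.Icc 0 T, s * Real.exp (l * t) ≤ 1 / 10 ^ 9) →
  (∀ t ∈ Set.Icc 0 T, E * Real.exp (21 / 10 * t) ≤ 1 / 10 ^ 17) →
  ∀ u v x y : ℝ → ℂ, JSol m12 m3 a u v x y →
  205 / 100 * ‖x 0 - ap s l ((1 + z - a : ℝ) : ℂ) (gg c) 0‖ ≤ E →
  ‖y 0 - ap s l (I * ((1 + z - a : ℝ) : ℂ)) ((I + l) * gg c) 0‖ ≤ E →
  3 / 2 * kap * ‖u 0 - ap s l 1 ((w : ℂ) * gg c) 0‖ ≤ E →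
  kap * ‖v 0 - ap s l (I * 1) ((I + l) * ((w : ℂ) * gg c)) 0‖ ≤ E →
  ∀ t ∈ Set.Icc 0 T,
    205 / 100 * ‖x t - ap s l ((1 + z - a : ℝ) : ℂ) (gg c) t‖ ≤
      150 * (s * Real.exp (l * t)) ^ 2 + E * Real.exp (21 / 10 * t) ∧
    ‖y t - ap s l (I * ((1 + z - a : ℝ) : ℂ)) ((I + l) * gg c) t‖ ≤
      150 * (s * Real.exp (l * t)) ^ 2 + E * Real.exp (21 / 10 * t) ∧
    3 / 2 * kap * ‖u t - ap s l 1 ((w : ℂ) * gg c) t‖ ≤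
      150 * (s * Real.exp (l * t)) ^ 2 + E * Real.exp (21 / 10 * t) ∧
    kap * ‖v t - ap s l (I * 1) ((I + l) * ((w : ℂ) * gg c)) t‖ ≤
      150 * (s * Real.exp (l * t)) ^ 2 + E * Real.exp (21 / 10 * t)

/-! ### TU-MODE: `mode` of `H3/TB/Mode.lean` with closeness to the exact limit values -/

def S_MODE : Prop := ∀ ε : ℝ, 0 < ε → ∃ η : ℝ, 0 < η ∧ ∀ m12 m3 a z : ℝ, IsRE m12 m3 a z → 0 < m3 → m3 < η →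
    |z - 1 / 2| < η → |m12 - 1| ≤ ε ∧ |a - 19 / 82| ≤ ε ∧ ∃ l c w β : ℝ,
      |l - ll| ≤ 1 / 10 ^ 9 ∧ |c - cc| ≤ 1 / 10 ^ 9 ∧ |l - l0| ≤ ε ∧ |c - c0| ≤ ε ∧ |w| ≤ ε ∧
      l ^ 2 - 1 - 2 * β = 2 * l * c ∧ (l ^ 2 - 1 + β) * c = -2 * l ∧
      β = (m12 + m3) * ((1 - a) * (1 + a * w) / (1 + z) ^ 3 + a * (1 - (1 - a) * w) / z ^ 3) ∧
      β * w = m12 * w - m3 * ((1 - (1 - a) * w) / z ^ 3 - (1 + a * w) / (1 + z) ^ 3)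

/-! ### TU-PH2: from amplitude `s1` to amplitude `10⁻⁹` (from BAR and the lemmas of `H3/TB/Near.lean`) -/

/-- Fix `δ`. If `s1` is small enough, then `E0` can be chosen so that, for parameters close enough to the limit, a
solution which is within `K (E0 + s1²)` of the unstable direction at amplitude `s1` (rotated by `c`) arrives. -/
def S_PH2 : Prop := ∀ (δ K : ℝ), 0 < δ → 1 ≤ K → ∃ s1 : ℝ, 0 < s1 ∧ s1 ≤ 1 / 10 ^ 9 / K ∧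
  ∃ η : ℝ, 0 < η ∧ ∀ m12 m3 a z : ℝ, IsRE m12 m3 a z → 0 < m3 → m3 < η → |z - 1 / 2| < η →
  ∀ u v x y : ℝ → ℂ, JSol m12 m3 a u v x y → ∀ c : ℂ, ‖c‖ = 1 →
  ‖u 0 - c‖ ≤ K * s1 ^ 2 → ‖v 0 - I * c‖ ≤ K * s1 ^ 2 →
  ‖x 0 - c * ((1 + z - a : ℝ) + s1 * gg c0)‖ ≤ K * s1 ^ 2 →
  ‖y 0 - c * (I * (1 + z - a : ℝ) + s1 * ((I + l0) * gg c0))‖ ≤ K * s1 ^ 2 →
  ∃ T : ℝ, 0 ≤ T ∧
    (∀ t ∈ Set.Icc 0 T, 2 / 5 ≤ ‖u t‖ ∧ 2 / 5 ≤ ‖x t + (a : ℂ) * u t‖ ∧ 2 / 5 ≤ ‖x t - (1 - (a : ℂ)) * u t‖) ∧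
    ∃ c' : ℂ, ‖c'‖ = 1 ∧ ‖u T - c'‖ ≤ δ ∧ ‖v T - I * c'‖ ≤ δ ∧
    ‖x T - c' * Z0‖ ≤ 8 / 10 ^ 17 ∧ ‖y T - c' * Z1‖ ≤ 16 / 10 ^ 17

/-! ### TU-NEAR: both phases together (from PH1, PH2, MODE) -/

def S_NEAR : Prop := ∀ δ : ℝ, 0 < δ → ∃ η : ℝ, 0 < η ∧ ∀ m12 m3 a z : ℝ, IsRE m12 m3 a z → 0 < m3 → m3 < η →
  |z - 1 / 2| < η → |m12 - 1| ≤ δ ∧ |a - 19 / 82| ≤ δ ∧
  ∀ u v x y : ℝ → ℂ, JSol m12 m3 a u v x y →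
  (∀ t, 0 ≤ t → ∃ c, InTube (1 + z - a) η (u t) (v t) (x t) (y t) c) →
  ∀ s, 0 < s → ∃ u' v' x' y' : ℝ → ℂ, JSol m12 m3 a u' v' x' y' ∧
    ‖u' 0 - u 0‖ ≤ s ∧ ‖v' 0 - v 0‖ ≤ s ∧ ‖x' 0 - x 0‖ ≤ s ∧ ‖y' 0 - y 0‖ ≤ s ∧
    ∃ T : ℝ, 0 ≤ T ∧
      (∀ t ∈ Set.Icc 0 T, 2 / 5 ≤ ‖u' t‖ ∧ 2 / 5 ≤ ‖x' t + (a : ℂ) * u' t‖ ∧
        2 / 5 ≤ ‖x' t - (1 - (a : ℂ)) * u' t‖) ∧
      ∃ c : ℂ, ‖c‖ = 1 ∧ ‖u' T - c‖ ≤ δ ∧ ‖v' T - I * c‖ ≤ δ ∧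
      ‖x' T - c * Z0‖ ≤ 8 / 10 ^ 17 ∧ ‖y' T - c * Z1‖ ≤ 16 / 10 ^ 17

/-! ### TU-CHAIN: near + binary + transit + escape (as `chain_of` in `H3/TB/Chain.lean`) -/

def S_CHAIN : Prop := ∃ η : ℝ, 0 < η ∧ ∀ m12 m3 a z : ℝ, IsRE m12 m3 a z → 0 < m3 → m3 < η →
  |z - 1 / 2| < η → |m12 - 1| ≤ 1 / 10 ∧ |a - 19 / 82| ≤ 1 / 10 ∧
  ∀ u v x y : ℝ → ℂ, JSol m12 m3 a u v x y →
  (∀ t, 0 ≤ t → ∃ c, InTube (1 + z - a) η (u t) (v t) (x t) (y t) c) →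
  ∀ s, 0 < s → ∃ u' v' x' y' : ℝ → ℂ, JSol m12 m3 a u' v' x' y' ∧
    ‖u' 0 - u 0‖ ≤ s ∧ ‖v' 0 - v 0‖ ≤ s ∧ ‖x' 0 - x 0‖ ≤ s ∧ ‖y' 0 - y 0‖ ≤ s ∧
    (∀ t, 0 ≤ t → 2 / 5 ≤ ‖u' t‖ ∧ 2 / 5 ≤ ‖x' t + (a : ℂ) * u' t‖ ∧ 2 / 5 ≤ ‖x' t - (1 - (a : ℂ)) * u' t‖) ∧
    ∃ T₀ : ℝ, 0 ≤ T₀ ∧ ∀ t, T₀ ≤ t → (t - T₀) / 10 ≤ ‖x' t‖ ∧ ‖u' t‖ ≤ 2

/-! ### TU-CLOSE: nearly constant mutual distances for all times => state in the tube -/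

/-- a forward solution of Newton's equations in the centre of mass frame on `[0, ∞)` -/
def FSol (m : Fin 3 → ℝ) (x : ℝ → Ph) : Prop :=
  ContinuousOn x (Set.Ici 0) ∧ (∀ t, 0 ≤ t → x t ∈ phaseSpace m) ∧
    ∀ t, 0 < t → HasDerivAt x ((x t).2, acc m (x t).1) t

/-- Jacobi coordinates of a phase point -/
noncomputable def jac (a : ℝ) (q : Fin 3 → ℂ) : ℂ × ℂ := (q 1 - q 0, q 2 - ((1 - a : ℝ) * q 0 + (a : ℂ) * q 1))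

def S_CLOSE : Prop := ∀ δ : ℝ, 0 < δ → ∃ η : ℝ, 0 < η ∧ ∀ m12 m3 a z : ℝ, IsRE m12 m3 a z → 0 < m3 → m3 < η →
  |z - 1 / 2| < η → ∀ x : ℝ → Ph, FSol (mass m12 m3 a) x →
  (∀ t, 0 ≤ t → abs (‖(x t).1 1 - (x t).1 0‖ - 1) ≤ η ∧ abs (‖(x t).1 2 - (x t).1 1‖ - z) ≤ η ∧
    abs (‖(x t).1 2 - (x t).1 0‖ - (1 + z)) ≤ η) →
  (∀ t, 0 ≤ t → ∃ c, InTube (1 + z - a) δ (jac a (x t).1).1 (jac a (x t).2).1 (jac a (x t).1).2 (jac a (x t).2).2 c) ∨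
  (∀ t, 0 ≤ t → ∃ c, InTube (1 + z - a) δ ((starRingEnd ℂ) (jac a (x t).1).1) ((starRingEnd ℂ) (jac a (x t).2).1)
    ((starRingEnd ℂ) (jac a (x t).1).2) ((starRingEnd ℂ) (jac a (x t).2).2) c)

/-! ### TU-UNI: a Newtonian forward solution which stays in the tube is, in Jacobi coordinates, a `JSol` for `t ≥ 0` -/

def S_UNI : Prop := ∀ m12 m3 a z : ℝ, |m12 - 1| ≤ 1 / 10 → 0 < m3 → m3 ≤ 1 / 10 → |a - 19 / 82| ≤ 1 / 10 →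
  |z - 1 / 2| ≤ 1 / 20 → ∀ x : ℝ → Ph, FSol (mass m12 m3 a) x →
  (∀ t, 0 ≤ t → ∃ c, InTube (1 + z - a) (1 / 100) (jac a (x t).1).1 (jac a (x t).2).1 (jac a (x t).1).2
    (jac a (x t).2).2 c) →
  ∃ u v w y : ℝ → ℂ, JSol m12 m3 a u v w y ∧ ∀ t, 0 ≤ t → u t = (jac a (x t).1).1 ∧ v t = (jac a (x t).2).1 ∧
    w t = (jac a (x t).1).2 ∧ y t = (jac a (x t).2).2

/-! ### TU-BASE: normalized theorem (from CHAIN, UNI, CLOSE and `of_jsol`) -/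

/-- the conclusion: forward solutions starting in `U` in which body 2 escapes; `L` bounds the other distance -/
def Esc (m : Fin 3 → ℝ) (U : Set Ph) (L : ℝ) : Prop := ∃ y : ℝ → Ph, y 0 ∈ U ∧ IsForwardSol m y ∧
  ∀ R : ℝ, ∃ t₀ : ℝ, ∀ t, t₀ ≤ t → R ≤ ‖(y t).1 2 - (y t).1 0‖ ∧ R ≤ ‖(y t).1 2 - (y t).1 1‖ ∧
    ‖(y t).1 1 - (y t).1 0‖ ≤ L

def S_BASE : Prop := ∃ η : ℝ, 0 < η ∧ ∀ m12 m3 a z : ℝ, IsRE m12 m3 a z → 0 < m3 → m3 < η → |z - 1 / 2| < η →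
  0 < a ∧ a < 1 ∧ 0 < m12 ∧
  ∀ x : ℝ → Ph, FSol (mass m12 m3 a) x →
  (∀ t, 0 ≤ t → abs (‖(x t).1 1 - (x t).1 0‖ - 1) ≤ η ∧ abs (‖(x t).1 2 - (x t).1 1‖ - z) ≤ η ∧
    abs (‖(x t).1 2 - (x t).1 0‖ - (1 + z)) ≤ η) →
  ∀ U ∈ nhds (x 0), Esc (mass m12 m3 a) U 2

/-! ### TU-WRAP: all masses of the cone, all sizes (from BASE; model: `H3/TB/Wrap.lean`) -/

def S_WRAP : Prop := ∃ η : ℝ, 0 < η ∧ ∀ m : Fin 3 → ℝ, (∀ i, 0 < m i) →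
  m 2 < η * (m 0 + m 1) → |m 0 - 63 / 82 * (m 0 + m 1)| < η * (m 0 + m 1) →
  (∃ r : Fin 3 → ℝ, r 0 < r 1 ∧ r 1 < r 2 ∧ IsSol m (euler r 1 1)) ∧
  ∀ (r : Fin 3 → ℝ) (w : ℂ) (ω : ℝ), r 0 < r 1 → r 1 < r 2 → w ≠ 0 → ω ≠ 0 → IsSol m (euler r w ω) →
  ∀ x : ℝ → Ph, FSol m x →
    (∀ t a b, 0 ≤ t → abs (‖(x t).1 a - (x t).1 b‖ - ‖w‖ * |r a - r b|) ≤ η * (‖w‖ * |r a - r b|)) →
    ∀ U ∈ nhds (x 0), Esc m U (2 * (‖w‖ * (r 1 - r 0)))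

/-! ### TU-HOM: elliptic homographic solutions are relative periodic, with nearly constant distances -/

/-- position on the Kepler ellipse of eccentricity `e` at eccentric anomaly `E` -/
noncomputable def ell (e E : ℝ) : ℂ := ((Real.cos E - e : ℝ) : ℂ) + ((Real.sqrt (1 - e ^ 2) * Real.sin E : ℝ) : ℂ) * I

/-- `x` is the elliptic homographic motion of eccentricity `e` belonging to the relative equilibrium `euler r w ω` -/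
def IsElliptic (r : Fin 3 → ℝ) (w : ℂ) (ω e : ℝ) (x : ℝ → Ph) : Prop :=
  ∃ A : ℝ → ℝ, (∀ t, A t - e * Real.sin (A t) = ω * t) ∧ (∀ t i, (x t).1 i = w * ell e (A t) * r i) ∧
    ∀ t, HasDerivAt (fun s => (x s).1) (x t).2 t

def S_HOM : Prop := ∀ (m r : Fin 3 → ℝ) (w : ℂ) (ω : ℝ), (∀ i, 0 < m i) → r 0 < r 1 → r 1 < r 2 → w ≠ 0 → ω ≠ 0 →
  IsSol m (euler r w ω) → ∀ e : ℝ, 0 ≤ e → e < 1 →
  (∃ x : ℝ → Ph, IsElliptic r w ω e x) ∧ ∀ x : ℝ → Ph, IsElliptic r w ω e x → IsSol m x ∧ IsRelPeriodic x ∧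
    (∀ t a b, abs (‖(x t).1 a - (x t).1 b‖ - ‖w‖ * |r a - r b|) ≤ e * (‖w‖ * |r a - r b|)) ∧
    (∀ a b, a ≠ b → ∃ t s, ‖(x t).1 a - (x t).1 b‖ = (1 - e) * (‖w‖ * |r a - r b|) ∧
      ‖(x s).1 a - (x s).1 b‖ = (1 + e) * (‖w‖ * |r a - r b|))

end Pool.Agent.H77.TU
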